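import Pool.Agent.Helper17.SL.GoalsA

/-! # Project SL, packet GA4 -/

namespace Pool.Agent.Helper17.SL.PkGA4

open Pool.Agent.Helper17.SL
open Pool.Agent.Helper51.SigLeo Pool.Agent.Helper51.SixExp NumberField Module TensorProduct

universe u v w x y z

section

variable {K : Type*} [Field K] {H : Type*} [Field H] [Algebra K H]

theorem archLog_unitsHom (ρ : H →+* ℂ) (g : H ≃ₐ[K] H) (v : Additive (𝓞 H)ˣ) :
    archLog ρ (unitsHom g v) = archLog (ρ.comp (g : H →+* H)) v := rfl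

theorem archLog_conj (ρ : H →+* ℂ) : archLog (ComplexEmbedding.conjugate ρ) = archLog ρ := by
  apply DFunLike.ext
  intro v
  show ((Real.log ‖ComplexEmbedding.conjugate ρ ((v.toMul : (𝓞 H)ˣ) : H)‖ : ℝ) : ℂ) =
    ((Real.log ‖ρ ((v.toMul : (𝓞 H)ˣ) : H)‖ : ℝ) : ℂ)
  rw [ComplexEmbedding.conjugate_coe_eq, Complex.norm_conj]

variable [Fintype (H ≃ₐ[K] H)] {E : Type*} [Field E] (ε : E →+* ℂ) (χ : (H ≃ₐ[K] H) →* Eˣ)

theorem f_eq (ρ : H →+* ℂ) (v : Additive (𝓞 H)ˣ) : Phi ε (archLog ρ) (tchi χ v) =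
    ∑ g : H ≃ₐ[K] H, ε ((χ g⁻¹ : Eˣ) : E) * archLog (ρ.comp (g : H →+* H)) v := by
  unfold tchi
  rw [map_sum]
  refine Finset.sum_congr rfl fun g _ ↦ ?_
  rw [Phi_tmul, smul_eq_mul, archLog_unitsHom]

theorem f_comp (ρ : H →+* ℂ) (h : H ≃ₐ[K] H) (v : Additive (𝓞 H)ˣ) :
    Phi ε (archLog (ρ.comp (h : H →+* H))) (tchi χ v) =
      ε ((χ h : Eˣ) : E) * Phi ε (archLog ρ) (tchi χ v) := by
  rw [f_eq, f_eq, Finset.mul_sum]
  refine Fintype.sum_equiv (Equiv.mulLeft h) _ _ fun g ↦ ?_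
  have e1 : χ g⁻¹ = χ h * χ (h * g)⁻¹ := by
    rw [map_inv, map_inv, map_mul, mul_inv, mul_inv_cancel_left]
  rw [Equiv.coe_mulLeft, e1, Units.val_mul, map_mul, mul_assoc]
  rfl

theorem f_conj (ρ : H →+* ℂ) (v : Additive (𝓞 H)ˣ) :
    Phi ε (archLog (ComplexEmbedding.conjugate ρ)) (tchi χ v) =
      Phi ε (archLog ρ) (tchi χ v) := by
  rw [archLog_conj]

end

/-- `E ⊗ U → ℂ ⊗ U` -/
noncomputable def TT {E : Type*} [Field E] (ε : E →+* ℂ) (U : Type*) [AddCommGroup U] :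
    (E ⊗[ℤ] U) →+ (ℂ ⊗[ℤ] U) :=
  Phi ε ((TensorProduct.mk ℤ ℂ U 1).toAddMonoidHom)

theorem TT_tmul {E : Type*} [Field E] (ε : E →+* ℂ) (U : Type*) [AddCommGroup U] (e : E) (m : U) :
    TT ε U (e ⊗ₜ m) = ε e ⊗ₜ m := by
  unfold TT
  rw [Phi_tmul]
  show ε e • ((1 : ℂ) ⊗ₜ[ℤ] m) = _
  rw [TensorProduct.smul_tmul', smul_eq_mul, mul_one]

theorem Phi_TT {E : Type*} [Field E] (ε : E →+* ℂ) (U : Type*) [AddCommGroup U] (ℓ : U →+ ℂ)
    (x : E ⊗[ℤ] U) : Phi (RingHom.id ℂ) ℓ (TT ε U x) = Phi ε ℓ x := by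
  induction x using TensorProduct.induction_on with
  | zero => simp
  | tmul a m => rw [TT_tmul, Phi_tmul, Phi_tmul]; rfl
  | add x y hx hy => rw [map_add, map_add, map_add, hx, hy]

/-- extension of a linear form -/
theorem Phi_ext {E : Type*} [Field E] (ε : E →+* ℂ) (U : Type*) [AddCommGroup U]
    (F : (E ⊗[ℤ] U) →ₗ[E] E) (x : E ⊗[ℤ] U) :
    Phi ε ((ε : E →+ ℂ).comp (F.toAddMonoidHom.comp (TensorProduct.mk ℤ E U 1).toAddMonoidHom)) x =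
      ε (F x) := by
  induction x using TensorProduct.induction_on with
  | zero => simp
  | tmul a m =>
    rw [Phi_tmul]
    show ε a • ε (F ((1 : E) ⊗ₜ[ℤ] m)) = _
    rw [smul_eq_mul, ← map_mul, ← smul_eq_mul a, ← map_smul, TensorProduct.smul_tmul', smul_eq_mul,
      mul_one]
  | add x y hx hy => rw [map_add, map_add, map_add, hx, hy]

/-- two infinite places -/
theorem two_places (K : Type u) [Field K] [NumberField K] [IsTotallyComplex K]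
    (hK : finrank ℚ K = 4) {v₁ v₂ : InfinitePlace K} (h : v₁ ≠ v₂) (v : InfinitePlace K) :
    v = v₁ ∨ v = v₂ := by
  classical
  have h1 := InfinitePlace.card_add_two_mul_card_eq_rank K
  have h2 := InfinitePlace.card_eq_nrRealPlaces_add_nrComplexPlaces K
  have h3 : InfinitePlace.nrRealPlaces K = 0 :=
    nrRealPlaces_eq_zero_iff.2 inferInstance
  have h4 : Fintype.card (InfinitePlace K) = 2 := by
    rw [hK, h3] at h1
    rw [h3] at h2
    omega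
  by_contra hcon
  push Not at hcon
  have h5 : ({v, v₁, v₂} : Finset (InfinitePlace K)).card = 3 :=
    Finset.card_eq_three.2 ⟨v, v₁, v₂, hcon.1, hcon.2, h, rfl⟩
  have h6 := Finset.card_le_univ ({v, v₁, v₂} : Finset (InfinitePlace K))
  omega

theorem thm (hGA3 : S_GA3.{v, 0}) : S_GA4.{u, v, w} := by
  intro K _ _ _ H _ _ _ _ _ E _ ε χ ρ₁ ρ₂ u₁ u₂ hK hne hdet u
  set f : (H →+* ℂ) → Additive (𝓞 H)ˣ → ℂ := fun ρ v ↦ Phi ε (archLog ρ) (tchi χ v) with hf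
  -- Cramer
  obtain ⟨a, b, h1, h2⟩ : ∃ a b : ℂ, f ρ₁ u = a * f ρ₁ u₁ + b * f ρ₁ u₂ ∧
      f ρ₂ u = a * f ρ₂ u₁ + b * f ρ₂ u₂ := by
    have hd : f ρ₁ u₁ * f ρ₂ u₂ - f ρ₂ u₁ * f ρ₁ u₂ ≠ 0 := hdet
    refine ⟨(f ρ₁ u * f ρ₂ u₂ - f ρ₂ u * f ρ₁ u₂) / (f ρ₁ u₁ * f ρ₂ u₂ - f ρ₂ u₁ * f ρ₁ u₂),
      (f ρ₁ u₁ * f ρ₂ u - f ρ₂ u₁ * f ρ₁ u) / (f ρ₁ u₁ * f ρ₂ u₂ - f ρ₂ u₁ * f ρ₁ u₂), ?_, ?_⟩
    · rw [div_mul_eq_mul_div, div_mul_eq_mul_div, ← add_div, eq_div_iff hd]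
      ring
    · rw [div_mul_eq_mul_div, div_mul_eq_mul_div, ← add_div, eq_div_iff hd]
      ring
  have hall : ∀ ρ, f ρ u - a * f ρ u₁ - b * f ρ u₂ = 0 := by
    -- invariance
    have hc : ∀ ρ (h : H ≃ₐ[K] H), f ρ u - a * f ρ u₁ - b * f ρ u₂ = 0 →
        f (ρ.comp (h : H →+* H)) u - a * f (ρ.comp (h : H →+* H)) u₁ -
          b * f (ρ.comp (h : H →+* H)) u₂ = 0 := by
      intro ρ h h0
      simp only [hf, f_comp] at h0 ⊢
      linear_combination (ε ((χ h : Eˣ) : E)) * h0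
    have hcj : ∀ ρ, f (ComplexEmbedding.conjugate ρ) u - a * f (ComplexEmbedding.conjugate ρ) u₁ -
          b * f (ComplexEmbedding.conjugate ρ) u₂ = f ρ u - a * f ρ u₁ - b * f ρ u₂ := by
      intro ρ
      simp only [hf, f_conj]
    -- one place
    have hpl : ∀ ρ' ρ : H →+* ℂ, f ρ' u - a * f ρ' u₁ - b * f ρ' u₂ = 0 →
        InfinitePlace.mk (ρ'.comp (algebraMap K H)) = InfinitePlace.mk (ρ.comp (algebraMap K H)) →
        f ρ u - a * f ρ u₁ - b * f ρ u₂ = 0 := by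
      intro ρ' ρ h0 hmk
      rcases InfinitePlace.mk_eq_iff.1 hmk with h | h
      · obtain ⟨σ, hσ⟩ := ComplexEmbedding.exists_comp_symm_eq_of_comp_eq ρ' ρ h
        have := hc ρ' σ.symm h0
        have e : ρ'.comp ((σ.symm : H ≃ₐ[K] H) : H →+* H) = ρ := hσ
        rwa [e] at this
      · have h' : (ComplexEmbedding.conjugate ρ').comp (algebraMap K H) =
            ρ.comp (algebraMap K H) := h
        obtain ⟨σ, hσ⟩ := ComplexEmbedding.exists_comp_symm_eq_of_comp_eq _ ρ h'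
        have := hc (ComplexEmbedding.conjugate ρ') σ.symm ((hcj ρ').trans h0)
        have e : (ComplexEmbedding.conjugate ρ').comp ((σ.symm : H ≃ₐ[K] H) : H →+* H) = ρ := hσ
        rwa [e] at this
    intro ρ
    rcases two_places K hK hne (InfinitePlace.mk (ρ.comp (algebraMap K H))) with h | h
    · exact hpl ρ₁ ρ (by rw [h1]; ring) h.symm
    · exact hpl ρ₂ ρ (by rw [h2]; ring) h.symm
  -- the relation in `ℂ ⊗ U`
  have hrel : TT ε _ (tchi χ u) - a • TT ε _ (tchi χ u₁) - b • TT ε _ (tchi χ u₂) = 0 := by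
    refine hGA3 H ℂ (RingHom.id ℂ) _ fun ρ ↦ ?_
    rw [map_sub, map_sub, Phi_smul, Phi_smul, Phi_TT, Phi_TT, Phi_TT]
    exact hall ρ
  -- linear form
  have hmem : tchi χ u ∈ Submodule.span E {tchi χ u₁, tchi χ u₂} := by
    by_contra hcon
    obtain ⟨F, hF1, hF2⟩ := Submodule.exists_le_ker_of_notMem hcon
    have hF3 : F (tchi χ u₁) = 0 :=
      hF2 (Submodule.subset_span (by simp))
    have hF4 : F (tchi χ u₂) = 0 :=
      hF2 (Submodule.subset_span (by simp))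
    have h5 := congrArg (Phi (RingHom.id ℂ) ((ε : E →+ ℂ).comp (F.toAddMonoidHom.comp
      (TensorProduct.mk ℤ E (Additive (𝓞 H)ˣ) 1).toAddMonoidHom))) hrel
    rw [map_sub, map_sub, Phi_smul, Phi_smul, Phi_TT, Phi_TT, Phi_TT, Phi_ext, Phi_ext, Phi_ext,
      hF3, hF4, map_zero, map_zero, smul_zero, smul_zero, sub_zero, sub_zero] at h5
    exact hF1 ((map_eq_zero ε).1 h5)
  obtain ⟨a', b', h6⟩ := Submodule.mem_span_pair.1 hmem
  exact ⟨a', b', h6.symm⟩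

end Pool.Agent.Helper17.SL.PkGA4
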