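import Pool.Agent.Helper42.SL.Phi

/-!
# Nonvanishing at the special point
-/

namespace Pool.Agent.Helper42.SL

open Polynomial Finset Filter Topology Asymptotics

/-- The series `∑ x^k / (2 k + 1)`. -/
noncomputable def Fser (x : ℂ) : ℂ := ∑' k : ℕ, (2 * (k : ℂ) + 1)⁻¹ * x ^ k

theorem norm_cinv (k : ℕ) : ‖(2 * (k : ℂ) + 1)⁻¹‖ = (2 * (k : ℝ) + 1)⁻¹ := by
  have : (2 * (k : ℂ) + 1) = ((2 * (k : ℝ) + 1 : ℝ) : ℂ) := by push_cast; ring
  rw [this, ← Complex.ofReal_inv, Complex.norm_real, Real.norm_eq_abs, abs_of_pos (by positivity)]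

theorem norm_cinv_le (k : ℕ) : ‖(2 * (k : ℂ) + 1)⁻¹‖ ≤ 1 := by
  rw [norm_cinv]
  apply inv_le_one_of_one_le₀
  have : (0 : ℝ) ≤ k := Nat.cast_nonneg k
  linarith

theorem hasFPower : HasFPowerSeriesOnBall Fser
    (FormalMultilinearSeries.ofScalars ℂ (fun k : ℕ ↦ (2 * (k : ℂ) + 1)⁻¹)) 0 1 := by
  set p := FormalMultilinearSeries.ofScalars ℂ (fun k : ℕ ↦ (2 * (k : ℂ) + 1)⁻¹) with hp
  have hrad : (1 : ENNReal) ≤ p.radius := by
    have := p.le_radius_of_bound (r := 1) 1 (fun n ↦ by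
      rw [hp, FormalMultilinearSeries.ofScalars_norm]
      simpa using norm_cinv_le n)
    simpa using this
  have h := p.hasFPowerSeriesOnBall (lt_of_lt_of_le one_pos hrad)
  have h2 := h.mono one_pos hrad
  have : Fser = p.sum := by
    have := FormalMultilinearSeries.ofScalarsSum_eq_tsum (𝕜 := ℂ) (E := ℂ)
      (fun k : ℕ ↦ (2 * (k : ℂ) + 1)⁻¹)
    show Fser = FormalMultilinearSeries.ofScalarsSum (fun k : ℕ ↦ (2 * (k : ℂ) + 1)⁻¹)
    rw [this]
    rfl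
  rw [this]
  exact h2

theorem analytic_Fser : AnalyticOnNhd ℂ Fser (Metric.ball 0 1) := by
  have := hasFPower.analyticOnNhd
  have e : Metric.eball (0 : ℂ) 1 = Metric.ball 0 1 := by
    have := Metric.eball_ofReal (x := (0 : ℂ)) (ε := 1)
    simpa using this
  rwa [e] at this

theorem isBigO_Fser (N : ℕ) : (fun x ↦ Fser x - (phi ℂ N).eval x) =O[𝓝 0] fun x ↦ x ^ (N + 1) := by
  have h := hasFPower.hasFPowerSeriesAt.isBigO_sub_partialSum_pow (N + 1)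
  have e : (fun y : ℂ ↦ Fser (0 + y) - (FormalMultilinearSeries.ofScalars ℂ
      (fun k : ℕ ↦ (2 * (k : ℂ) + 1)⁻¹)).partialSum (N + 1) y) =
      fun x ↦ Fser x - (phi ℂ N).eval x := by
    funext y
    rw [zero_add, phi_eval, FormalMultilinearSeries.partialSum]
    simp only [FormalMultilinearSeries.ofScalars_apply_eq, smul_eq_mul]
  rw [e] at h
  refine h.trans ?_
  apply IsBigO.of_bound 1
  filter_upwards with x
  rw [norm_pow, norm_norm, norm_pow, one_mul]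

theorem summable_Fser {x : ℂ} (hx : ‖x‖ < 1) :
    Summable fun k : ℕ ↦ (2 * (k : ℂ) + 1)⁻¹ * x ^ k := by
  refine Summable.of_norm_bounded (summable_geometric_of_lt_one (norm_nonneg x) hx) fun k ↦ ?_
  rw [norm_mul, norm_pow]
  exact mul_le_of_le_one_left (by positivity) (norm_cinv_le k)

/-- The real version. -/
noncomputable def Freal (t : ℝ) : ℝ := ∑' k : ℕ, (2 * (k : ℝ) + 1)⁻¹ * t ^ k

theorem Fser_ofReal (t : ℝ) : Fser (t : ℂ) = (Freal t : ℂ) := by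
  rw [Fser, Freal, Complex.ofReal_tsum]
  congr 1
  funext k
  push_cast
  rfl

theorem summable_Freal {t : ℝ} (h0 : 0 ≤ t) (h1 : t < 1) :
    Summable fun k : ℕ ↦ (2 * (k : ℝ) + 1)⁻¹ * t ^ k := by
  refine Summable.of_norm_bounded (summable_geometric_of_lt_one h0 h1) fun k ↦ ?_
  rw [Real.norm_eq_abs, abs_of_nonneg (by positivity)]
  refine mul_le_of_le_one_left (by positivity) (inv_le_one_of_one_le₀ ?_)
  have : (0 : ℝ) ≤ k := Nat.cast_nonneg k
  linarith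

theorem le_Freal {t : ℝ} (h0 : 0 ≤ t) (h1 : t < 1) : (1 / 2) * -Real.log (1 - t) ≤ Freal t := by
  have h := (Real.hasSum_pow_div_log_of_abs_lt_one (x := t) (by rw [abs_of_nonneg h0]; exact h1)
    ).mul_left (1 / 2)
  refine hasSum_le (fun k ↦ ?_) h (summable_Freal h0 h1).hasSum
  have hk : (0 : ℝ) ≤ k := Nat.cast_nonneg k
  have h2 : t ^ (k + 1) ≤ t ^ k := pow_le_pow_of_le_one h0 h1.le (Nat.le_succ k)
  have h3 : (0 : ℝ) ≤ t ^ k := by positivity
  rw [← div_eq_inv_mul, div_eq_mul_inv (t ^ (k + 1)), ← mul_assoc, mul_comm (1 / 2), mul_assoc,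
    div_eq_mul_inv]
  apply mul_le_mul h2 _ (by positivity) h3
  rw [one_mul, ← mul_inv]
  apply inv_anti₀ (by positivity)
  linarith

theorem tendsto_Freal : Tendsto Freal (𝓝[<] 1) atTop := by
  have h1 : Tendsto (fun t : ℝ ↦ 1 - t) (𝓝[<] 1) (𝓝[>] 0) := by
    rw [tendsto_nhdsWithin_iff]
    refine ⟨?_, ?_⟩
    · have : Tendsto (fun t : ℝ ↦ 1 - t) (𝓝 1) (𝓝 (1 - 1)) :=
        (continuous_const.sub continuous_id).tendsto 1
      rw [sub_self] at this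
      exact this.mono_left nhdsWithin_le_nhds
    · filter_upwards [self_mem_nhdsWithin] with t ht
      simpa using ht
  have h2 : Tendsto (fun t : ℝ ↦ (1 / 2) * -Real.log (1 - t)) (𝓝[<] 1) atTop := by
    apply Tendsto.const_mul_atTop (by norm_num)
    exact tendsto_neg_atBot_atTop.comp (Real.tendsto_log_nhdsGT_zero.comp h1)
  refine tendsto_atTop_mono' _ ?_ h2
  have h3 : Set.Ioo (0 : ℝ) 1 ∈ 𝓝[<] (1 : ℝ) := Ioo_mem_nhdsLT one_pos
  filter_upwards [h3] with t ht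
  exact le_Freal ht.1.le ht.2

theorem norm_Fser_le {ζ : ℂ} (hζ : ‖ζ‖ = 1) (hζ1 : ζ ≠ 1) {t : ℝ} (h0 : 0 ≤ t) (h1 : t < 1) :
    ‖Fser (ζ * t)‖ ≤ 2 / ‖1 - ζ‖ := by
  set a : ℕ → ℝ := fun k ↦ (2 * (k : ℝ) + 1)⁻¹ * t ^ k with ha
  have hx : ‖ζ * t‖ < 1 := by
    rw [norm_mul, hζ, one_mul, Complex.norm_real, Real.norm_eq_abs, abs_of_nonneg h0]
    exact h1
  have hS : HasSum (fun k : ℕ ↦ (a k : ℂ) * ζ ^ k) (Fser (ζ * t)) := by
    have := (summable_Fser hx).hasSum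
    have e : (fun k : ℕ ↦ (a k : ℂ) * ζ ^ k) =
        fun k : ℕ ↦ (2 * (k : ℂ) + 1)⁻¹ * (ζ * t) ^ k := by
      funext k
      rw [ha]
      push_cast
      rw [mul_pow]
      ring
    rw [e]
    exact this
  set S := Fser (ζ * t) with hSdef
  have hS1 := (hasSum_nat_add_iff' 1).mpr hS
  rw [sum_range_one] at hS1
  have ha0 : a 0 = 1 := by simp [ha]
  rw [ha0, pow_zero, mul_one, Complex.ofReal_one] at hS1
  have hS2 := hS.mul_left ζ
  have hS3 := hS1.sub hS2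
  have hA := (summable_Freal h0 h1).hasSum
  have hA1 := (hasSum_nat_add_iff' 1).mpr hA
  rw [sum_range_one] at hA1
  have hA2 := hA.sub hA1
  have hval : (∑' k : ℕ, (2 * (k : ℝ) + 1)⁻¹ * t ^ k) -
      ((∑' k : ℕ, (2 * (k : ℝ) + 1)⁻¹ * t ^ k) - (2 * ((0 : ℕ) : ℝ) + 1)⁻¹ * t ^ 0) = 1 := by
    simp
  rw [hval] at hA2
  have hmono : ∀ k, a (k + 1) ≤ a k := by
    intro k
    have hk : (0 : ℝ) ≤ k := Nat.cast_nonneg k
    simp only [ha]
    apply mul_le_mul _ (pow_le_pow_of_le_one h0 h1.le (Nat.le_succ k)) (by positivity)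
      (by positivity)
    apply inv_anti₀ (by positivity)
    push_cast
    linarith
  have hbd : ‖S - 1 - ζ * S‖ ≤ 1 := by
    rw [← hS3.tsum_eq]
    refine tsum_of_norm_bounded hA2 fun k ↦ ?_
    have e : (a (k + 1) : ℂ) * ζ ^ (k + 1) - ζ * ((a k : ℂ) * ζ ^ k) =
        ((a (k + 1) - a k : ℝ) : ℂ) * ζ ^ (k + 1) := by
      push_cast
      ring
    rw [e, norm_mul, norm_pow, hζ, one_pow, mul_one, Complex.norm_real, Real.norm_eq_abs,
      abs_sub_comm, abs_of_nonneg (sub_nonneg.mpr (hmono k))]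
  have h2 : ‖(1 - ζ) * S‖ ≤ 2 := by
    have e : (1 - ζ) * S = (S - 1 - ζ * S) + 1 := by ring
    rw [e]
    refine (norm_add_le _ _).trans ?_
    rw [norm_one]
    linarith
  have hpos : 0 < ‖1 - ζ‖ := norm_pos_iff.mpr (sub_ne_zero.mpr hζ1.symm)
  rw [le_div_iff₀ hpos, mul_comm, ← norm_mul]
  exact h2

/-- The signed permutation matrix that appears in the limit. -/
theorem det_limit_ne_zero {d : ℕ} (hd : 0 < d) {w : ℂ} (hw : IsPrimitiveRoot w d)
    (ε : Fin d → Fin d → ℤˣ) :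
    (Matrix.of fun j m : Fin d ↦
      if w ^ ((j : ℕ) + m) = 1 then (((ε j m : ℤˣ) : ℤ) : ℂ) else 0).det ≠ 0 := by
  set P : Matrix (Fin d) (Fin d) ℂ := Matrix.of fun j m : Fin d ↦
      if w ^ ((j : ℕ) + m) = 1 then (((ε j m : ℤˣ) : ℤ) : ℂ) else 0 with hP
  let m0 : Fin d → Fin d := fun j ↦ ⟨(d - j) % d, Nat.mod_lt _ hd⟩
  have hm0 : ∀ j m : Fin d, w ^ ((j : ℕ) + m) = 1 ↔ m = m0 j := by
    intro j m
    rw [hw.pow_eq_one_iff_dvd]
    constructor
    · rintro ⟨c, hc⟩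
      apply Fin.ext
      show (m : ℕ) = (d - j) % d
      have hj := j.2
      have hm := m.2
      have hc2 : c < 2 := by
        by_contra h
        push Not at h
        have : d * 2 ≤ d * c := Nat.mul_le_mul_left d h
        omega
      interval_cases c
      · have h1 : (j : ℕ) = 0 := by omega
        have h2 : (m : ℕ) = 0 := by omega
        rw [h1, h2, Nat.sub_zero, Nat.mod_self]
      · have h1 : (m : ℕ) = d - j := by omega
        rw [h1, Nat.mod_eq_of_lt (by omega)]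
    · rintro rfl
      show d ∣ (j : ℕ) + (d - j) % d
      have hj := j.2
      by_cases h : (j : ℕ) = 0
      · rw [h, Nat.sub_zero, Nat.mod_self]
        exact dvd_zero d
      · rw [Nat.mod_eq_of_lt (by omega)]
        exact ⟨1, by omega⟩
  have hinj : ∀ i j : Fin d, m0 i = m0 j → i = j := by
    intro i j hij
    have h1 := (hm0 i (m0 i)).mpr rfl
    have h2 := (hm0 j (m0 j)).mpr rfl
    rw [← hij] at h2
    rw [pow_add] at h1 h2
    have h3 : w ^ (m0 i : ℕ) ≠ 0 := pow_ne_zero _ (hw.ne_zero hd.ne')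
    have h4 : w ^ (i : ℕ) = w ^ (j : ℕ) := mul_right_cancel₀ h3 (h1.trans h2.symm)
    exact Fin.ext (hw.pow_inj i.2 j.2 h4)
  have hPP : P * P.transpose = 1 := by
    ext i j
    rw [Matrix.mul_apply]
    simp only [Matrix.transpose_apply, hP, Matrix.of_apply, hm0]
    rw [sum_eq_single (m0 i)]
    · rw [if_pos rfl]
      by_cases hij : i = j
      · subst hij
        rw [if_pos rfl, Matrix.one_apply_eq]
        rcases Int.units_eq_one_or (ε i (m0 i)) with h | h <;> simp [h]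
      · rw [if_neg (fun h ↦ hij (hinj i j h)), mul_zero, Matrix.one_apply_ne hij]
    · intro m _ hm
      rw [if_neg hm, zero_mul]
    · intro h
      exact absurd (mem_univ _) h
  intro h0
  have h1 := congrArg Matrix.det hPP
  rw [Matrix.det_mul, h0, zero_mul, Matrix.det_one] at h1
  exact zero_ne_one h1

theorem exists_det_ne_zero {d : ℕ} (hd : 0 < d) {w : ℂ} (hw : IsPrimitiveRoot w d)
    (ε : Fin d → Fin d → ℤˣ) : ∃ t : ℝ, 0 < t ∧ t < 1 ∧
    (Matrix.of fun j m : Fin d ↦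
      (((ε j m : ℤˣ) : ℤ) : ℂ) * Fser (w ^ ((j : ℕ) + m) * t)).det ≠ 0 := by
  set P : Matrix (Fin d) (Fin d) ℂ := Matrix.of fun j m : Fin d ↦
      if w ^ ((j : ℕ) + m) = 1 then (((ε j m : ℤˣ) : ℤ) : ℂ) else 0 with hP
  have hIoo : Set.Ioo (0 : ℝ) 1 ∈ 𝓝[<] (1 : ℝ) := Ioo_mem_nhdsLT one_pos
  have hpos : ∀ᶠ t in 𝓝[<] (1 : ℝ), 0 < Freal t := tendsto_Freal.eventually_gt_atTop 0
  have hent : ∀ j m : Fin d, Tendsto (fun t : ℝ ↦
      (Freal t : ℂ)⁻¹ * ((((ε j m : ℤˣ) : ℤ) : ℂ) * Fser (w ^ ((j : ℕ) + m) * t)))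
      (𝓝[<] (1 : ℝ)) (𝓝 (P j m)) := by
    intro j m
    by_cases h : w ^ ((j : ℕ) + m) = 1
    · have e : P j m = (((ε j m : ℤˣ) : ℤ) : ℂ) := by rw [hP, Matrix.of_apply, if_pos h]
      rw [e]
      refine tendsto_const_nhds.congr' ?_
      filter_upwards [hpos] with t ht
      rw [h, one_mul, Fser_ofReal]
      have : (Freal t : ℂ) ≠ 0 := by exact_mod_cast ht.ne'
      field_simp
    · have e : P j m = 0 := by rw [hP, Matrix.of_apply, if_neg h]
      rw [e, tendsto_zero_iff_norm_tendsto_zero]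
      have hn1 : ‖w ^ ((j : ℕ) + m)‖ = 1 := by
        rw [norm_pow, hw.norm'_eq_one hd.ne', one_pow]
      have hlim : Tendsto (fun t ↦ (2 / ‖1 - w ^ ((j : ℕ) + m)‖) / Freal t) (𝓝[<] (1 : ℝ))
          (𝓝 0) := tendsto_const_nhds.div_atTop tendsto_Freal
      refine squeeze_zero' (Eventually.of_forall fun _ ↦ norm_nonneg _) ?_ hlim
      filter_upwards [hpos, hIoo] with t ht ht2
      rw [norm_mul, norm_mul, norm_inv, Complex.norm_real, Real.norm_eq_abs, abs_of_pos ht,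
        div_eq_inv_mul]
      have h5 : ‖(((ε j m : ℤˣ) : ℤ) : ℂ)‖ = 1 := by
        rcases Int.units_eq_one_or (ε j m) with h | h <;> simp [h]
      rw [h5, one_mul]
      exact mul_le_mul_of_nonneg_left (norm_Fser_le hn1 h ht2.1.le ht2.2) (by positivity)
  have hmat : Tendsto (fun t : ℝ ↦ (Matrix.of fun j m : Fin d ↦
      (Freal t : ℂ)⁻¹ * ((((ε j m : ℤˣ) : ℤ) : ℂ) * Fser (w ^ ((j : ℕ) + m) * t))))
      (𝓝[<] (1 : ℝ)) (𝓝 P) :=
    tendsto_pi_nhds.mpr fun j ↦ tendsto_pi_nhds.mpr fun m ↦ hent j m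
  have hdet : Tendsto (fun t : ℝ ↦ (Matrix.of fun j m : Fin d ↦
      (Freal t : ℂ)⁻¹ * ((((ε j m : ℤˣ) : ℤ) : ℂ) * Fser (w ^ ((j : ℕ) + m) * t))).det)
      (𝓝[<] (1 : ℝ)) (𝓝 P.det) :=
    ((Continuous.matrix_det continuous_id).tendsto P).comp hmat
  have hne := hdet.eventually_ne (det_limit_ne_zero hd hw ε)
  obtain ⟨t, ht1, ht2⟩ := (hne.and hIoo).exists
  refine ⟨t, ht2.1, ht2.2, fun h0 ↦ ht1 ?_⟩
  have e : (Matrix.of fun j m : Fin d ↦
      (Freal t : ℂ)⁻¹ * ((((ε j m : ℤˣ) : ℤ) : ℂ) * Fser (w ^ ((j : ℕ) + m) * t))) =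
      (Freal t : ℂ)⁻¹ • (Matrix.of fun j m : Fin d ↦
        (((ε j m : ℤˣ) : ℤ) : ℂ) * Fser (w ^ ((j : ℕ) + m) * t)) := by
    ext j m
    simp
  rw [e, Matrix.det_smul, h0, mul_zero]

/-- The signed determinant as an analytic function. -/
noncomputable def Efun {d : ℕ} (w : ℂ) (ε : Fin d → Fin d → ℤˣ) (x : ℂ) : ℂ :=
  (Matrix.of fun j m : Fin d ↦
    (((ε j m : ℤˣ) : ℤ) : ℂ) * Fser (w ^ ((j : ℕ) + m) * x)).det

theorem analyticAt_entry {ζ : ℂ} (hζ : ‖ζ‖ = 1) {x : ℂ} (hx : x ∈ Metric.ball (0 : ℂ) 1) :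
    AnalyticAt ℂ (fun x ↦ Fser (ζ * x)) x := by
  have h1 : AnalyticAt ℂ (fun x ↦ ζ * x) x := analyticAt_const.mul analyticAt_id
  have h2 : AnalyticAt ℂ Fser (ζ * x) := by
    apply analytic_Fser
    rw [mem_ball_zero_iff] at hx ⊢
    rwa [norm_mul, hζ, one_mul]
  exact h2.comp h1

theorem analytic_Efun {d : ℕ} {w : ℂ} (hw : ‖w‖ = 1) (ε : Fin d → Fin d → ℤˣ) :
    AnalyticOnNhd ℂ (Efun w ε) (Metric.ball 0 1) := by
  intro x hx
  have e : Efun w ε = fun x ↦ ∑ σ : Equiv.Perm (Fin d), ((Equiv.Perm.sign σ : ℤ) : ℂ) *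
      ∏ i, ((((ε (σ i) i : ℤˣ) : ℤ) : ℂ) * Fser (w ^ (((σ i : Fin d) : ℕ) + i) * x)) := by
    funext x
    rw [Efun, Matrix.det_apply']
    rfl
  rw [e]
  refine Finset.analyticAt_fun_sum _ fun σ _ ↦ analyticAt_const.mul ?_
  refine Finset.analyticAt_fun_prod _ fun i _ ↦ analyticAt_const.mul ?_
  exact analyticAt_entry (by rw [norm_pow, hw, one_pow]) hx

theorem isBigO_prod_sub_prod {ι : Type*} (s : Finset ι) (a b : ι → ℂ → ℂ) (g : ℂ → ℂ)
    (l : Filter ℂ) (ha : ∀ i ∈ s, a i =O[l] fun _ ↦ (1 : ℂ))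
    (hb : ∀ i ∈ s, b i =O[l] fun _ ↦ (1 : ℂ))
    (h : ∀ i ∈ s, (fun x ↦ a i x - b i x) =O[l] g) :
    ((fun x ↦ ∏ i ∈ s, b i x) =O[l] fun _ ↦ (1 : ℂ)) ∧
    (fun x ↦ ∏ i ∈ s, a i x - ∏ i ∈ s, b i x) =O[l] g := by
  classical
  induction s using Finset.induction_on with
  | empty =>
    simp only [prod_empty, sub_self]
    exact ⟨isBigO_refl _ _, isBigO_zero _ _⟩
  | insert i s hi ih =>
    obtain ⟨ih1, ih2⟩ := ih (fun j hj ↦ ha j (mem_insert_of_mem hj))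
      (fun j hj ↦ hb j (mem_insert_of_mem hj)) (fun j hj ↦ h j (mem_insert_of_mem hj))
    simp only [prod_insert hi]
    constructor
    · have := (hb i (mem_insert_self _ _)).mul ih1
      simpa using this
    · have e : (fun x ↦ a i x * ∏ j ∈ s, a j x - b i x * ∏ j ∈ s, b j x) =
        fun x ↦ a i x * (∏ j ∈ s, a j x - ∏ j ∈ s, b j x) + (a i x - b i x) * ∏ j ∈ s, b j x := by
        funext x; ring
      rw [e]
      have h1 := (ha i (mem_insert_self _ _)).mul ih2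
      have h2 := (h i (mem_insert_self _ _)).mul ih1
      simp only [one_mul] at h1
      simp only [mul_one] at h2
      exact h1.add h2

theorem isBigO_Efun {d : ℕ} {w : ℂ} (hw : ‖w‖ = 1) (ε : Fin d → Fin d → ℤˣ) (N : ℕ) :
    (fun x ↦ Efun w ε x - (Epoly w ε N).eval x) =O[𝓝 0] fun x ↦ x ^ (N + 1) := by
  have e : (fun x ↦ Efun w ε x - (Epoly w ε N).eval x) = fun x ↦
      ∑ σ : Equiv.Perm (Fin d), ((Equiv.Perm.sign σ : ℤ) : ℂ) *
      (∏ i, ((((ε (σ i) i : ℤˣ) : ℤ) : ℂ) * Fser (w ^ (((σ i : Fin d) : ℕ) + i) * x)) -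
      ∏ i, ((((ε (σ i) i : ℤˣ) : ℤ) : ℂ) *
        (phi ℂ N).eval (w ^ (((σ i : Fin d) : ℕ) + i) * x))) := by
    funext x
    rw [Efun, Epoly_eval, Matrix.det_apply', Matrix.det_apply', ← sum_sub_distrib]
    refine sum_congr rfl fun σ _ ↦ ?_
    rw [mul_sub]
    rfl
  rw [e]
  apply IsBigO.fun_sum
  intro σ _
  refine IsBigO.const_mul_left ?_ _
  have hn : ∀ n : ℕ, ‖w ^ n‖ = 1 := fun n ↦ by rw [norm_pow, hw, one_pow]
  have ht : ∀ n : ℕ, Tendsto (fun x : ℂ ↦ w ^ n * x) (𝓝 0) (𝓝 0) := fun n ↦ by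
    have : Tendsto (fun x : ℂ ↦ w ^ n * x) (𝓝 0) (𝓝 (w ^ n * 0)) :=
      (continuous_const.mul continuous_id).tendsto 0
    rwa [mul_zero] at this
  refine (isBigO_prod_sub_prod univ _ _ _ _ (fun i _ ↦ ?_) (fun i _ ↦ ?_) (fun i _ ↦ ?_)).2
  · have := (analyticAt_const (v := ((((ε (σ i) i : ℤˣ) : ℤ) : ℂ)))).mul
      (analyticAt_entry (hn (((σ i : Fin d) : ℕ) + i)) (x := 0) (by simp))
    exact this.continuousAt.tendsto.isBigO_one ℂ
  · have : Continuous (fun x : ℂ ↦ (((ε (σ i) i : ℤˣ) : ℤ) : ℂ) *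
        (phi ℂ N).eval (w ^ (((σ i : Fin d) : ℕ) + i) * x)) :=
      continuous_const.mul ((Polynomial.continuous _).comp (continuous_const.mul continuous_id))
    exact this.continuousAt.tendsto.isBigO_one ℂ
  · have h1 := (isBigO_Fser N).comp_tendsto (ht (((σ i : Fin d) : ℕ) + i))
    have e2 : (fun x ↦ (((ε (σ i) i : ℤˣ) : ℤ) : ℂ) * Fser (w ^ (((σ i : Fin d) : ℕ) + i) * x) -
        (((ε (σ i) i : ℤˣ) : ℤ) : ℂ) * (phi ℂ N).eval (w ^ (((σ i : Fin d) : ℕ) + i) * x)) =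
        fun x ↦ (((ε (σ i) i : ℤˣ) : ℤ) : ℂ) * (Fser (w ^ (((σ i : Fin d) : ℕ) + i) * x) -
          (phi ℂ N).eval (w ^ (((σ i : Fin d) : ℕ) + i) * x)) := by
      funext x; ring
    rw [e2]
    refine IsBigO.const_mul_left ?_ _
    refine h1.trans (IsBigO.of_bound 1 (Eventually.of_forall fun x ↦ ?_))
    simp only [Function.comp_apply]
    rw [norm_pow, norm_mul, hn, one_mul, norm_pow, one_mul]

/-- **Nonvanishing at the special point**: the truncated determinants do not all vanish to the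
maximal order. -/
theorem exists_not_dvd_Epoly_complex {d : ℕ} (hd : 0 < d) {w : ℂ} (hw : IsPrimitiveRoot w d)
    (ε : Fin d → Fin d → ℤˣ) : ∃ N, ¬ X ^ (N + 1) ∣ Epoly w ε N := by
  have hw1 : ‖w‖ = 1 := hw.norm'_eq_one hd.ne'
  by_contra hcon
  push Not at hcon
  have han := analytic_Efun hw1 ε
  have hne : ¬ ∀ᶠ z in 𝓝 (0 : ℂ), Efun w ε z = 0 := by
    intro h
    have h2 := han.eqOn_zero_of_preconnected_of_eventuallyEq_zero
      (convex_ball (0 : ℂ) 1).isPreconnected (by simp) h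
    obtain ⟨t, ht0, ht1, ht⟩ := exists_det_ne_zero hd hw ε
    apply ht
    apply h2
    rw [mem_ball_zero_iff, Complex.norm_real, Real.norm_eq_abs, abs_of_pos ht0]
    exact ht1
  obtain ⟨n, g, hg, hg0, hev⟩ :=
    (han 0 (by simp)).exists_eventuallyEq_pow_smul_nonzero_iff.mpr hne
  obtain ⟨Q, hQ⟩ := hcon n
  have h1 : (fun x ↦ (Epoly w ε n).eval x) =O[𝓝 0] fun x ↦ x ^ (n + 1) := by
    have e : (fun x ↦ (Epoly w ε n).eval x) = fun x ↦ x ^ (n + 1) * Q.eval x := by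
      funext x
      rw [hQ, eval_mul, eval_pow, eval_X]
    rw [e]
    have h2 : (fun x ↦ Q.eval x) =O[𝓝 0] fun _ ↦ (1 : ℂ) :=
      (Polynomial.continuous Q).continuousAt.tendsto.isBigO_one ℂ
    have := (isBigO_refl (fun x : ℂ ↦ x ^ (n + 1)) (𝓝 0)).mul h2
    simpa using this
  have h2 := (isBigO_Efun hw1 ε n).add h1
  simp only [sub_add_cancel] at h2
  obtain ⟨C, hC⟩ := h2.bound
  have hlim : Tendsto g (𝓝[≠] 0) (𝓝 0) := by
    rw [tendsto_zero_iff_norm_tendsto_zero]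
    have hlim0 : Tendsto (fun x : ℂ ↦ C * ‖x‖) (𝓝[≠] 0) (𝓝 0) := by
      have : Tendsto (fun x : ℂ ↦ C * ‖x‖) (𝓝 0) (𝓝 (C * ‖(0 : ℂ)‖)) :=
        (continuous_const.mul continuous_norm).tendsto 0
      rw [norm_zero, mul_zero] at this
      exact this.mono_left nhdsWithin_le_nhds
    refine squeeze_zero' (Eventually.of_forall fun _ ↦ norm_nonneg _) ?_ hlim0
    have h3 := nhdsWithin_le_nhds (s := {(0 : ℂ)}ᶜ) hev
    have h4 := nhdsWithin_le_nhds (s := {(0 : ℂ)}ᶜ) hC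
    filter_upwards [h3, h4, self_mem_nhdsWithin] with x hx1 hx2 hx3
    have hxpos : 0 < ‖x‖ := norm_pos_iff.mpr hx3
    change Efun w ε x = _ at hx1
    rw [hx1, sub_zero, norm_smul, norm_pow, norm_pow, pow_succ, mul_comm (‖x‖ ^ n) ‖x‖,
      ← mul_assoc, mul_comm (‖x‖ ^ n)] at hx2
    exact le_of_mul_le_mul_right hx2 (by positivity)
  have hlim2 : Tendsto g (𝓝[≠] 0) (𝓝 (g 0)) :=
    hg.continuousAt.tendsto.mono_left nhdsWithin_le_nhds
  exact hg0 (tendsto_nhds_unique hlim2 hlim)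

/-- The same statement over any field that embeds in `ℂ`. -/
theorem exists_not_dvd_Epoly {Q : Type*} [Field Q] (ι : Q →+* ℂ) {d : ℕ} (hd : 0 < d) {w : Q}
    (hw : IsPrimitiveRoot w d) (ε : Fin d → Fin d → ℤˣ) : ∃ N, ¬ X ^ (N + 1) ∣ Epoly w ε N := by
  obtain ⟨N, hN⟩ := exists_not_dvd_Epoly_complex hd (hw.map_of_injective ι.injective) ε
  refine ⟨N, fun h ↦ hN ?_⟩
  have := Polynomial.map_dvd ι h
  rwa [Polynomial.map_pow, map_X, Epoly_map] at this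

end Pool.Agent.Helper42.SL
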