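import Pool.Agent.Helper51.SigLeo.Bridge

/-!
# The determinant criterion in general degree
-/

namespace Pool.Agent.Helper42.SL

open NumberField Module TensorProduct Pool.Agent.Helper51.SigLeo

section linear

theorem linear_core_gen {k V : Type*} [Field k] [AddCommGroup V] [Module k V]
    [FiniteDimensional k V] {d : ℕ} (hV : finrank k V ≤ d) (w : Fin d → V)
    (l : Fin d → V →ₗ[k] k) (hdet : (Matrix.of fun i j ↦ l i (w j)).det ≠ 0) (x : V)
    (hx : ∀ i, l i x = 0) : x = 0 := by
  have key : ∀ g : Fin d → k, (∀ i, l i (∑ j, g j • w j) = 0) → g = 0 := by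
    intro g hg
    apply Matrix.eq_zero_of_mulVec_eq_zero hdet
    funext i
    have := hg i
    rw [map_sum] at this
    simp only [map_smul, smul_eq_mul] at this
    simp only [Matrix.mulVec, dotProduct, Matrix.of_apply, Pi.zero_apply]
    rw [← this]
    exact Finset.sum_congr rfl fun j _ ↦ mul_comm _ _
  have hli : LinearIndependent k w := by
    rw [Fintype.linearIndependent_iff]
    intro g hg
    have := key g (fun i ↦ by rw [hg, map_zero])
    intro j
    rw [this]
    rfl
  have hcard : Fintype.card (Fin d) = finrank k V :=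
    le_antisymm hli.fintype_card_le_finrank (by rw [Fintype.card_fin]; exact hV)
  have hspan := hli.span_eq_top_of_card_eq_finrank' hcard
  have hxs : x ∈ Submodule.span k (Set.range w) := by rw [hspan]; trivial
  obtain ⟨g, hg⟩ := (Submodule.mem_span_range_iff_exists_fun k).mp hxs
  have hg0 := key g (fun i ↦ by rw [hg]; exact hx i)
  rw [← hg, hg0]
  simp

end linear

section rank

/-- The number of independent units is at most the dimension of `k ⊗ (𝓞_K)ˣ`. -/
theorem rank_le_finrank_tensor (K : Type*) [Field K] [NumberField K] (k : Type*) [Field k]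
    [CharZero k] : Units.rank K ≤ finrank k (k ⊗[ℤ] Additive (𝓞 K)ˣ) := by
  obtain ⟨s, hs, hli⟩ := exists_finset_linearIndependent_of_le_finrank
    (R := ℤ) (M := Additive (𝓞 K)ˣ) (Units.finrank_eq K).ge
  have hinj : Function.Injective (Finsupp.linearCombination ℤ (fun x : s ↦ (x : Additive (𝓞 K)ˣ))) :=
    hli
  have hinj2 : Function.Injective
      ((Finsupp.linearCombination ℤ (fun x : s ↦ (x : Additive (𝓞 K)ˣ))).baseChange k) := by
    rw [LinearMap.baseChange_eq_ltensor]
    exact Module.Flat.lTensor_preserves_injective_linearMap _ hinj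
  have := finite_tensor K k
  have h1 := LinearMap.finrank_le_finrank_of_injective hinj2
  rw [Module.finrank_baseChange, Module.finrank_finsupp_self, Fintype.card_coe, hs] at h1
  exact h1

variable {K H : Type*} [Field K] [Field H] [Algebra K H]

/-- The inclusion of the units of `K` in the units of `H`. -/
noncomputable def inclUnits (K H : Type*) [Field K] [Field H] [Algebra K H] :
    Additive (𝓞 K)ˣ →ₗ[ℤ] Additive (𝓞 H)ˣ :=
  (MonoidHom.toAdditive (Units.map
    ((RingOfIntegers.mapRingHom (algebraMap K H) : 𝓞 K →+* 𝓞 H) : 𝓞 K →* 𝓞 H))).toIntLinearMap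

theorem inclUnits_coe (u : Additive (𝓞 K)ˣ) :
    (((inclUnits K H u).toMul : (𝓞 H)ˣ) : H) = algebraMap K H ((u.toMul : (𝓞 K)ˣ) : K) := rfl

theorem inclUnits_injective : Function.Injective (inclUnits K H) := by
  intro u v h
  apply Additive.toMul.injective
  apply Units.coe_injective
  apply (algebraMap K H).injective
  rw [← inclUnits_coe, ← inclUnits_coe, h]

/-- The dimension of the minus part. -/
theorem finrank_minusPart_add_le [NumberField K] [NumberField H] {k : Type*} [Field k]
    [CharZero k] (τ : H ≃ₐ[K] H) :
    finrank k (minusPart k τ : Submodule k _) + Units.rank K ≤ Units.rank H := by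
  have := finite_tensor H k
  have hflat : Function.Injective ((inclUnits K H).baseChange k) := by
    rw [LinearMap.baseChange_eq_ltensor]
    exact Module.Flat.lTensor_preserves_injective_linearMap _ inclUnits_injective
  have hfix : ∀ y : k ⊗[ℤ] Additive (𝓞 K)ˣ, extEnd (unitsHom τ) ((inclUnits K H).baseChange k y) =
      (inclUnits K H).baseChange k y := by
    intro y
    induction y using TensorProduct.induction_on with
    | zero => simp
    | add x y hx hy => rw [map_add, map_add, hx, hy]
    | tmul c m =>
      rw [LinearMap.baseChange_tmul, extEnd_tmul]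
      congr 1
      apply Additive.toMul.injective
      apply Units.coe_injective
      exact τ.commutes _
  have hdisj : Disjoint (minusPart k τ : Submodule k _)
      (LinearMap.range ((inclUnits K H).baseChange k)) := by
    rw [Submodule.disjoint_def]
    rintro x hx ⟨y, rfl⟩
    rw [mem_minusPart, hfix] at hx
    have h2 : (2 : k) • ((inclUnits K H).baseChange k y) = 0 := by
      rw [two_smul]
      exact eq_neg_iff_add_eq_zero.mp hx
    exact (smul_eq_zero.mp h2).resolve_left two_ne_zero
  have h1 := Submodule.finrank_add_finrank_le_of_disjoint hdisj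
  rw [LinearMap.finrank_range_of_inj hflat] at h1
  have h2 := rank_le_finrank_tensor K k
  have h3 := finrank_tensor_le H k
  omega

/-- The unit rank of a totally complex field of degree `2 n` is `n - 1`. -/
theorem rank_add_one (H : Type*) [Field H] [NumberField H] [IsTotallyComplex H] {n : ℕ}
    (hn : finrank ℚ H = 2 * n) : Units.rank H + 1 = n := by
  have h1 := IsTotallyComplex.finrank (K := H)
  have h2 : Fintype.card (InfinitePlace H) =
      InfinitePlace.nrRealPlaces H + InfinitePlace.nrComplexPlaces H := by
    classical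
    exact InfinitePlace.card_eq_nrRealPlaces_add_nrComplexPlaces H
  rw [IsTotallyComplex.nrRealPlaces_eq_zero] at h2
  have h3 : 0 < finrank ℚ H := finrank_pos
  unfold Units.rank
  omega

end rank

/-- **Criterion in general degree**: `F` totally real of degree `d`, `K/F` totally imaginary
quadratic, `H/K` quadratic; if `u_1, …, u_d` are units of `H` of relative norm `1` over `K` such
that all the relevant `d × d` determinants are nonzero, then the `Σ`-Leopoldt conjecture holds. -/
theorem sigmaLeopoldt_of_det_gen {F K H Ω : Type*} [Field F] [NumberField F] [Field K]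
    [NumberField K] [Algebra F K] [IsTotallyReal F] {d : ℕ} (hd : finrank ℚ F = d)
    [IsTotallyComplex K] (hKF : finrank F K = 2) [Field H] [Algebra K H] [Field Ω] [CharZero Ω]
    [IsAlgClosed Ω] (p : ℕ) (k : Type*) [NormedField k] [CharZero k]
    (hH : finrank K H = 2) (u : Fin d → (𝓞 H)ˣ)
    (hu : ∀ m, ∀ τ : H ≃ₐ[K] H, τ ≠ 1 → (u m : H) * τ (u m : H) = 1)
    (hdet : ∀ (L : IwasawaLog p k) (ψ : Fin d → (H →+* k)),
      Function.Injective (fun i ↦ ((ψ i).comp (algebraMap K H)).comp (algebraMap F K)) →
      (Matrix.of fun i m ↦ logUnits L (ψ i) (Additive.ofMul (u m))).det ≠ 0) :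
    SigmaLeopoldt K H Ω p k := by
  have hfin : FiniteDimensional K H := FiniteDimensional.of_finrank_pos (by omega)
  have hNF : NumberField H := NumberField.of_module_finite K H
  have hTC : IsTotallyComplex H := isTotallyComplex_of_algebra K H
  have hKF' : FiniteDimensional F K := FiniteDimensional.of_finrank_pos (by omega)
  have hdK : finrank ℚ K = 2 * d := by
    rw [← finrank_mul_finrank ℚ F K, hd, hKF]; ring
  have hdH : finrank ℚ H = 2 * (2 * d) := by
    rw [← finrank_mul_finrank ℚ K H, hdK, hH]; ring
  obtain ⟨τ, hτ⟩ := exists_gal hH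
  intro ιinf ιp S χ L hS hχ
  -- the embeddings
  have hcard : Fintype.card (F →+* ℂ) = d := by rw [NumberField.Embeddings.card, hd]
  let e : Fin d ≃ (F →+* ℂ) := (Fintype.equivFinOfCardEq hcard).symm
  choose φ hφS hφ using fun i ↦ hS.exists_mem (e i)
  choose κ hκ using fun i ↦ exists_lift_embedding ιinf (φ i)
  choose σ hσ using fun i ↦ exists_extend_embedding (H := H) (κ i)
  have hinj : Function.Injective
      (fun i ↦ ((ιp.comp (σ i)).comp (algebraMap K H)).comp (algebraMap F K)) := by
    intro i j h
    apply e.injective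
    rw [← hφ, ← hφ, ← hκ, ← hκ, ← hσ, ← hσ]
    ext y
    have := RingHom.congr_fun h y
    simp only [RingHom.comp_apply] at this ⊢
    rw [ιp.injective this]
  have hdet' := hdet L (fun i ↦ ιp.comp (σ i)) hinj
  intro x hx
  have := finite_tensor H k
  have hrank := finrank_minusPart_add_le (k := k) τ
  have hrK := rank_add_one K hdK
  have hrH := rank_add_one H hdH
  have hWd : finrank k (minusPart k τ : Submodule k _) ≤ d := by omega
  have hmem : eChi (finrank K H) χ unitsHom x ∈ (minusPart k τ : Submodule k _) := by
    rw [mem_minusPart]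
    exact extEnd_eChi hH τ hτ χ hχ x
  have hres := linear_core_gen (k := k) (V := (minusPart k τ : Submodule k _)) hWd
    (fun m ↦ ⟨1 ⊗ₜ Additive.ofMul (u m), tmul_mem_minusPart τ (u m) (hu m τ hτ)⟩)
    (fun i ↦ (extHom (logUnits L (ιp.comp (σ i)))).domRestrict (minusPart k τ))
    (by
      convert hdet' using 3
      funext i m
      simp only [LinearMap.domRestrict_apply, extHom_tmul, one_mul])
    ⟨_, hmem⟩ (fun i ↦ by
      rw [LinearMap.domRestrict_apply]
      exact hx _ ⟨σ i, by rw [hσ, hκ]; exact hφS i, rfl⟩)
  exact congrArg Subtype.val hres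

end Pool.Agent.Helper42.SL
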