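import Mathlib

/-!
# The fields generated by a root of `∏ (X - A_m) - 1`
-/

namespace Pool.Agent.Helper42.SL

open Polynomial Finset NumberField Module IntermediateField

/-- The polynomial `∏ (X - A_m) - 1`. -/
noncomputable def gpoly {d : ℕ} (A : Fin d → ℤ) : ℤ[X] := ∏ m, (X - C (A m)) - 1

variable {d : ℕ} {A : Fin d → ℤ}

theorem aeval_gpoly {R : Type*} [CommRing R] (x : R) :
    aeval x (gpoly A) = ∏ m, (x - (A m : R)) - 1 := by
  simp [gpoly, map_prod]

theorem prod_monic (A : Fin d → ℤ) : (∏ m, (X - C (A m)) : ℤ[X]).Monic :=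
  monic_prod_of_monic _ _ fun _ _ ↦ monic_X_sub_C _

theorem prod_natDegree (A : Fin d → ℤ) : (∏ m, (X - C (A m)) : ℤ[X]).natDegree = d := by
  rw [natDegree_prod_of_monic _ _ fun _ _ ↦ monic_X_sub_C _]
  simp only [natDegree_X_sub_C, sum_const, card_univ, Fintype.card_fin, smul_eq_mul, mul_one]

theorem gpoly_monic (hd : 0 < d) : (gpoly A).Monic := by
  refine (prod_monic A).sub_of_left ?_
  rw [degree_eq_natDegree (prod_monic A).ne_zero, prod_natDegree, degree_one]
  exact_mod_cast hd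

theorem gpoly_natDegree (hd : 0 < d) : (gpoly A).natDegree = d := by
  rw [gpoly, natDegree_sub_eq_left_of_natDegree_lt, prod_natDegree]
  rw [natDegree_one, prod_natDegree]
  exact hd

theorem gpoly_irreducible (hd : 0 < d) (hA : Function.Injective A) : Irreducible (gpoly A) := by
  rw [(gpoly_monic hd).irreducible_iff_natDegree]
  refine ⟨fun h ↦ ?_, fun f g hf hg hfg ↦ ?_⟩
  · have := gpoly_natDegree (A := A) hd
    rw [h, natDegree_one] at this
    omega
  · by_contra hcon
    push Not at hcon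
    have hdeg : f.natDegree + g.natDegree = d := by
      rw [← gpoly_natDegree (A := A) hd, ← hfg, hf.natDegree_mul hg]
    have hroot : ∀ m, (f + g).eval (A m) = 0 := by
      intro m
      have h1 : f.eval (A m) * g.eval (A m) = -1 := by
        rw [← eval_mul, hfg]
        have := aeval_gpoly (A := A) (A m)
        rw [prod_eq_zero (mem_univ m) (by simp), zero_sub] at this
        rwa [coe_aeval_eq_eval] at this
      rw [eval_add]
      have h2 : f.eval (A m) * (-g.eval (A m)) = 1 := by linarith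
      rcases Int.eq_one_or_neg_one_of_mul_eq_one h2 with h | h
      · rw [h] at h1 ⊢; linarith
      · rw [h] at h1 ⊢; linarith
    have hzero : f + g = 0 := by
      refine eq_zero_of_natDegree_lt_card_of_eval_eq_zero _ hA hroot ?_
      rw [Fintype.card_fin]
      refine lt_of_le_of_lt (natDegree_add_le _ _) (max_lt ?_ ?_) <;> omega
    have h3 : f = -g := eq_neg_of_add_eq_zero_left hzero
    have h4 := congrArg leadingCoeff h3
    rw [leadingCoeff_neg, hf.leadingCoeff, hg.leadingCoeff] at h4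
    norm_num at h4

theorem gpoly_irreducible_rat (hd : 0 < d) (hA : Function.Injective A) :
    Irreducible ((gpoly A).map (algebraMap ℤ ℚ)) :=
  ((gpoly_monic hd).irreducible_iff_irreducible_map_fraction_map (K := ℚ)).mp
    (gpoly_irreducible hd hA)

section element

variable {Ω : Type*} [Field Ω] [CharZero Ω] {y : Ω}

theorem minpoly_eq (hd : 0 < d) (hA : Function.Injective A) (hy : aeval y (gpoly A) = 0) :
    minpoly ℚ y = (gpoly A).map (algebraMap ℤ ℚ) := by
  symm
  apply minpoly.eq_of_irreducible_of_monic (gpoly_irreducible_rat hd hA)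
  · rw [aeval_map_algebraMap]
    exact hy
  · exact (gpoly_monic hd).map _

omit [CharZero Ω] in
theorem y_integral_int (hd : 0 < d) (hy : aeval y (gpoly A) = 0) : IsIntegral ℤ y :=
  ⟨gpoly A, gpoly_monic hd, by rwa [← aeval_def]⟩

theorem y_integral (hd : 0 < d) (hy : aeval y (gpoly A) = 0) : IsIntegral ℚ y :=
  (y_integral_int hd hy).tower_top

theorem finrank_F (hd : 0 < d) (hA : Function.Injective A) (hy : aeval y (gpoly A) = 0) :
    finrank ℚ ℚ⟮y⟯ = d := by
  rw [adjoin.finrank (y_integral hd hy), minpoly_eq hd hA hy, (gpoly_monic hd).natDegree_map,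
    gpoly_natDegree hd]

theorem numberField_F (hd : 0 < d) (hy : aeval y (gpoly A) = 0) : NumberField ℚ⟮y⟯ := by
  have : FiniteDimensional ℚ ℚ⟮y⟯ := adjoin.finiteDimensional (y_integral hd hy)
  exact { to_charZero := inferInstance, to_finiteDimensional := this }

theorem hom_ext {E : Type*} [Field E] [CharZero E] {φ₁ φ₂ : ℚ⟮y⟯ →+* E}
    (h : φ₁ (AdjoinSimple.gen ℚ y) = φ₂ (AdjoinSimple.gen ℚ y)) : φ₁ = φ₂ := by
  have h1 : φ₁.toRatAlgHom = φ₂.toRatAlgHom := by
    apply adjoin_algHom_ext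
    intro x hx
    obtain rfl := Set.mem_singleton_iff.mp hx
    exact h
  ext x
  exact DFunLike.congr_fun h1 x

theorem exists_hom (hd : 0 < d) (hA : Function.Injective A) (hy : aeval y (gpoly A) = 0)
    {E : Type*} [Field E] [CharZero E] {r : E} (hr : aeval r (gpoly A) = 0) :
    ∃ φ : ℚ⟮y⟯ →+* E, φ (AdjoinSimple.gen ℚ y) = r := by
  have hmem : r ∈ (minpoly ℚ y).aroots E := by
    rw [mem_aroots]
    refine ⟨minpoly.ne_zero (y_integral hd hy), ?_⟩
    rw [minpoly_eq hd hA hy, aeval_map_algebraMap]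
    exact hr
  refine ⟨((algHomAdjoinIntegralEquiv ℚ (y_integral hd hy)).symm ⟨r, hmem⟩).toRingHom, ?_⟩
  exact algHomAdjoinIntegralEquiv_symm_apply_gen ℚ (y_integral hd hy) ⟨r, hmem⟩

theorem aeval_gen (hy : aeval y (gpoly A) = 0) :
    aeval (AdjoinSimple.gen ℚ y) (gpoly A) = 0 := by
  have h1 : Function.Injective (algebraMap ℚ⟮y⟯ Ω) := (algebraMap ℚ⟮y⟯ Ω).injective
  apply h1
  rw [map_zero, ← aeval_algebraMap_apply, AdjoinSimple.algebraMap_gen, hy]

end element

section real

/-- The real roots. -/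
theorem exists_real_root (hd : 2 ≤ d) (hA : ∀ i j, i ≠ j → 3 ≤ |A i - A j|) (m : Fin d) :
    ∃ ρ : ℝ, ∏ j, (ρ - (A j : ℝ)) - 1 = 0 ∧ |ρ - A m| < 1 / 2 := by
  classical
  set G : ℝ → ℝ := fun x ↦ ∏ j, (x - (A j : ℝ)) - 1 with hG
  have hcont : Continuous G := by
    refine (continuous_finsetProd _ fun j _ ↦ ?_).sub continuous_const
    exact continuous_id.sub continuous_const
  set a : ℝ := A m - 1 / 2 with ha
  set b : ℝ := A m + 1 / 2 with hb
  have hab : a ≤ b := by rw [ha, hb]; linarith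
  have hsplit : ∀ x, G x = (x - A m) * ∏ j ∈ univ.erase m, (x - (A j : ℝ)) - 1 := by
    intro x
    simp only [hG]
    rw [mul_prod_erase univ (fun j ↦ x - (A j : ℝ)) (mem_univ m)]
  have hdist : ∀ j ∈ univ.erase m, 3 ≤ |(A m : ℝ) - A j| := by
    intro j hj
    have h1 := hA m j (ne_of_mem_erase hj).symm
    have h2 : ((3 : ℤ) : ℝ) ≤ ((|A m - A j| : ℤ) : ℝ) := by exact_mod_cast h1
    push_cast at h2
    exact h2
  have hbig : ∀ x : ℝ, |x - A m| ≤ 1 / 2 → 2 < |∏ j ∈ univ.erase m, (x - (A j : ℝ))| := by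
    intro x hx
    rw [abs_prod]
    have h1 : ∀ j ∈ univ.erase m, (5 / 2 : ℝ) ≤ |x - A j| := by
      intro j hj
      have h2 := hdist j hj
      have h3 : |(A m : ℝ) - A j| ≤ |(A m : ℝ) - x| + |x - A j| := abs_sub_le _ _ _
      rw [abs_sub_comm (A m : ℝ) x] at h3
      linarith
    have h4 : (5 / 2 : ℝ) ^ (univ.erase m).card ≤ ∏ j ∈ univ.erase m, |x - (A j : ℝ)| := by
      rw [← prod_const]
      exact prod_le_prod (fun _ _ ↦ by norm_num) h1
    rw [card_erase_of_mem (mem_univ m), card_univ, Fintype.card_fin] at h4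
    have h5 : (5 / 2 : ℝ) ^ 1 ≤ (5 / 2 : ℝ) ^ (d - 1) := pow_le_pow_right₀ (by norm_num) (by omega)
    linarith
  have hprodpos : 0 < (∏ j ∈ univ.erase m, (a - (A j : ℝ))) *
      ∏ j ∈ univ.erase m, (b - (A j : ℝ)) := by
    rw [← prod_mul_distrib]
    refine prod_pos fun j hj ↦ ?_
    have h1 := hdist j hj
    have h2 : (a - A j) * (b - A j) = ((A m : ℝ) - A j) ^ 2 - 1 / 4 := by rw [ha, hb]; ring
    rw [h2, ← sq_abs ((A m : ℝ) - A j)]
    nlinarith
  have hQa := hbig a (by rw [ha]; norm_num)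
  have hQb := hbig b (by rw [hb]; norm_num)
  have hGa : G a = -(1 / 2) * (∏ j ∈ univ.erase m, (a - (A j : ℝ))) - 1 := by
    rw [hsplit, ha]; ring
  have hGb : G b = (1 / 2) * (∏ j ∈ univ.erase m, (b - (A j : ℝ))) - 1 := by
    rw [hsplit, hb]; ring
  have hfin : ∀ ρ ∈ Set.Ioo a b, |ρ - A m| < 1 / 2 := by
    intro ρ hρ
    rw [abs_lt]
    constructor
    · have := hρ.1; rw [ha] at this; linarith
    · have := hρ.2; rw [hb] at this; linarith
  rcases lt_or_gt_of_ne (show (∏ j ∈ univ.erase m, (b - (A j : ℝ))) ≠ 0 by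
    intro h; rw [h, abs_zero] at hQb; linarith) with h | h
  · -- `Q(b) < 0`, so `Q(a) < 0`
    have h' : (∏ j ∈ univ.erase m, (a - (A j : ℝ))) < 0 := by
      by_contra hge
      push Not at hge
      have := mul_nonpos_of_nonneg_of_nonpos hge h.le
      linarith
    rw [abs_of_neg h] at hQb
    rw [abs_of_neg h'] at hQa
    have h0 : (0 : ℝ) ∈ Set.Ioo (G b) (G a) := ⟨by rw [hGb]; linarith, by rw [hGa]; linarith⟩
    obtain ⟨ρ, hρ, hρ0⟩ := intermediate_value_Ioo' hab hcont.continuousOn h0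
    exact ⟨ρ, hρ0, hfin ρ hρ⟩
  · have h' : 0 < (∏ j ∈ univ.erase m, (a - (A j : ℝ))) := by
      by_contra hle
      push Not at hle
      have := mul_nonpos_of_nonpos_of_nonneg hle h.le
      linarith
    rw [abs_of_pos h] at hQb
    rw [abs_of_pos h'] at hQa
    have h0 : (0 : ℝ) ∈ Set.Ioo (G a) (G b) := ⟨by rw [hGa]; linarith, by rw [hGb]; linarith⟩
    obtain ⟨ρ, hρ, hρ0⟩ := intermediate_value_Ioo hab hcont.continuousOn h0
    exact ⟨ρ, hρ0, hfin ρ hρ⟩

/-- A monic polynomial of degree `d` with `d` distinct roots. -/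
theorem exists_eq_root {E : Type*} [Field E] (P : E[X]) (hP : P.Monic) (hdeg : P.natDegree = d)
    (ρ : Fin d → E) (hρ : Function.Injective ρ) (hroot : ∀ m, P.eval (ρ m) = 0) {z : E}
    (hz : P.eval z = 0) : ∃ m, z = ρ m := by
  classical
  by_contra hcon
  push Not at hcon
  have hsub : (insert z (univ.image ρ)).val ⊆ P.roots := by
    intro x hx
    rw [mem_val, mem_insert, mem_image] at hx
    rw [mem_roots hP.ne_zero]
    rcases hx with rfl | ⟨m, -, rfl⟩
    · exact hz
    · exact hroot m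
  have h1 := card_le_degree_of_subset_roots hsub
  rw [card_insert_of_notMem, card_image_of_injective _ hρ, card_univ, Fintype.card_fin, hdeg] at h1
  · omega
  · rw [mem_image]
    rintro ⟨m, -, h⟩
    exact hcon m h.symm

theorem exists_roots (hd : 2 ≤ d) (hA : ∀ i j, i ≠ j → 3 ≤ |A i - A j|) :
    ∃ ρ : Fin d → ℝ, Function.Injective ρ ∧ (∀ m, aeval (ρ m) (gpoly A) = 0) ∧
      ∀ m, |ρ m - A m| < 1 / 2 := by
  choose ρ h1 h2 using exists_real_root hd hA
  refine ⟨ρ, ?_, fun m ↦ by rw [aeval_gpoly]; exact h1 m, h2⟩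
  intro i j hij
  by_contra hne
  have h3 := hA i j hne
  have h4 : (3 : ℝ) ≤ |(A i : ℝ) - A j| := by exact_mod_cast h3
  have h5 := h2 i
  have h6 := h2 j
  rw [← hij] at h6
  have h7 : |(A i : ℝ) - A j| ≤ |(A i : ℝ) - ρ i| + |ρ i - A j| := abs_sub_le _ _ _
  have h8 : |(A i : ℝ) - ρ i| = |ρ i - A i| := abs_sub_comm _ _
  linarith

end real

section realfield

variable {Ω : Type*} [Field Ω] [CharZero Ω] {y : Ω} (hd : 2 ≤ d) (hy : aeval y (gpoly A) = 0)
  {ρ : Fin d → ℝ} (hρ : Function.Injective ρ) (hroot : ∀ m, aeval (ρ m) (gpoly A) = 0)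

include hd hy hρ hroot

theorem hom_complex (φ : ℚ⟮y⟯ →+* ℂ) : ∃ m, φ (AdjoinSimple.gen ℚ y) = (ρ m : ℂ) := by
  refine exists_eq_root ((gpoly A).map (algebraMap ℤ ℂ)) ((gpoly_monic (by omega)).map _)
    (by rw [(gpoly_monic (by omega)).natDegree_map, gpoly_natDegree (by omega)])
    (fun m ↦ (ρ m : ℂ)) (fun i j h ↦ hρ (Complex.ofReal_injective h)) (fun m ↦ ?_) ?_
  · rw [eval_map_algebraMap]
    have := hroot m
    have h2 := congrArg (algebraMap ℝ ℂ) this
    rw [map_zero, ← aeval_algebraMap_apply] at h2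
    exact h2
  · rw [eval_map_algebraMap]
    have h2 := congrArg φ (aeval_gen hy)
    rw [map_zero, aeval_gpoly, map_sub, map_prod, map_one] at h2
    rw [aeval_gpoly, ← h2]
    congr 1
    refine prod_congr rfl fun m _ ↦ ?_
    rw [map_sub, map_intCast]

theorem totallyReal : IsTotallyReal ℚ⟮y⟯ := by
  constructor
  intro v
  rw [InfinitePlace.isReal_iff, ComplexEmbedding.isReal_iff]
  obtain ⟨m, hm⟩ := hom_complex hd hy hρ hroot v.embedding
  apply hom_ext
  rw [ComplexEmbedding.conjugate_coe_eq, hm, Complex.conj_ofReal]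

theorem exists_equiv (hA : Function.Injective A) :
    ∃ e : Fin d ≃ (ℚ⟮y⟯ →+* ℝ), ∀ m, e m (AdjoinSimple.gen ℚ y) = ρ m := by
  choose φ hφ using fun m ↦ exists_hom (by omega) hA hy (hroot m)
  have hbij : Function.Bijective φ := by
    constructor
    · intro i j hij
      apply hρ
      rw [← hφ i, ← hφ j, hij]
    · intro ψ
      obtain ⟨m, hm⟩ := hom_complex hd hy hρ hroot ((algebraMap ℝ ℂ).comp ψ)
      refine ⟨m, hom_ext ?_⟩
      rw [hφ]
      apply Complex.ofReal_injective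
      rw [← hm]
      rfl
  exact ⟨Equiv.ofBijective φ hbij, hφ⟩

theorem card_pos (hA : Function.Injective A) (hA0 : ∀ m, A m ≠ 0)
    (hclose : ∀ m, |ρ m - A m| < 1 / 2) :
    Nat.card {φ : ℚ⟮y⟯ →+* ℝ // 0 < φ (AdjoinSimple.gen ℚ y)} = Nat.card {m : Fin d // 0 < A m} ∧
    Nat.card {φ : ℚ⟮y⟯ →+* ℝ // φ (AdjoinSimple.gen ℚ y) < 0} =
      Nat.card {m : Fin d // A m < 0} := by
  obtain ⟨e, he⟩ := exists_equiv hd hy hρ hroot hA
  have hpos : ∀ m, 0 < A m → 0 < ρ m := by
    intro m hm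
    have h1 : (1 : ℝ) ≤ A m := by exact_mod_cast hm
    have h2 := (abs_lt.mp (hclose m)).1
    linarith
  have hneg : ∀ m, A m < 0 → ρ m < 0 := by
    intro m hm
    have h1 : (A m : ℝ) ≤ -1 := by exact_mod_cast Int.le_sub_one_of_lt hm
    have h2 := (abs_lt.mp (hclose m)).2
    linarith
  constructor
  · refine (Nat.card_congr (Equiv.subtypeEquiv e fun m ↦ ?_)).symm
    rw [he]
    constructor
    · exact hpos m
    · intro h
      rcases lt_or_gt_of_ne (hA0 m) with h1 | h1
      · exact absurd h (not_lt.mpr (hneg m h1).le)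
      · exact h1
  · refine (Nat.card_congr (Equiv.subtypeEquiv e fun m ↦ ?_)).symm
    rw [he]
    constructor
    · exact hneg m
    · intro h
      rcases lt_or_gt_of_ne (hA0 m) with h1 | h1
      · exact h1
      · exact absurd h (not_lt.mpr (hpos m h1).le)

end realfield

end Pool.Agent.Helper42.SL
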