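import Pool.Agent.Helper51.SigLeo.Member
import Pool.Agent.Helper42.SL.FieldF

/-!
# The fields `K = F(√-δ)` and `H = K(√y)`
-/

namespace Pool.Agent.Helper42.SL

open Polynomial Finset NumberField Module IntermediateField Pool.Agent.Helper51.SigLeo

section general

variable {F Ω : Type*} [Field F] [Field Ω] [CharZero Ω] [Algebra F Ω] {θ : Ω} {δ : ℕ}

omit [CharZero Ω] in
theorem theta_not_mem (hδ : 0 < δ) (hθ : θ ^ 2 = -(δ : Ω)) (φ : F →+* ℝ) :
    θ ∉ (algebraMap F Ω).range := by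
  rintro ⟨t, ht⟩
  have h1 : t ^ 2 = -(δ : F) := by
    apply (algebraMap F Ω).injective
    rw [map_pow, ht, hθ, map_neg, map_natCast]
  have h2 := congrArg φ h1
  rw [map_pow, map_neg, map_natCast] at h2
  have h3 : (0 : ℝ) < δ := by exact_mod_cast hδ
  nlinarith [sq_nonneg (φ t)]

omit [CharZero Ω] in
theorem finrank_K (hδ : 0 < δ) (hθ : θ ^ 2 = -(δ : Ω)) (φ : F →+* ℝ) :
    finrank F F⟮θ⟯ = 2 := by
  refine finrank_adjoin_sqrt (d := -(δ : F)) ?_ (theta_not_mem hδ hθ φ)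
  rw [hθ, map_neg, map_natCast]

omit [CharZero Ω] in
theorem numberField_K [NumberField F] (hδ : 0 < δ) (hθ : θ ^ 2 = -(δ : Ω)) (φ : F →+* ℝ) :
    NumberField F⟮θ⟯ := by
  have : FiniteDimensional F F⟮θ⟯ :=
    FiniteDimensional.of_finrank_pos (by rw [finrank_K hδ hθ φ]; norm_num)
  exact NumberField.of_module_finite F F⟮θ⟯

theorem gen_sq (hθ : θ ^ 2 = -(δ : Ω)) : (AdjoinSimple.gen F θ) ^ 2 = -(δ : F⟮θ⟯) := by
  apply (algebraMap F⟮θ⟯ Ω).injective
  rw [map_pow, AdjoinSimple.algebraMap_gen, hθ, map_neg, map_natCast]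

theorem totallyComplex_K [NumberField F] (hδ : 0 < δ) (hθ : θ ^ 2 = -(δ : Ω)) :
    IsTotallyComplex F⟮θ⟯ := by
  constructor
  intro v
  rw [InfinitePlace.isComplex_iff, ComplexEmbedding.isReal_iff]
  intro h
  have h1 := congrArg v.embedding (gen_sq (F := F) hθ)
  rw [map_pow, map_neg, map_natCast] at h1
  have h2 : (starRingEnd ℂ) (v.embedding (AdjoinSimple.gen F θ)) =
      v.embedding (AdjoinSimple.gen F θ) := by
    rw [← ComplexEmbedding.conjugate_coe_eq, h]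
  obtain ⟨r, hr⟩ := Complex.conj_eq_iff_real.mp h2
  rw [hr] at h1
  have h3 : r ^ 2 = -(δ : ℝ) := by exact_mod_cast h1
  have h4 : (0 : ℝ) < δ := by exact_mod_cast hδ
  nlinarith [sq_nonneg r]

/-- `y` is not a square in `F(√-δ)`. -/
theorem x_not_mem (hδ : 0 < δ) (hθ : θ ^ 2 = -(δ : Ω)) {y : F} {x : Ω}
    (hx : x ^ 2 = algebraMap F Ω y) (φ : F →+* ℝ) (hφ : 0 < φ y) (hsq : ∀ t : F, y ≠ t ^ 2) :
    x ∉ (algebraMap F⟮θ⟯ Ω).range := by
  have : CharZero F := (algebraMap F Ω).charZero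
  rintro ⟨x', hx'⟩
  have hθ' : AdjoinSimple.gen F θ ∉ (algebraMap F F⟮θ⟯).range := by
    rintro ⟨t, ht⟩
    apply theta_not_mem hδ hθ φ
    refine ⟨t, ?_⟩
    rw [IsScalarTower.algebraMap_apply F F⟮θ⟯ Ω, ht, AdjoinSimple.algebraMap_gen]
  have h1 : x' ^ 2 = algebraMap F F⟮θ⟯ y := by
    apply (algebraMap F⟮θ⟯ Ω).injective
    rw [map_pow, hx', hx, ← IsScalarTower.algebraMap_apply]
  obtain ⟨t, ⟨-, ht⟩ | ⟨-, ht⟩⟩ := sq_in_base (finrank_K hδ hθ φ) hθ' (d := -(δ : F))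
    (by rw [gen_sq hθ, map_neg, map_natCast]) h1
  · exact hsq t ht
  · have h2 := congrArg φ ht
    rw [map_mul, map_pow, map_neg, map_natCast] at h2
    have h4 : (0 : ℝ) < δ := by exact_mod_cast hδ
    have h5 : 0 ≤ (φ t) ^ 2 * δ := by positivity
    nlinarith

theorem finrank_H (hδ : 0 < δ) (hθ : θ ^ 2 = -(δ : Ω)) {y : F} {x : Ω}
    (hx : x ^ 2 = algebraMap F Ω y) (φ : F →+* ℝ) (hφ : 0 < φ y) (hsq : ∀ t : F, y ≠ t ^ 2) :
    finrank F⟮θ⟯ F⟮θ⟯⟮x⟯ = 2 := by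
  refine finrank_adjoin_sqrt (d := algebraMap F F⟮θ⟯ y) ?_ (x_not_mem hδ hθ hx φ hφ hsq)
  rw [hx, ← IsScalarTower.algebraMap_apply]

end general

section squares

variable {d : ℕ} {A : Fin d → ℤ} {Ω : Type*} [Field Ω] [CharZero Ω] {y : Ω}

theorem norm_gen (hd : 0 < d) (hA : Function.Injective A) (hy : aeval y (gpoly A) = 0) :
    Algebra.norm ℚ (AdjoinSimple.gen ℚ y) = ((∏ m, A m - (-1) ^ d : ℤ) : ℚ) := by
  have h1 := Algebra.PowerBasis.norm_gen_eq_coeff_zero_minpoly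
    (adjoin.powerBasis (y_integral hd hy))
  rw [adjoin.powerBasis_gen, adjoin.powerBasis_dim, minpoly_gen, minpoly_eq hd hA hy,
    (gpoly_monic hd).natDegree_map, gpoly_natDegree hd, coeff_map, coeff_zero_eq_eval_zero] at h1
  refine Eq.trans h1 ?_
  have h2 : (gpoly A).eval 0 = (-1) ^ d * ∏ m, A m - 1 := by
    have := aeval_gpoly (A := A) (0 : ℤ)
    rw [coe_aeval_eq_eval] at this
    rw [this]
    congr 1
    have h3 : ∀ m, (0 : ℤ) - Int.cast (A m) = (-1) * A m := fun m ↦ by simp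
    simp only [h3]
    rw [prod_mul_distrib]
    simp
  rw [h2]
  have h4 : ((-1 : ℚ)) ^ d * (-1) ^ d = 1 := by rw [← mul_pow]; norm_num
  simp only [eq_intCast]
  push_cast
  linear_combination (∏ m, (A m : ℚ)) * h4

/-- If all the `A_m` are squares, the generator is not a square. -/
theorem not_sq_of_all_squares (hd : 0 < d) (hA : Function.Injective A)
    (hy : aeval y (gpoly A) = 0) (n : ℤ) (hn : 2 ≤ |n|) (hAn : ∏ m, A m = n ^ 2) (t : ℚ⟮y⟯) :
    AdjoinSimple.gen ℚ y ≠ t ^ 2 := by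
  intro h
  have h1 := norm_gen hd hA hy
  rw [h, map_pow] at h1
  set c := Algebra.norm ℚ t with hc
  have hcint : IsIntegral ℤ c := by
    refine IsIntegral.of_pow (n := 2) (by norm_num) ?_
    rw [h1]
    exact isIntegral_algebraMap (R := ℤ) (A := ℚ) (x := ∏ m, A m - (-1) ^ d)
  obtain ⟨c', hc'⟩ := IsIntegrallyClosed.isIntegral_iff.mp hcint
  have h2 : c' ^ 2 = n ^ 2 - (-1) ^ d := by
    rw [← hAn]
    have : ((c' ^ 2 : ℤ) : ℚ) = ((∏ m, A m - (-1) ^ d : ℤ) : ℚ) := by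
      rw [← h1, ← hc']; simp
    exact_mod_cast this
  rcases neg_one_pow_eq_or ℤ d with h3 | h3
  · rw [h3] at h2
    have h4 : (n - c') * (n + c') = 1 := by linarith
    rcases Int.eq_one_or_neg_one_of_mul_eq_one' h4 with ⟨h5, h6⟩ | ⟨h5, h6⟩
    · have : n = 1 := by omega
      rw [this] at hn; norm_num at hn
    · have : n = -1 := by omega
      rw [this] at hn; norm_num at hn
  · rw [h3] at h2
    have h4 : (c' - n) * (c' + n) = 1 := by linarith
    rcases Int.eq_one_or_neg_one_of_mul_eq_one' h4 with ⟨h5, h6⟩ | ⟨h5, h6⟩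
    · have : n = 0 := by omega
      rw [this] at hn; norm_num at hn
    · have : n = 0 := by omega
      rw [this] at hn; norm_num at hn

end squares

end Pool.Agent.Helper42.SL
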