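import Pool.Agent.Helper42.SL.Complex

/-!
# The generic determinant and the choice of the parameters
-/

namespace Pool.Agent.Helper42.SL

open Polynomial Finset

section congr

variable {R : Type*} [CommRing R]

theorem dvd_prod_sub_prod {ι : Type*} (s : Finset ι) (a b : ι → R) (D : R)
    (h : ∀ i ∈ s, D ∣ a i - b i) : D ∣ ∏ i ∈ s, a i - ∏ i ∈ s, b i := by
  classical
  induction s using Finset.induction_on with
  | empty => simp
  | insert i s hi ih =>
    rw [prod_insert hi, prod_insert hi]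
    have e : a i * ∏ j ∈ s, a j - b i * ∏ j ∈ s, b j =
        a i * (∏ j ∈ s, a j - ∏ j ∈ s, b j) + (a i - b i) * ∏ j ∈ s, b j := by ring
    rw [e]
    exact dvd_add ((ih fun j hj ↦ h j (mem_insert_of_mem hj)).mul_left _)
      ((h i (mem_insert_self _ _)).mul_right _)

theorem dvd_det_sub_det {n : ℕ} (M N : Matrix (Fin n) (Fin n) R) (D : R)
    (h : ∀ i j, D ∣ M i j - N i j) : D ∣ M.det - N.det := by
  rw [Matrix.det_apply', Matrix.det_apply', ← sum_sub_distrib]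
  refine dvd_sum fun σ _ ↦ ?_
  rw [← mul_sub]
  exact (dvd_prod_sub_prod _ _ _ _ fun i _ ↦ h _ _).mul_left _

theorem dvd_eval₂_sub {S : Type*} [CommRing S] (f : S →+* R) (P : S[X]) (x y D : R)
    (h : D ∣ x - y) : D ∣ P.eval₂ f x - P.eval₂ f y := by
  rw [← eval_map, ← eval_map]
  exact h.trans (sub_dvd_eval_sub x y _)

/-- Existence of truncated solutions of `U ^ d = ∏ (1 - a_m X U)`. -/
theorem exists_U {d : ℕ} (dinv : R) (hdinv : (d : R) * dinv = 1) (a : Fin d → R) (N : ℕ) :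
    ∃ U : R[X], U.coeff 0 = 1 ∧ X ^ (N + 1) ∣ U ^ d - ∏ m, (1 - C (a m) * X * U) := by
  induction N with
  | zero =>
    refine ⟨1, by simp, ?_⟩
    have := dvd_prod_sub_prod (univ : Finset (Fin d)) (fun _ ↦ (1 : R[X]))
      (fun m ↦ 1 - C (a m) * X * 1) X (fun m _ ↦ ⟨C (a m), by ring⟩)
    simpa using this
  | succ N ih =>
    obtain ⟨U, hU0, V, hV⟩ := ih
    set E : R[X] := -(C (dinv * V.coeff 0) * X ^ (N + 1)) with hE
    have hEX : X ^ (N + 1) ∣ E := by
      rw [hE]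
      exact (dvd_neg.mpr (dvd_mul_left _ _))
    refine ⟨U + E, ?_, ?_⟩
    · rw [coeff_add, hU0, hE, coeff_neg, coeff_C_mul, coeff_X_pow]
      simp
    · obtain ⟨K, hK⟩ := Polynomial.powAddExpansion U E d
      have hX1 : X ∣ U ^ (d - 1) - 1 := by
        have h1 : X ∣ U - 1 := by
          rw [X_dvd_iff, coeff_sub, hU0]; simp
        have := dvd_prod_sub_prod (range (d - 1)) (fun _ ↦ U) (fun _ ↦ (1 : R[X])) X
          (fun _ _ ↦ h1)
        simpa only [prod_const, card_range, one_pow] using this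
      have hsplit : (U + E) ^ d - ∏ m, (1 - C (a m) * X * (U + E)) =
          K * E ^ 2 + (d : R[X]) * (U ^ (d - 1) - 1) * E +
          ((U ^ d - ∏ m, (1 - C (a m) * X * U)) + (d : R[X]) * E) -
          (∏ m, (1 - C (a m) * X * (U + E)) - ∏ m, (1 - C (a m) * X * U)) := by
        rw [hK]; ring
      rw [hsplit]
      refine dvd_sub (dvd_add (dvd_add ?_ ?_) ?_) ?_
      · refine Dvd.dvd.mul_left ?_ _
        have : (X : R[X]) ^ (N + 1 + 1) ∣ (X ^ (N + 1)) ^ 2 := by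
          rw [← pow_mul]
          exact pow_dvd_pow _ (by omega)
        exact this.trans (pow_dvd_pow_of_dvd hEX 2)
      · rw [pow_succ', mul_assoc]
        exact ((mul_dvd_mul hX1 hEX).mul_left _)
      · rw [hV]
        have hd' : (d : R[X]) * E = -(X ^ (N + 1) * C (V.coeff 0)) := by
          rw [hE]
          have : (d : R[X]) = C (d : R) := by simp
          rw [this, C_mul]
          have h3 : C (d : R) * C dinv = 1 := by rw [← C_mul, hdinv, C_1]
          linear_combination (-(C (V.coeff 0) * X ^ (N + 1))) * h3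
        rw [hd', ← sub_eq_add_neg, ← mul_sub, pow_succ]
        refine mul_dvd_mul dvd_rfl ?_
        rw [X_dvd_iff, coeff_sub, coeff_C_zero, sub_self]
      · refine dvd_prod_sub_prod _ _ _ _ fun m _ ↦ ?_
        have : 1 - C (a m) * X * (U + E) - (1 - C (a m) * X * U) = -(C (a m) * (X * E)) := by ring
        rw [this, dvd_neg, pow_succ']
        exact (mul_dvd_mul dvd_rfl hEX).mul_left _

/-- The signed determinant of truncated series. -/
noncomputable def Dpoly {Q : Type*} [Field Q] {d : ℕ} (ψ : Q →+* R) (w : Q) (a : Fin d → R)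
    (ε : Fin d → Fin d → ℤˣ) (N : ℕ) (U : R[X]) : R[X] :=
  (Matrix.of fun j m : Fin d ↦ C (((ε j m : ℤˣ) : ℤ) : R) *
    (phi Q N).eval₂ (C.comp ψ)
      (C (a m) * (C (ψ (w ^ (j : ℕ))) * X * U.comp (C (ψ (w ^ (j : ℕ))) * X)))).det

theorem Dpoly_map {Q : Type*} [Field Q] {d : ℕ} (ψ : Q →+* R) (w : Q) (a : Fin d → R)
    (ε : Fin d → Fin d → ℤˣ) (N : ℕ) (U : R[X]) {S : Type*} [CommRing S] (f : R →+* S) :
    (Dpoly ψ w a ε N U).map f = Dpoly (f.comp ψ) w (fun m ↦ f (a m)) ε N (U.map f) := by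
  rw [Dpoly, ← coe_mapRingHom, RingHom.map_det, Dpoly]
  congr 1
  ext1 j m
  simp only [RingHom.mapMatrix_apply, Matrix.map_apply, Matrix.of_apply, coe_mapRingHom]
  rw [Polynomial.map_mul, map_C, map_intCast, ← coe_mapRingHom, Polynomial.hom_eval₂]
  congr 2
  · ext x
    simp
  · simp [Polynomial.map_comp]

end congr

section field

variable {Q : Type*} [Field Q]

theorem pow_dvd_of_mul {P G : Q[X]} {n : ℕ} (hG : G.coeff 0 ≠ 0) (h : X ^ n ∣ P * G) :
    X ^ n ∣ P :=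
  prime_X.pow_dvd_of_dvd_mul_right n (fun h ↦ hG (X_dvd_iff.mp h)) h

theorem unique_special [CharZero Q] {d N : ℕ} (hd : 0 < d) {u₁ u₂ : Q[X]} (h₁ : u₁.coeff 0 = 1)
    (h₂ : u₂.coeff 0 = 1) (c₁ : X ^ (N + 1) ∣ u₁ ^ d * (1 + X ^ d) - 1)
    (c₂ : X ^ (N + 1) ∣ u₂ ^ d * (1 + X ^ d) - 1) : X ^ (N + 1) ∣ u₁ - u₂ := by
  have h3 : X ^ (N + 1) ∣ ((u₁ - u₂) * ∑ i ∈ range d, u₁ ^ i * u₂ ^ (d - 1 - i)) *
      (1 + X ^ d) := by
    rw [mul_comm (u₁ - u₂), geom_sum₂_mul]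
    have := dvd_sub c₁ c₂
    have e : u₁ ^ d * (1 + X ^ d) - 1 - (u₂ ^ d * (1 + X ^ d) - 1) =
        (u₁ ^ d - u₂ ^ d) * (1 + X ^ d) := by ring
    rwa [e] at this
  have h4 := pow_dvd_of_mul (by
    rw [coeff_zero_eq_eval_zero]
    simp [hd.ne']) h3
  refine pow_dvd_of_mul ?_ h4
  rw [coeff_zero_eq_eval_zero] at h₁ h₂ ⊢
  simp only [eval_finsetSum, eval_mul, eval_pow, h₁, h₂, one_pow, mul_one, sum_const, card_range,
    nsmul_eq_mul]
  exact_mod_cast hd.ne'

theorem not_dvd_comp {E u : Q[X]} {N : ℕ} (hE : ¬ X ^ (N + 1) ∣ E) (hu : u.coeff 0 = 1) :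
    ¬ X ^ (N + 1) ∣ E.comp (X * u) := by
  have hE0 : E ≠ 0 := by
    rintro rfl
    exact hE (dvd_zero _)
  obtain ⟨G, hG⟩ : X ^ E.natTrailingDegree ∣ E := by
    rw [X_pow_dvd_iff]
    intro i hi
    exact coeff_eq_zero_of_lt_natTrailingDegree hi
  set n := E.natTrailingDegree with hn
  have hnN : n ≤ N := by
    by_contra hlt
    push Not at hlt
    exact hE ((pow_dvd_pow X hlt).trans ⟨G, hG⟩)
  have hG0 : G.coeff 0 ≠ 0 := by
    have h1 : E.coeff n = G.coeff 0 := by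
      conv_lhs => rw [hG]
      rw [mul_comm, coeff_mul_X_pow', if_pos le_rfl, Nat.sub_self]
    rw [← h1]
    exact trailingCoeff_nonzero_iff_nonzero.mpr hE0
  intro h
  have h2 : X ^ (n + 1) ∣ E.comp (X * u) := (pow_dvd_pow X (by omega)).trans h
  have e : E.comp (X * u) = X ^ n * (u ^ n * G.comp (X * u)) := by
    conv_lhs => rw [hG]
    rw [mul_comp, pow_comp, X_comp, mul_pow, mul_assoc]
  rw [e, pow_succ] at h2
  have h3 := (mul_dvd_mul_iff_left (pow_ne_zero n X_ne_zero)).mp h2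
  rw [X_dvd_iff, coeff_zero_eq_eval_zero, eval_mul, eval_pow, ← coeff_zero_eq_eval_zero, hu,
    one_pow, one_mul, eval_comp, eval_mul, eval_X, zero_mul, ← coeff_zero_eq_eval_zero] at h3
  exact hG0 h3

theorem Epoly_dvd_sub {d : ℕ} (w : Q) (ε : Fin d → Fin d → ℤˣ) {N N' : ℕ} (h : N ≤ N') :
    X ^ (N + 1) ∣ Epoly w ε N' - Epoly w ε N := by
  refine dvd_det_sub_det _ _ _ fun j m ↦ ?_
  simp only [Matrix.of_apply]
  rw [← mul_sub, ← sub_comp]
  refine Dvd.dvd.mul_left ?_ _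
  have h1 : X ^ (N + 1) ∣ phi Q N' - phi Q N := by
    have h2 : phi Q N' - phi Q N =
        ∑ i ∈ Ico (N + 1) (N' + 1), C ((2 * (i : Q) + 1)⁻¹) * X ^ i := by
      rw [phi, phi, sum_Ico_eq_sub _ (by omega)]
    rw [h2]
    refine dvd_sum fun i hi ↦ ?_
    exact (pow_dvd_pow X (mem_Ico.mp hi).1).mul_left _
  obtain ⟨G, hG⟩ := h1
  rw [hG, mul_comp, pow_comp, X_comp, mul_pow]
  exact ⟨C (w ^ ((j : ℕ) + m)) ^ (N + 1) * G.comp (C (w ^ ((j : ℕ) + m)) * X), by ring⟩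

theorem not_dvd_Epoly_mono {d : ℕ} (w : Q) (ε : Fin d → Fin d → ℤˣ) {N N' : ℕ} (h : N ≤ N')
    (hN : ¬ X ^ (N + 1) ∣ Epoly w ε N) : ¬ X ^ (N' + 1) ∣ Epoly w ε N' := by
  intro h'
  apply hN
  have h1 : X ^ (N + 1) ∣ Epoly w ε N' := (pow_dvd_pow X (by omega)).trans h'
  have h2 := Epoly_dvd_sub w ε h
  have := dvd_sub h1 h2
  rwa [sub_sub_cancel] at this

omit [Field Q] in
theorem prod_nthRoots {A B : Type*} [CommRing A] [IsDomain A] [CommMonoid B] {d : ℕ} (hd : 0 < d)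
    {w : A} (hw : IsPrimitiveRoot w d) (f : A → B) :
    ∏ ζ ∈ nthRootsFinset d (1 : A), f ζ = ∏ m : Fin d, f (w ^ (m : ℕ)) := by
  classical
  have hinj : Function.Injective (fun m : Fin d ↦ w ^ (m : ℕ)) := fun i j h ↦
    Fin.ext (hw.pow_inj i.2 j.2 h)
  have himg : nthRootsFinset d (1 : A) = univ.image (fun m : Fin d ↦ w ^ (m : ℕ)) := by
    symm
    apply Finset.eq_of_subset_of_card_le
    · intro x hx
      obtain ⟨m, -, rfl⟩ := mem_image.mp hx
      rw [mem_nthRootsFinset hd, ← pow_mul, mul_comm, pow_mul, hw.pow_eq_one, one_pow]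
    · rw [card_image_of_injective _ hinj, card_univ, Fintype.card_fin, hw.card_nthRootsFinset]
  rw [himg, prod_image (fun i _ j _ h ↦ hinj h)]

/-- At the special point `a_m = w^m` the generic determinant is the composition of `Epoly` with
`X u₀`, modulo a high power of `X`. -/
theorem Dpoly_special [CharZero Q] {d : ℕ} (hd : 0 < d) {w : Q} (hw : IsPrimitiveRoot w d)
    (ε : Fin d → Fin d → ℤˣ) {N : ℕ} {u : Q[X]} (hu0 : u.coeff 0 = 1)
    (hu : X ^ (N + 1) ∣ u ^ d - ∏ m : Fin d, (1 - C (w ^ (m : ℕ)) * X * u)) :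
    X ^ (N + 1) ∣ Dpoly (RingHom.id Q) w (fun m ↦ w ^ (m : ℕ)) ε N u -
      (Epoly w ε N).comp (X * u) := by
  -- the product is `1 - (X u) ^ d`
  have hprod : ∏ m : Fin d, (1 - C (w ^ (m : ℕ)) * X * u) = 1 - (X * u) ^ d := by
    have hwC : IsPrimitiveRoot (C w : Q[X]) d := hw.map_of_injective C_injective
    have h1 := hwC.pow_sub_pow_eq_prod_sub_mul (1 : Q[X]) (X * u) hd
    rw [one_pow, prod_nthRoots hd hwC] at h1
    rw [h1]
    refine prod_congr rfl fun m _ ↦ ?_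
    rw [C_pow, mul_assoc]
  rw [hprod] at hu
  have hu' : X ^ (N + 1) ∣ u ^ d * (1 + X ^ d) - 1 := by
    have e : u ^ d - (1 - (X * u) ^ d) = u ^ d * (1 + X ^ d) - 1 := by rw [mul_pow]; ring
    rwa [e] at hu
  have hcomp : ∀ j : Fin d, X ^ (N + 1) ∣ u.comp (C (w ^ (j : ℕ)) * X) - u := by
    intro j
    refine unique_special hd ?_ hu0 ?_ hu'
    · rw [coeff_zero_eq_eval_zero, eval_comp, eval_mul, eval_X, mul_zero,
        ← coeff_zero_eq_eval_zero, hu0]
    · obtain ⟨G, hG⟩ := hu'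
      have hw1 : (C (w ^ (j : ℕ)) : Q[X]) ^ d = 1 := by
        rw [← C_pow, ← pow_mul, mul_comm, pow_mul, hw.pow_eq_one, one_pow, C_1]
      have h2 := congrArg (fun P : Q[X] ↦ P.comp (C (w ^ (j : ℕ)) * X)) hG
      simp only [sub_comp, mul_comp, pow_comp, add_comp, one_comp, X_comp, mul_pow, hw1,
        one_mul] at h2
      rw [h2]
      exact ⟨C (w ^ (j : ℕ)) ^ (N + 1) * G.comp (C (w ^ (j : ℕ)) * X), by ring⟩
  have hE : (Epoly w ε N).comp (X * u) = (Matrix.of fun j m : Fin d ↦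
      C (((ε j m : ℤˣ) : ℤ) : Q) * (phi Q N).comp (C (w ^ ((j : ℕ) + m)) * (X * u))).det := by
    rw [Epoly, ← coe_compRingHom_apply, RingHom.map_det]
    congr 1
    ext1 j m
    simp only [RingHom.mapMatrix_apply, Matrix.map_apply, Matrix.of_apply,
      coe_compRingHom_apply, mul_comp, comp_assoc, C_comp, X_comp]
  rw [hE, Dpoly]
  refine dvd_det_sub_det _ _ _ fun j m ↦ ?_
  simp only [Matrix.of_apply]
  rw [← mul_sub]
  refine Dvd.dvd.mul_left ?_ _
  rw [RingHom.comp_id]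
  refine dvd_eval₂_sub _ _ _ _ _ ?_
  have e : C (w ^ (m : ℕ)) * (C (RingHom.id Q (w ^ (j : ℕ))) * X *
      u.comp (C (RingHom.id Q (w ^ (j : ℕ))) * X)) - C (w ^ ((j : ℕ) + m)) * (X * u) =
      C (w ^ ((j : ℕ) + m)) * X * (u.comp (C (w ^ (j : ℕ)) * X) - u) := by
    rw [RingHom.id_apply, pow_add, C_mul]
    ring
  rw [e]
  exact (hcomp j).mul_left _

/-- **Choice of the parameters.** -/
theorem exists_good [CharZero Q] (ι : Q →+* ℂ) {d : ℕ} (hd : 0 < d) {w : Q}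
    (hw : IsPrimitiveRoot w d) (S : Fin d → Set ℤ) (hS : ∀ m, (S m).Infinite) :
    ∃ (α : Fin d → ℤ) (N : ℕ) (u : Q[X]), (∀ m, α m ∈ S m) ∧ Function.Injective α ∧
      u.coeff 0 = 1 ∧ X ^ (N + 1) ∣ u ^ d - ∏ m, (1 - C (α m : Q) * X * u) ∧
      ∀ ε : Fin d → Fin d → ℤˣ,
        ¬ X ^ (N + 1) ∣ Dpoly (RingHom.id Q) w (fun m ↦ (α m : Q)) ε N u := by
  classical
  choose Nε hNε using fun ε : Fin d → Fin d → ℤˣ ↦ exists_not_dvd_Epoly ι hd hw ε
  let N := univ.sup Nε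
  have hN : ∀ ε, ¬ X ^ (N + 1) ∣ Epoly w ε N := fun ε ↦
    not_dvd_Epoly_mono w ε (le_sup (mem_univ ε)) (hNε ε)
  have hdQ : (d : Q) ≠ 0 := by exact_mod_cast hd.ne'
  obtain ⟨U, hU0, hU⟩ := exists_U (R := MvPolynomial (Fin d) Q) (MvPolynomial.C (d : Q)⁻¹)
    (by
      rw [← map_natCast (MvPolynomial.C (σ := Fin d) (R := Q)) d, ← MvPolynomial.C_mul,
        mul_inv_cancel₀ hdQ, MvPolynomial.C_1])
    (fun m ↦ MvPolynomial.X m) N
  -- the general specialization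
  have hspec : ∀ a : Fin d → Q, (U.map (MvPolynomial.eval a)).coeff 0 = 1 ∧
      X ^ (N + 1) ∣ (U.map (MvPolynomial.eval a)) ^ d -
        ∏ m, (1 - C (a m) * X * (U.map (MvPolynomial.eval a))) := by
    intro a
    refine ⟨by rw [coeff_map, hU0, map_one], ?_⟩
    have := Polynomial.map_dvd (MvPolynomial.eval a) hU
    simpa [Polynomial.map_prod] using this
  have hD : ∀ (a : Fin d → Q) (ε : Fin d → Fin d → ℤˣ),
      (Dpoly MvPolynomial.C w (fun m ↦ MvPolynomial.X m) ε N U).map (MvPolynomial.eval a) =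
        Dpoly (RingHom.id Q) w a ε N (U.map (MvPolynomial.eval a)) := by
    intro a ε
    rw [Dpoly_map]
    have h1 : (MvPolynomial.eval a).comp (MvPolynomial.C (σ := Fin d)) = RingHom.id Q := by
      ext x; simp
    have h2 : (fun m ↦ MvPolynomial.eval a (MvPolynomial.X m)) = a := by
      funext m; simp
    rw [h1, h2]
  -- nonvanishing of some coefficient
  have hcoef : ∀ ε : Fin d → Fin d → ℤˣ, ∃ i < N + 1,
      (Dpoly (MvPolynomial.C (σ := Fin d)) w (fun m ↦ MvPolynomial.X m) ε N U).coeff i ≠ 0 := by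
    intro ε
    by_contra hcon
    push Not at hcon
    have h1 : X ^ (N + 1) ∣ Dpoly (MvPolynomial.C (σ := Fin d)) w
        (fun m ↦ MvPolynomial.X m) ε N U := X_pow_dvd_iff.mpr hcon
    have h2 := Polynomial.map_dvd (MvPolynomial.eval (fun m : Fin d ↦ w ^ (m : ℕ))) h1
    rw [Polynomial.map_pow, map_X, hD] at h2
    obtain ⟨h3, h4⟩ := hspec (fun m : Fin d ↦ w ^ (m : ℕ))
    have h5 := Dpoly_special hd hw ε h3 h4
    have h6 := dvd_sub h2 h5
    rw [sub_sub_cancel] at h6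
    exact not_dvd_comp (hN ε) h3 h6
  choose i hi hci using hcoef
  let G : MvPolynomial (Fin d) Q :=
    (∏ ε, (Dpoly (MvPolynomial.C (σ := Fin d)) w (fun m ↦ MvPolynomial.X m) ε N U).coeff (i ε)) *
      ∏ x ∈ (univ : Finset (Fin d)).offDiag, (MvPolynomial.X x.1 - MvPolynomial.X x.2)
  have hG : G ≠ 0 := by
    refine mul_ne_zero (prod_ne_zero_iff.mpr fun ε _ ↦ hci ε) (prod_ne_zero_iff.mpr ?_)
    intro x hx
    rw [mem_offDiag] at hx
    intro h
    exact hx.2.2 (MvPolynomial.X_injective (sub_eq_zero.mp h))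
  obtain ⟨a, ha, haG⟩ : ∃ a ∈ Set.pi Set.univ (fun m ↦ (Int.cast : ℤ → Q) '' S m),
      MvPolynomial.eval a G ≠ 0 := by
    by_contra hcon
    push Not at hcon
    apply hG
    refine MvPolynomial.funext_set (fun m ↦ (Int.cast : ℤ → Q) '' S m)
      (fun m ↦ (hS m).image Int.cast_injective.injOn) fun x hx ↦ ?_
    rw [hcon x hx, map_zero]
  rw [Set.mem_univ_pi] at ha
  choose α hα hαa using ha
  have ha' : (fun m ↦ (α m : Q)) = a := funext hαa
  obtain ⟨h3, h4⟩ := hspec a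
  rw [map_mul, mul_ne_zero_iff, map_prod, map_prod, prod_ne_zero_iff, prod_ne_zero_iff] at haG
  refine ⟨α, N, U.map (MvPolynomial.eval a), hα, ?_, h3, ?_, ?_⟩
  · intro m m' hmm
    by_contra hne
    have := haG.2 (m, m') (by simp [hne])
    apply this
    simp only [map_sub, MvPolynomial.eval_X]
    rw [← hαa, ← hαa, hmm, sub_self]
  · have e : ∀ m, (α m : Q) = a m := hαa
    simp only [e]
    exact h4
  · intro ε hdvd
    rw [ha', ← hD] at hdvd
    have h5 := X_pow_dvd_iff.mp hdvd (i ε) (hi ε)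
    rw [coeff_map] at h5
    exact haG.1 ε (mem_univ ε) h5

end field

end Pool.Agent.Helper42.SL
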