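import Pool.Agent.Helper42.SL.FieldF

/-!
# Infinitely many fields
-/

namespace Pool.Agent.Helper42.SL

open Polynomial Finset NumberField Module IntermediateField

/-- An algebraic integer all of whose conjugates are less than `1` in absolute value is `0`. -/
theorem eq_zero_of_small {F : Type*} [Field F] [NumberField F] (w : F) (hw : IsIntegral ℤ w)
    (h : ∀ φ : F →+* ℂ, ‖φ w‖ < 1) : w = 0 := by
  classical
  have h1 := Algebra.norm_eq_prod_embeddings ℚ ℂ w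
  have h2 : IsIntegral ℤ (Algebra.norm ℚ w) := Algebra.isIntegral_norm ℚ hw
  obtain ⟨c, hc⟩ := IsIntegrallyClosed.isIntegral_iff.mp h2
  have hpos : 0 < Fintype.card (F →ₐ[ℚ] ℂ) := by
    rw [AlgHom.card]
    exact finrank_pos
  have h3 : ‖algebraMap ℚ ℂ (Algebra.norm ℚ w)‖ < 1 := by
    rw [h1, norm_prod]
    obtain ⟨σ₀⟩ := Fintype.card_pos_iff.mp hpos
    rw [← mul_prod_erase univ (fun σ : F →ₐ[ℚ] ℂ ↦ ‖σ w‖) (mem_univ σ₀)]
    have h4 : ∏ σ ∈ univ.erase σ₀, ‖(σ : F →ₐ[ℚ] ℂ) w‖ ≤ 1 :=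
      prod_le_one (fun _ _ ↦ norm_nonneg _) fun σ _ ↦ (h (σ : F →+* ℂ)).le
    calc ‖σ₀ w‖ * ∏ σ ∈ univ.erase σ₀, ‖(σ : F →ₐ[ℚ] ℂ) w‖ ≤ ‖σ₀ w‖ * 1 :=
          mul_le_mul_of_nonneg_left h4 (norm_nonneg _)
      _ < 1 := by rw [mul_one]; exact h (σ₀ : F →+* ℂ)
  rw [← hc] at h3
  have h5 : ‖((c : ℤ) : ℂ)‖ < 1 := by simpa using h3
  rw [Complex.norm_intCast] at h5
  have h6 : |c| < 1 := by exact_mod_cast h5
  have h7 : c = 0 := Int.abs_lt_one_iff.mp h6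
  rw [h7, map_zero] at hc
  exact Algebra.norm_eq_zero_iff.mp hc.symm

/-- The roots are very close to the `A_m`. -/
theorem root_close {d : ℕ} (hd : 3 ≤ d) (A : Fin d → ℤ) {T : ℝ} (hT : 2 ≤ T)
    (hA : ∀ i j, i ≠ j → T ≤ |(A i : ℝ) - A j|) {ρ : ℝ} (hρ : ∏ j, (ρ - (A j : ℝ)) - 1 = 0)
    {m : Fin d} (hm : |ρ - A m| < 1 / 2) : |ρ - A m| ≤ 4 / T ^ 2 := by
  classical
  have h1 : (ρ - A m) * ∏ j ∈ univ.erase m, (ρ - (A j : ℝ)) = 1 := by
    rw [mul_prod_erase univ (fun j ↦ ρ - (A j : ℝ)) (mem_univ m)]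
    linarith
  have h2 : ∀ j ∈ univ.erase m, T / 2 ≤ |ρ - A j| := by
    intro j hj
    have h3 := hA m j (ne_of_mem_erase hj).symm
    have h4 : |(A m : ℝ) - A j| ≤ |(A m : ℝ) - ρ| + |ρ - A j| := abs_sub_le _ _ _
    have h5 : |(A m : ℝ) - ρ| = |ρ - A m| := abs_sub_comm _ _
    linarith
  have h3 : (T / 2) ^ 2 ≤ ∏ j ∈ univ.erase m, |ρ - (A j : ℝ)| := by
    calc (T / 2) ^ 2 ≤ (T / 2) ^ (d - 1) := pow_le_pow_right₀ (by linarith) (by omega)
      _ = ∏ _j ∈ univ.erase m, (T / 2) := by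
          rw [prod_const, card_erase_of_mem (mem_univ m), card_univ, Fintype.card_fin]
      _ ≤ _ := prod_le_prod (fun _ _ ↦ by linarith) h2
  have h4 : |ρ - A m| * ∏ j ∈ univ.erase m, |ρ - (A j : ℝ)| = 1 := by
    rw [← abs_prod, ← abs_mul, h1, abs_one]
  have h5 : |ρ - A m| * (T / 2) ^ 2 ≤ 1 := by
    rw [← h4]; exact mul_le_mul_of_nonneg_left h3 (abs_nonneg _)
  rw [le_div_iff₀ (by positivity)]
  nlinarith

variable {Ω : Type*} [Field Ω] [CharZero Ω]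

/-- Infinitely many fields in the family. -/
theorem infinite_fields {d : ℕ} (hd : 3 ≤ d) (α : Fin d → ℤ) (hα : Function.Injective α)
    (M : ℤ) (hM : 2 ≤ M) (n₀ : ℕ) (y : ℕ → Ω)
    (hy : ∀ n, n₀ ≤ n → aeval (y n) (gpoly fun m ↦ α m * M ^ (2 * n)) = 0)
    (S : Set (IntermediateField ℚ Ω)) (hS : ∀ n, n₀ ≤ n → ℚ⟮y n⟯ ∈ S) : S.Infinite := by
  intro hfin
  -- restrict to the fields of the family
  let S₀ : Set (IntermediateField ℚ Ω) := {F | ∃ n, n₀ ≤ n ∧ F = ℚ⟮y n⟯}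
  have hS₀ : S₀.Finite := hfin.subset fun F ⟨n, hn, hF⟩ ↦ hF ▸ hS n hn
  have : Finite S₀ := hS₀
  have hNF : ∀ F : S₀, NumberField F.1 := by
    rintro ⟨F, n, hn, rfl⟩
    exact numberField_F (by omega) (hy n hn)
  have hfinC : ∀ F : S₀, Finite ((F.1 →+* ℂ) → Fin d) := fun F ↦ by
    have := hNF F
    infer_instance
  have hfinS : Finite (Σ F : S₀, ((F.1 →+* ℂ) → Fin d)) := inferInstance
  have hMR : (2 : ℝ) ≤ M := by exact_mod_cast hM
  -- colors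
  have hcol : ∀ n, n₀ ≤ n → 1 ≤ n → ∃ c : Σ F : S₀, ((F.1 →+* ℂ) → Fin d),
      ∃ h : y n ∈ c.1.1, ∀ φ : c.1.1 →+* ℂ,
        ‖φ ⟨y n, h⟩ - ((α (c.2 φ) : ℂ) * (M : ℂ) ^ (2 * n))‖ ≤ 4 / ((M : ℝ) ^ (2 * n)) ^ 2 := by
    intro n hn hn1
    have hMn : (4 : ℝ) ≤ (M : ℝ) ^ (2 * n) := by
      calc (4 : ℝ) = 2 ^ 2 := by norm_num
        _ ≤ (M : ℝ) ^ 2 := pow_le_pow_left₀ (by norm_num) hMR 2
        _ ≤ (M : ℝ) ^ (2 * n) := pow_le_pow_right₀ (by linarith) (by omega)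
    have hsep : ∀ i j : Fin d, i ≠ j → (M : ℝ) ^ (2 * n) ≤
        |(((α i * M ^ (2 * n) : ℤ)) : ℝ) - ((α j * M ^ (2 * n) : ℤ) : ℝ)| := by
      intro i j hij
      have h1 : (1 : ℤ) ≤ |α i - α j| := Int.one_le_abs (sub_ne_zero.mpr fun h ↦ hij (hα h))
      have h2 : (1 : ℝ) ≤ |(α i : ℝ) - α j| := by exact_mod_cast h1
      push_cast
      rw [← sub_mul, abs_mul, abs_of_nonneg (by positivity : (0 : ℝ) ≤ (M : ℝ) ^ (2 * n))]
      exact le_mul_of_one_le_left (by positivity) h2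
    have hsepZ : ∀ i j : Fin d, i ≠ j → 3 ≤ |α i * M ^ (2 * n) - α j * M ^ (2 * n)| := by
      intro i j hij
      have h1 := hsep i j hij
      have h2 : ((3 : ℤ) : ℝ) ≤ ((|α i * M ^ (2 * n) - α j * M ^ (2 * n)| : ℤ) : ℝ) := by
        push_cast at h1 ⊢
        linarith
      exact_mod_cast h2
    obtain ⟨ρ, hρinj, hroot, hclose⟩ := exists_roots (by omega) hsepZ
    choose π hπ using hom_complex (by omega) (hy n hn) hρinj hroot
    refine ⟨⟨⟨ℚ⟮y n⟯, n, hn, rfl⟩, π⟩, mem_adjoin_simple_self ℚ (y n), fun φ ↦ ?_⟩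
    have h1 : φ ⟨y n, mem_adjoin_simple_self ℚ (y n)⟩ = (ρ (π φ) : ℂ) := hπ φ
    rw [h1]
    have h2 := root_close hd (fun m ↦ α m * M ^ (2 * n)) (T := (M : ℝ) ^ (2 * n)) (by linarith)
      hsep (ρ := ρ (π φ)) (m := π φ) (by
        have := hroot (π φ)
        rwa [aeval_gpoly] at this) (hclose _)
    have h3 : (ρ (π φ) : ℂ) - ((α (π φ) : ℂ) * (M : ℂ) ^ (2 * n)) =
        ((ρ (π φ) - ((α (π φ) * M ^ (2 * n) : ℤ) : ℝ) : ℝ) : ℂ) := by
      push_cast; ring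
    show ‖(ρ (π φ) : ℂ) - ((α (π φ) : ℂ) * (M : ℂ) ^ (2 * n))‖ ≤ _
    rw [h3, Complex.norm_real]
    exact h2
  -- pigeonhole
  set κ := Nat.card (Σ F : S₀, ((F.1 →+* ℂ) → Fin d)) with hκ
  have hFt := Fintype.ofFinite (Σ F : S₀, ((F.1 →+* ℂ) → Fin d))
  choose col hmem hcol' using fun i : Fin (κ + 1) ↦ hcol (n₀ + κ + 2 + i) (by omega) (by omega)
  obtain ⟨i', j', hij', hcij'⟩ := Fintype.exists_ne_map_eq_of_card_lt col (by
    rw [Fintype.card_fin, ← Nat.card_eq_fintype_card]; omega)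
  obtain ⟨i, j, hij, hcij⟩ : ∃ i j : Fin (κ + 1), i < j ∧ col i = col j := by
    rcases lt_or_gt_of_ne hij' with h | h
    · exact ⟨i', j', h, hcij'⟩
    · exact ⟨j', i', h, hcij'.symm⟩
  have hij2 : (i : ℕ) < j := hij
  have hj2 := j.2
  set n := n₀ + κ + 2 + (i : ℕ) with hn
  set n' := n₀ + κ + 2 + (j : ℕ) with hn'
  -- both elements in the same field
  have H1 : ∃ h : y n ∈ (col i).1.1, ∀ φ : (col i).1.1 →+* ℂ,
        ‖φ ⟨y n, h⟩ - ((α ((col i).2 φ) : ℂ) * (M : ℂ) ^ (2 * n))‖ ≤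
          4 / ((M : ℝ) ^ (2 * n)) ^ 2 := ⟨hmem i, hcol' i⟩
  have H2 : ∃ h : y n' ∈ (col i).1.1, ∀ φ : (col i).1.1 →+* ℂ,
        ‖φ ⟨y n', h⟩ - ((α ((col i).2 φ) : ℂ) * (M : ℂ) ^ (2 * n'))‖ ≤
          4 / ((M : ℝ) ^ (2 * n')) ^ 2 := by
    rw [hcij]
    exact ⟨hmem j, hcol' j⟩
  obtain ⟨h1, H1⟩ := H1
  obtain ⟨h2, H2⟩ := H2
  have hNFc := hNF (col i).1
  set F := (col i).1.1 with hF
  set u : F := ⟨y n, h1⟩ with hu
  set v : F := ⟨y n', h2⟩ with hv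
  have hval : ∀ z : F, ((z : F) : Ω) = algebraMap F Ω z := fun z ↦ rfl
  have hu0 : ∏ m, (u - ((α m * M ^ (2 * n) : ℤ) : F)) = 1 := by
    apply (algebraMap F Ω).injective
    have := hy n (by omega)
    rw [aeval_gpoly, sub_eq_zero] at this
    rw [map_prod, map_one, ← this]
    refine prod_congr rfl fun m _ ↦ ?_
    rw [map_sub, map_intCast]
    rfl
  have hv0 : ∏ m, (v - ((α m * M ^ (2 * n') : ℤ) : F)) = 1 := by
    apply (algebraMap F Ω).injective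
    have := hy n' (by omega)
    rw [aeval_gpoly, sub_eq_zero] at this
    rw [map_prod, map_one, ← this]
    refine prod_congr rfl fun m _ ↦ ?_
    rw [map_sub, map_intCast]
    rfl
  have huint : IsIntegral ℤ u := y_integral_int (A := fun m ↦ α m * M ^ (2 * n)) (by omega)
    (by rw [aeval_gpoly, hu0, sub_self])
  have hvint : IsIntegral ℤ v := y_integral_int (A := fun m ↦ α m * M ^ (2 * n')) (by omega)
    (by rw [aeval_gpoly, hv0, sub_self])
  have hintc : ∀ c : ℤ, IsIntegral ℤ (c : F) := fun c ↦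
    isIntegral_algebraMap (R := ℤ) (A := F) (x := c)
  -- powers of `M`
  set t : ℝ := (M : ℝ) ^ (2 * n) with ht
  set t' : ℝ := (M : ℝ) ^ (2 * n') with ht'
  have htpos : 0 < t := by positivity
  have htt' : t ≤ t' := pow_le_pow_right₀ (by linarith) (by omega)
  have ht't : t' ≤ (M : ℝ) ^ (2 * κ) * t := by
    rw [ht, ht', ← pow_add]
    exact pow_le_pow_right₀ (by linarith) (by omega)
  have htbig : 16 * (M : ℝ) ^ (2 * κ) ≤ t := by
    have h16 : (16 : ℝ) ≤ (M : ℝ) ^ 4 := by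
      calc (16 : ℝ) = 2 ^ 4 := by norm_num
        _ ≤ (M : ℝ) ^ 4 := pow_le_pow_left₀ (by norm_num) hMR 4
    calc 16 * (M : ℝ) ^ (2 * κ) ≤ (M : ℝ) ^ 4 * (M : ℝ) ^ (2 * κ) :=
          mul_le_mul_of_nonneg_right h16 (by positivity)
      _ = (M : ℝ) ^ (4 + 2 * κ) := by rw [pow_add]
      _ ≤ t := pow_le_pow_right₀ (by linarith) (by omega)
  have hMκ : (1 : ℝ) ≤ (M : ℝ) ^ (2 * κ) := one_le_pow₀ (by linarith)
  -- the small element
  have hw0 : ((M ^ (2 * n') : ℤ) : F) * u - ((M ^ (2 * n) : ℤ) : F) * v = 0 := by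
    apply eq_zero_of_small
    · exact ((hintc _).mul huint).sub ((hintc _).mul hvint)
    · intro φ
      have e : φ (((M ^ (2 * n') : ℤ) : F) * u - ((M ^ (2 * n) : ℤ) : F) * v) =
          (t' : ℂ) * (φ u - ((α ((col i).2 φ) : ℂ) * (M : ℂ) ^ (2 * n))) -
          (t : ℂ) * (φ v - ((α ((col i).2 φ) : ℂ) * (M : ℂ) ^ (2 * n'))) := by
        rw [map_sub, map_mul, map_mul, map_intCast, map_intCast, ht, ht']
        push_cast
        ring
      rw [e]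
      refine lt_of_le_of_lt (norm_sub_le _ _) ?_
      rw [norm_mul, norm_mul, Complex.norm_real, Complex.norm_real, Real.norm_eq_abs,
        Real.norm_eq_abs, abs_of_pos htpos, abs_of_pos (htpos.trans_le htt')]
      have h5 := H1 φ
      have h6 := H2 φ
      have h7 : t' * ‖φ u - ((α ((col i).2 φ) : ℂ) * (M : ℂ) ^ (2 * n))‖ ≤ 1 / 4 := by
        calc _ ≤ ((M : ℝ) ^ (2 * κ) * t) * (4 / t ^ 2) :=
              mul_le_mul ht't h5 (norm_nonneg _) (by positivity)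
          _ = 4 * (M : ℝ) ^ (2 * κ) / t := by field_simp
          _ ≤ 1 / 4 := by
              rw [div_le_iff₀ htpos]
              linarith
      have h8 : t * ‖φ v - ((α ((col i).2 φ) : ℂ) * (M : ℂ) ^ (2 * n'))‖ ≤ 1 / 4 := by
        have ht'pos : 0 < t' := htpos.trans_le htt'
        calc _ ≤ t' * (4 / t' ^ 2) :=
              mul_le_mul htt' h6 (norm_nonneg _) ht'pos.le
          _ = 4 / t' := by field_simp
          _ ≤ 1 / 4 := by
              rw [div_le_iff₀ ht'pos]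
              linarith
      linarith
  -- contradiction
  have hMF : (M : F) ≠ 0 := by
    have : M ≠ 0 := by omega
    exact_mod_cast this
  have hvu : v = (M : F) ^ (2 * (n' - n)) * u := by
    have h5 : (M : F) ^ (2 * n) ≠ 0 := pow_ne_zero _ hMF
    apply mul_left_cancel₀ h5
    have h6 : 2 * n' = 2 * n + 2 * (n' - n) := by omega
    have h7 := sub_eq_zero.mp hw0
    push_cast at h7
    rw [← h7, ← mul_assoc, ← pow_add, ← h6]
  have hcd : ((M : F) ^ (2 * (n' - n))) ^ d = 1 := by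
    have h5 : ∏ m, (v - ((α m * M ^ (2 * n') : ℤ) : F)) =
        ((M : F) ^ (2 * (n' - n))) ^ d * ∏ m, (u - ((α m * M ^ (2 * n) : ℤ) : F)) := by
      have h6 : ((M : F) ^ (2 * (n' - n))) ^ d = ∏ _m : Fin d, (M : F) ^ (2 * (n' - n)) := by simp
      rw [h6, ← prod_mul_distrib]
      refine prod_congr rfl fun m _ ↦ ?_
      have h7 : 2 * n' = 2 * n + 2 * (n' - n) := by omega
      rw [hvu]
      push_cast
      rw [h7, pow_add]
      have h8 : 2 * n + 2 * (n' - n) - n = n + 2 * (n' - n) := by omega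
      ring
    rw [hv0, hu0, mul_one] at h5
    exact h5.symm
  have hZ : (M ^ (2 * (n' - n))) ^ d = 1 := by exact_mod_cast hcd
  rw [← pow_mul] at hZ
  have h9 : (1 : ℤ) < M ^ (2 * (n' - n) * d) := by
    apply one_lt_pow₀ (by omega)
    have h10 : 0 < 2 * (n' - n) := by omega
    have h11 : 0 < d := by omega
    positivity
  omega

end Pool.Agent.Helper42.SL
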