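import Pool.Agent.Helper87.SL.Goals

set_option autoImplicit false

open Finset Filter Topology

namespace Pool.Agent.Helper42.SL

open Pool.Agent.Helper33.Schur Pool.Agent.Helper87.SL

theorem exists_min (k n : ℕ) (hk : 1 ≤ k) : ∃ χ : ℕ → Fin k, schurMono χ n = schurMin k n := by
  have hne : (Set.range (fun χ : ℕ → Fin k => schurMono χ n)).Nonempty :=
    ⟨_, ⟨fun _ => ⟨0, hk⟩, rfl⟩⟩
  obtain ⟨χ, hχ⟩ := Nat.sInf_mem hne
  exact ⟨χ, hχ⟩

theorem gMAIN : Pool.Agent.Helper87.SL.G_MAIN := by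
  intro hU hL k hk
  set D : Set ℝ := {d : ℝ | ∃ (q s : ℕ) (c : ℕ → ℕ → Fin k), 1 ≤ q ∧ 1 ≤ s ∧
    d = Pool.Agent.Helper87.SL.dens q s c} with hD
  have hne : D.Nonempty :=
    ⟨Pool.Agent.Helper87.SL.dens (k := k) 1 1 (fun _ _ => ⟨0, hk⟩), 1, 1,
      (fun _ _ => ⟨0, hk⟩), le_refl _, le_refl _, rfl⟩
  have hbd : BddBelow D := by
    refine ⟨0, ?_⟩
    rintro d ⟨q, s, c, -, -, rfl⟩
    simp only [Pool.Agent.Helper87.SL.dens]
    positivity
  have hglb : IsGLB D (sInf D) := isGLB_csInf hne hbd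
  refine ⟨sInf D, ?_, hglb⟩
  rw [tendsto_order]
  constructor
  · intro a ha
    obtain ⟨n0, hn0⟩ := hL k ((sInf D - a) / 2) (by linarith)
    filter_upwards [eventually_ge_atTop n0] with n hn
    obtain ⟨χ, hχ⟩ := exists_min k n hk
    obtain ⟨q, s, c, hq, hs, hle⟩ := hn0 n hn χ
    have h1 : sInf D ≤ Pool.Agent.Helper87.SL.dens q s c := csInf_le hbd ⟨q, s, c, hq, hs, rfl⟩
    rw [hχ] at hle
    linarith
  · intro a ha
    obtain ⟨d, hdD, hda⟩ := exists_lt_of_csInf_lt hne ha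
    obtain ⟨q, s, c, hq, hs, rfl⟩ := hdD
    obtain ⟨C, hC⟩ := hU k q s c hq hs
    have hlim : Tendsto (fun N : ℕ => Pool.Agent.Helper87.SL.dens q s c +
        C * ((1 : ℝ) / (N : ℝ) + 1 / (N : ℝ) * (1 / (N : ℝ))))
        atTop (𝓝 (Pool.Agent.Helper87.SL.dens q s c + C * (0 + 0 * 0))) := by
      have h0 : Tendsto (fun N : ℕ => (1 : ℝ) / (N : ℝ)) atTop (𝓝 0) :=
        tendsto_one_div_atTop_nhds_zero_nat
      exact tendsto_const_nhds.add ((h0.add (h0.mul h0)).const_mul C)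
    have hlt : Pool.Agent.Helper87.SL.dens q s c + C * (0 + 0 * 0) < a := by simpa using hda
    filter_upwards [hlim.eventually (gt_mem_nhds hlt), eventually_ge_atTop 1] with N hN hN1
    have hNpos : (0 : ℝ) < (N : ℝ) := by exact_mod_cast hN1
    have h0 : schurMin k N ≤ schurMono (strc q s c N) N :=
      Nat.sInf_le (Set.mem_range_self (strc q s c N))
    have h1 : (schurMin k N : ℝ) ≤ (schurMono (strc q s c N) N : ℝ) := by
      exact_mod_cast h0
    have h2 := (abs_le.1 (hC N)).2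
    have h3 : (schurMin k N : ℝ) / (N : ℝ) ^ 2 ≤
        Pool.Agent.Helper87.SL.dens q s c +
          C * ((1 : ℝ) / (N : ℝ) + 1 / (N : ℝ) * (1 / (N : ℝ))) := by
      rw [div_le_iff₀ (by positivity)]
      have : (Pool.Agent.Helper87.SL.dens q s c +
          C * ((1 : ℝ) / (N : ℝ) + 1 / (N : ℝ) * (1 / (N : ℝ)))) * (N : ℝ) ^ 2
          = Pool.Agent.Helper87.SL.dens q s c * (N : ℝ) ^ 2 + C * (N + 1) := by
        field_simp
      rw [this]
      linarith
    exact lt_of_le_of_lt h3 hN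

end Pool.Agent.Helper42.SL
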