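import Mathlib

/-!
# Ultrametric estimates for products, powers, determinants and polynomials
-/

namespace Pool.Agent.Helper42.SL

open Finset

section

variable {k : Type*} [NormedField k] [IsUltrametricDist k]

theorem norm_sub_le_max'' (x y : k) : ‖x - y‖ ≤ max ‖x‖ ‖y‖ := by
  rw [sub_eq_add_neg, ← norm_neg y]
  exact IsUltrametricDist.norm_add_le_max _ _

omit [IsUltrametricDist k] in
theorem norm_prod_le_pow {ι : Type*} (s : Finset ι) (a : ι → k) {C : ℝ}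
    (ha : ∀ i ∈ s, ‖a i‖ ≤ C) : ‖∏ i ∈ s, a i‖ ≤ C ^ s.card := by
  rw [norm_prod]
  calc ∏ i ∈ s, ‖a i‖ ≤ ∏ _i ∈ s, C := prod_le_prod (fun i _ ↦ norm_nonneg _) ha
    _ = C ^ s.card := by rw [prod_const]

theorem norm_prod_sub_prod_le {ι : Type*} (s : Finset ι) (a b : ι → k) {C c : ℝ} (hC : 1 ≤ C)
    (hc : 0 ≤ c) (ha : ∀ i ∈ s, ‖a i‖ ≤ C) (hb : ∀ i ∈ s, ‖b i‖ ≤ C)
    (h : ∀ i ∈ s, ‖a i - b i‖ ≤ c) :
    ‖∏ i ∈ s, a i - ∏ i ∈ s, b i‖ ≤ C ^ s.card * c := by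
  classical
  induction s using Finset.induction_on with
  | empty => simpa using hc
  | insert i s hi ih =>
    have ih' := ih (fun j hj ↦ ha j (mem_insert_of_mem hj)) (fun j hj ↦ hb j (mem_insert_of_mem hj))
      (fun j hj ↦ h j (mem_insert_of_mem hj))
    rw [prod_insert hi, prod_insert hi, card_insert_of_notMem hi]
    have e : a i * ∏ j ∈ s, a j - b i * ∏ j ∈ s, b j =
        a i * (∏ j ∈ s, a j - ∏ j ∈ s, b j) + (a i - b i) * ∏ j ∈ s, b j := by ring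
    have hC0 : 0 ≤ C := le_trans zero_le_one hC
    rw [e]
    refine (IsUltrametricDist.norm_add_le_max _ _).trans (max_le ?_ ?_)
    · rw [norm_mul, pow_succ, mul_comm (C ^ s.card) C, mul_assoc]
      exact mul_le_mul (ha i (mem_insert_self _ _)) ih' (norm_nonneg _) hC0
    · rw [norm_mul]
      have h1 := norm_prod_le_pow s b (fun j hj ↦ hb j (mem_insert_of_mem hj))
      have h2 : C ^ s.card ≤ C ^ (s.card + 1) := pow_le_pow_right₀ hC (Nat.le_succ _)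
      calc ‖a i - b i‖ * ‖∏ j ∈ s, b j‖ ≤ c * C ^ (s.card + 1) :=
            mul_le_mul (h i (mem_insert_self _ _)) (h1.trans h2) (norm_nonneg _) hc
        _ = _ := mul_comm _ _

theorem norm_pow_sub_pow_le {x y : k} (hx : ‖x‖ ≤ 1) (hy : ‖y‖ ≤ 1) (n : ℕ) :
    ‖x ^ n - y ^ n‖ ≤ ‖x - y‖ := by
  have := norm_prod_sub_prod_le (range n) (fun _ ↦ x) (fun _ ↦ y) (C := 1) (c := ‖x - y‖) le_rfl
    (norm_nonneg _) (fun _ _ ↦ hx) (fun _ _ ↦ hy) (fun _ _ ↦ le_rfl)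
  simpa using this

/-- Determinants of close matrices are close. -/
theorem norm_det_sub_det_le {n : ℕ} (M N : Matrix (Fin n) (Fin n) k) {C c : ℝ} (hC : 1 ≤ C)
    (hc : 0 ≤ c) (hM : ∀ i j, ‖M i j‖ ≤ C) (hN : ∀ i j, ‖N i j‖ ≤ C)
    (h : ∀ i j, ‖M i j - N i j‖ ≤ c) : ‖M.det - N.det‖ ≤ C ^ n * c := by
  rw [Matrix.det_apply, Matrix.det_apply, ← sum_sub_distrib]
  have hC0 : 0 ≤ C := le_trans zero_le_one hC
  refine IsUltrametricDist.norm_sum_le_of_forall_le_of_nonneg (by positivity) fun σ _ ↦ ?_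
  rw [← smul_sub]
  have h1 : ‖∏ i, M (σ i) i - ∏ i, N (σ i) i‖ ≤ C ^ n * c := by
    have := norm_prod_sub_prod_le univ (fun i ↦ M (σ i) i) (fun i ↦ N (σ i) i) hC hc
      (fun i _ ↦ hM _ _) (fun i _ ↦ hN _ _) (fun i _ ↦ h _ _)
    simpa using this
  rcases Int.units_eq_one_or (Equiv.Perm.sign σ) with hσ | hσ
  · rw [hσ, one_smul]; exact h1
  · rw [hσ, Units.neg_smul, one_smul, norm_neg]; exact h1

/-- The first order Taylor expansion of a power. -/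
theorem norm_pow_taylor {x e : k} (hx : ‖x‖ ≤ 1) (he : ‖e‖ ≤ 1) (hn : ∀ n : ℕ, ‖(n : k)‖ ≤ 1)
    (n : ℕ) : ‖(x + e) ^ (n + 1) - x ^ (n + 1) - (n + 1 : ℕ) * x ^ n * e‖ ≤ ‖e‖ ^ 2 := by
  have hxe : ‖x + e‖ ≤ 1 := (IsUltrametricDist.norm_add_le_max _ _).trans (max_le hx he)
  induction n with
  | zero =>
    have : (x + e) ^ (0 + 1) - x ^ (0 + 1) - ((0 + 1 : ℕ) : k) * x ^ 0 * e = 0 := by
      push_cast; ring
    rw [this, norm_zero]; positivity
  | succ n ih =>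
    have e1 : (x + e) ^ (n + 1 + 1) - x ^ (n + 1 + 1) - ((n + 1 + 1 : ℕ) : k) * x ^ (n + 1) * e =
        (x + e) * ((x + e) ^ (n + 1) - x ^ (n + 1) - ((n + 1 : ℕ) : k) * x ^ n * e) +
          ((n + 1 : ℕ) : k) * x ^ n * e ^ 2 := by
      push_cast; ring
    rw [e1]
    refine (IsUltrametricDist.norm_add_le_max _ _).trans (max_le ?_ ?_)
    · rw [norm_mul]
      calc _ ≤ 1 * ‖e‖ ^ 2 := mul_le_mul hxe ih (norm_nonneg _) zero_le_one
        _ = _ := one_mul _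
    · rw [norm_mul, norm_mul, norm_pow, norm_pow]
      have h1 : ‖((n + 1 : ℕ) : k)‖ * ‖x‖ ^ n ≤ 1 :=
        mul_le_one₀ (hn _) (by positivity) (pow_le_one₀ (norm_nonneg _) hx)
      calc _ ≤ 1 * ‖e‖ ^ 2 := mul_le_mul_of_nonneg_right h1 (by positivity)
        _ = _ := one_mul _

/-- The polynomial function `h(Z) = Z^d - ∏ (1 - A_m Z)`. -/
def hfun {d : ℕ} (A : Fin d → k) (z : k) : k := z ^ d - ∏ m, (1 - A m * z)

/-- `h` multiplies small distances by `|d|`. -/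
theorem norm_hfun_sub {d : ℕ} (A : Fin d → k) {τ : ℝ} (hA : ∀ m, ‖A m‖ ≤ τ)
    (hn : ∀ n : ℕ, ‖(n : k)‖ ≤ 1) (hτ : τ < ‖(d : k)‖) {x y : k} (hx : ‖x‖ = 1)
    (hxy : ‖y - x‖ < ‖(d : k)‖) : ‖hfun A y - hfun A x‖ = ‖(d : k)‖ * ‖y - x‖ := by
  obtain rfl | hd := Nat.eq_zero_or_pos d
  · simp at hxy
    exact absurd hxy (not_lt.mpr (norm_nonneg _))
  obtain ⟨n, rfl⟩ : ∃ n, d = n + 1 := ⟨d - 1, by omega⟩
  have hτ0 : 0 ≤ τ := (norm_nonneg _).trans (hA ⟨0, hd⟩)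
  set e := y - x with he
  have hye : y = x + e := by rw [he]; ring
  by_cases he0 : e = 0
  · rw [hye, he0, add_zero, sub_self, norm_zero, mul_zero]
  have hepos : 0 < ‖e‖ := norm_pos_iff.mpr he0
  have he1 : ‖e‖ ≤ 1 := hxy.le.trans (hn _)
  have hτ1 : τ ≤ 1 := hτ.le.trans (hn _)
  have hy1 : ‖y‖ ≤ 1 := by
    rw [hye]; exact (IsUltrametricDist.norm_add_le_max _ _).trans (max_le hx.le he1)
  have h1 := norm_pow_taylor hx.le he1 hn n
  have hfac : ∀ z : k, ‖z‖ ≤ 1 → ∀ m, ‖1 - A m * z‖ ≤ 1 := by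
    intro z hz m
    refine (norm_sub_le_max'' _ _).trans (max_le ?_ ?_)
    · rw [norm_one]
    · rw [norm_mul]
      exact mul_le_one₀ ((hA m).trans hτ1) (norm_nonneg _) hz
  have h2 : ‖∏ m, (1 - A m * y) - ∏ m, (1 - A m * x)‖ ≤ τ * ‖e‖ := by
    have := norm_prod_sub_prod_le univ (fun m ↦ 1 - A m * y) (fun m ↦ 1 - A m * x) (C := 1)
      (c := τ * ‖e‖) le_rfl (by positivity) (fun m _ ↦ hfac y hy1 m) (fun m _ ↦ hfac x hx.le m)
      (fun m _ ↦ by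
        have : 1 - A m * y - (1 - A m * x) = -(A m * e) := by rw [he]; ring
        rw [this, norm_neg, norm_mul]
        exact mul_le_mul_of_nonneg_right (hA m) (norm_nonneg _))
    simpa using this
  have e2 : hfun A y - hfun A x = ((n + 1 : ℕ) : k) * x ^ n * e +
      (((x + e) ^ (n + 1) - x ^ (n + 1) - (n + 1 : ℕ) * x ^ n * e) -
        (∏ m, (1 - A m * y) - ∏ m, (1 - A m * x))) := by
    simp only [hfun]
    rw [← hye]
    ring
  have hmain : ‖((n + 1 : ℕ) : k) * x ^ n * e‖ = ‖((n + 1 : ℕ) : k)‖ * ‖e‖ := by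
    rw [norm_mul, norm_mul, norm_pow, hx, one_pow, mul_one]
  have hsmall : ‖((x + e) ^ (n + 1) - x ^ (n + 1) - (n + 1 : ℕ) * x ^ n * e) -
        (∏ m, (1 - A m * y) - ∏ m, (1 - A m * x))‖ < ‖((n + 1 : ℕ) : k) * x ^ n * e‖ := by
    rw [hmain]
    refine lt_of_le_of_lt (norm_sub_le_max'' _ _) (max_lt ?_ ?_)
    · calc _ ≤ ‖e‖ ^ 2 := h1
        _ = ‖e‖ * ‖e‖ := by ring
        _ < _ := mul_lt_mul_of_pos_right hxy hepos
    · calc _ ≤ τ * ‖e‖ := h2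
        _ < _ := mul_lt_mul_of_pos_right hτ hepos
  rw [e2, IsUltrametricDist.norm_add_eq_max_of_norm_ne_norm hsmall.ne', max_eq_left hsmall.le,
    hmain]

/-- A root of `h` with small `A` has absolute value `1`. -/
theorem norm_eq_one_of_root {d : ℕ} (hd : 0 < d) (A : Fin d → k) {τ : ℝ}
    (hA : ∀ m, ‖A m‖ ≤ τ) (hτ : τ < 1) {z : k} (hz : hfun A z = 0) : ‖z‖ = 1 := by
  have hz' : z ^ d = ∏ m, (1 - A m * z) := sub_eq_zero.mp hz
  have hτ0 : 0 ≤ τ := (norm_nonneg _).trans (hA ⟨0, hd⟩)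
  by_cases h1 : τ * ‖z‖ < 1
  · have h2 : ∀ m, ‖1 - A m * z‖ = 1 := by
      intro m
      have h3 : ‖A m * z‖ < 1 := by
        rw [norm_mul]
        exact lt_of_le_of_lt (mul_le_mul_of_nonneg_right (hA m) (norm_nonneg _)) h1
      rw [sub_eq_add_neg, IsUltrametricDist.norm_add_eq_max_of_norm_ne_norm, norm_neg, norm_one,
        max_eq_left h3.le]
      rw [norm_neg, norm_one]
      exact h3.ne'
    have h4 : ‖z‖ ^ d = 1 := by
      rw [← norm_pow, hz', norm_prod]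
      exact prod_eq_one fun m _ ↦ h2 m
    exact (pow_eq_one_iff_of_nonneg (norm_nonneg _) hd.ne').mp h4
  · exfalso
    push Not at h1
    have hz1 : 1 < ‖z‖ := by
      by_contra hle
      push Not at hle
      have : τ * ‖z‖ ≤ τ := mul_le_of_le_one_right hτ0 hle
      linarith
    have h2 : ∀ m, ‖1 - A m * z‖ ≤ τ * ‖z‖ := by
      intro m
      refine (norm_sub_le_max'' _ _).trans (max_le ?_ ?_)
      · rw [norm_one]; exact h1
      · rw [norm_mul]; exact mul_le_mul_of_nonneg_right (hA m) (norm_nonneg _)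
    have h3 : ‖z‖ ^ d ≤ (τ * ‖z‖) ^ d := by
      rw [← norm_pow, hz']
      have := norm_prod_le_pow univ (fun m ↦ 1 - A m * z) (fun m _ ↦ h2 m)
      simpa using this
    have h4 : τ * ‖z‖ < ‖z‖ := mul_lt_of_lt_one_left (by linarith) hτ
    have h5 : (τ * ‖z‖) ^ d < ‖z‖ ^ d := pow_lt_pow_left₀ h4 (by positivity) hd.ne'
    linarith

end

section poly

variable {k : Type*} [NormedField k] [IsUltrametricDist k]

open Polynomial

theorem exists_norm_eval_le (P : k[X]) : ∃ C : ℝ, 1 ≤ C ∧ (∀ x : k, ‖x‖ ≤ 1 → ‖P.eval x‖ ≤ C) ∧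
    ∀ x y : k, ‖x‖ ≤ 1 → ‖y‖ ≤ 1 → ‖P.eval x - P.eval y‖ ≤ C * ‖x - y‖ := by
  let C : ℝ := 1 + ∑ i ∈ range (P.natDegree + 1), ‖P.coeff i‖
  have hC : ∀ i ∈ range (P.natDegree + 1), ‖P.coeff i‖ ≤ C := by
    intro i hi
    have := single_le_sum (f := fun i ↦ ‖P.coeff i‖) (fun i _ ↦ norm_nonneg _) hi
    simp only [C]
    linarith
  have hC1 : 1 ≤ C := by
    have : 0 ≤ ∑ i ∈ range (P.natDegree + 1), ‖P.coeff i‖ := sum_nonneg fun i _ ↦ norm_nonneg _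
    simp only [C]
    linarith
  refine ⟨C, hC1, fun x hx ↦ ?_, fun x y hx hy ↦ ?_⟩
  · rw [Polynomial.eval_eq_sum_range]
    refine IsUltrametricDist.norm_sum_le_of_forall_le_of_nonneg (by linarith) fun i hi ↦ ?_
    rw [norm_mul, norm_pow]
    calc _ ≤ C * 1 := mul_le_mul (hC i hi) (pow_le_one₀ (norm_nonneg _) hx) (by positivity)
          (by linarith)
      _ = C := mul_one _
  · rw [Polynomial.eval_eq_sum_range, Polynomial.eval_eq_sum_range, ← sum_sub_distrib]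
    refine IsUltrametricDist.norm_sum_le_of_forall_le_of_nonneg
      (mul_nonneg (by linarith) (norm_nonneg _)) fun i hi ↦ ?_
    rw [← mul_sub, norm_mul]
    exact mul_le_mul (hC i hi) (norm_pow_sub_pow_le hx hy i) (norm_nonneg _) (by linarith)

/-- A polynomial not divisible by `X ^ (N+1)` is bounded below by `c |x| ^ N` near `0`. -/
theorem exists_le_norm_eval (P : k[X]) (N : ℕ) (hP : ¬ X ^ (N + 1) ∣ P) :
    ∃ c : ℝ, 0 < c ∧ ∃ ρ : ℝ, 0 < ρ ∧ ∀ x : k, ‖x‖ < ρ → c * ‖x‖ ^ N ≤ ‖P.eval x‖ := by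
  have hP0 : P ≠ 0 := by
    rintro rfl
    exact hP (dvd_zero _)
  obtain ⟨Q, hQ⟩ : X ^ P.natTrailingDegree ∣ P := by
    rw [X_pow_dvd_iff]
    intro i hi
    exact coeff_eq_zero_of_lt_natTrailingDegree hi
  set n := P.natTrailingDegree with hn
  have hnN : n ≤ N := by
    by_contra hlt
    push Not at hlt
    exact hP ((pow_dvd_pow X hlt).trans ⟨Q, hQ⟩)
  have hQ0 : Q.eval 0 ≠ 0 := by
    have h1 : P.coeff n = Q.coeff 0 := by
      conv_lhs => rw [hQ]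
      rw [mul_comm, coeff_mul_X_pow', if_pos le_rfl, Nat.sub_self]
    rw [← coeff_zero_eq_eval_zero, ← h1]
    exact trailingCoeff_nonzero_iff_nonzero.mpr hP0
  obtain ⟨C, hC1, -, hC⟩ := exists_norm_eval_le Q
  have hQpos : 0 < ‖Q.eval 0‖ := norm_pos_iff.mpr hQ0
  refine ⟨‖Q.eval 0‖, hQpos, min 1 (‖Q.eval 0‖ / C), lt_min one_pos (by positivity),
    fun x hx ↦ ?_⟩
  have hx1 : ‖x‖ < 1 := lt_of_lt_of_le hx (min_le_left _ _)
  have hx2 : ‖x‖ < ‖Q.eval 0‖ / C := lt_of_lt_of_le hx (min_le_right _ _)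
  have h2 : ‖Q.eval x - Q.eval 0‖ < ‖Q.eval 0‖ := by
    refine lt_of_le_of_lt (hC x 0 hx1.le (by simp)) ?_
    rw [sub_zero]
    calc C * ‖x‖ < C * (‖Q.eval 0‖ / C) := mul_lt_mul_of_pos_left hx2 (by linarith)
      _ = _ := by field_simp
  have h3 : ‖Q.eval x‖ = ‖Q.eval 0‖ := by
    have : Q.eval x = Q.eval 0 + (Q.eval x - Q.eval 0) := by ring
    rw [this, IsUltrametricDist.norm_add_eq_max_of_norm_ne_norm h2.ne', max_eq_left h2.le]
  rw [hQ, eval_mul, eval_pow, eval_X, norm_mul, norm_pow, h3, mul_comm]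
  exact mul_le_mul_of_nonneg_right (pow_le_pow_of_le_one (norm_nonneg _) hx1.le hnN) hQpos.le

end poly

end Pool.Agent.Helper42.SL
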