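import Pool.Agent.Helper51.SigLeo.Estimate
import Pool.Agent.Helper42.SL.Ultra

/-!
# The logarithm of `(1 - z) / (1 + z)`
-/

namespace Pool.Agent.Helper42.SL

open Finset Pool.Agent.Helper51.SigLeo

variable {p : ℕ} [hp : Fact p.Prime] {k : Type*} [NormedField k] [NormedAlgebra ℚ_[p] k]
  [IsUltrametricDist k]

omit hp [NormedAlgebra ℚ_[p] k] [IsUltrametricDist k] in
theorem sum_odd [CharZero k] (z : k) (N : ℕ) :
    ∑ i ∈ range (2 * (N + 1)),
      (-(z ^ (i + 1) / ((i : k) + 1)) - (-1) ^ i * z ^ (i + 1) / ((i : k) + 1)) =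
      -(2 * z * ∑ i ∈ range (N + 1), z ^ (2 * i) / (2 * (i : k) + 1)) := by
  induction N with
  | zero =>
    have : 2 * (0 + 1) = 1 + 1 := rfl
    rw [this, sum_range_succ, sum_range_one, sum_range_one]
    push_cast
    ring
  | succ N ih =>
    have : 2 * (N + 1 + 1) = 2 * (N + 1) + 1 + 1 := by ring
    rw [this, sum_range_succ, sum_range_succ, ih, sum_range_succ _ (N + 1)]
    have h1 : ((-1 : k)) ^ (2 * (N + 1)) = 1 := by rw [pow_mul]; norm_num
    have h2 : ((-1 : k)) ^ (2 * (N + 1) + 1) = -1 := by rw [pow_succ, h1]; ring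
    rw [h1, h2]
    push_cast
    have h3 : (2 * ((N : k) + 1) + 1) ≠ 0 := by
      have : ((2 * (N + 1) + 1 : ℕ) : k) ≠ 0 := Nat.cast_ne_zero.mpr (by omega)
      push_cast at this
      exact this
    have h4 : (2 * ((N : k) + 1) + 1 + 1) ≠ 0 := by
      have : ((2 * (N + 1) + 1 + 1 : ℕ) : k) ≠ 0 := Nat.cast_ne_zero.mpr (by omega)
      push_cast at this
      exact this
    field_simp
    ring

/-- The logarithm of `(1 - z) / (1 + z)`. -/
theorem log_est (L : IwasawaLog p k) {z : k} (hz : ‖z‖ ≤ 1 / 2) (u : kˣ)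
    (hu : (u : k) * (1 + z) = 1 - z) (N : ℕ) :
    ‖L.toFun u + 2 * z * ∑ i ∈ range (N + 1), z ^ (2 * i) / (2 * (i : k) + 1)‖ ≤
      (2 * N + 3) * ‖z‖ ^ (2 * N + 3) := by
  have hch := charZero_of_padic p (k := k)
  have hz1 : ‖z‖ < 1 := lt_of_le_of_lt hz (by norm_num)
  have h1 : (1 + z) ≠ 0 := by
    intro h
    have : z = -1 := by linear_combination h
    rw [this, norm_neg, norm_one] at hz1
    exact lt_irrefl _ hz1
  have h2 : (1 - z) ≠ 0 := by
    intro h
    have : z = 1 := by linear_combination -h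
    rw [this, norm_one] at hz1
    exact lt_irrefl _ hz1
  set v : kˣ := Units.mk0 (1 + z) h1
  set w : kˣ := Units.mk0 (1 - z) h2
  have huvw : u * v = w := Units.ext hu
  have hL : L.toFun u = L.toFun w - L.toFun v := by
    rw [← huvw, L.map_mul]; ring
  have hv := L.hasSum v (by
    show ‖(1 + z) - 1‖ < 1
    rw [add_sub_cancel_left]; exact hz1)
  have hw := L.hasSum w (by
    show ‖(1 - z) - 1‖ < 1
    have : (1 - z) - 1 = -z := by ring
    rw [this, norm_neg]; exact hz1)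
  have hf : HasSum (fun n : ℕ ↦
      (-(z ^ (n + 1) / ((n : k) + 1)) - (-1) ^ n * z ^ (n + 1) / ((n : k) + 1)))
      (L.toFun u) := by
    rw [hL]
    refine HasSum.sub ?_ ?_
    · have e : (fun n : ℕ ↦ -(z ^ (n + 1) / ((n : k) + 1))) =
          fun n : ℕ ↦ (-1) ^ n * ((w : k) - 1) ^ (n + 1) / ((n : k) + 1) := by
        funext n
        have : (w : k) - 1 = -z := by show (1 - z) - 1 = -z; ring
        have h5 : ((-1 : k)) ^ n * (-1) ^ n = 1 := by rw [← mul_pow]; norm_num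
        have h6 : (-z) ^ (n + 1) = -((-1) ^ n * z ^ (n + 1)) := by
          rw [neg_pow, pow_succ (-1 : k) n]; ring
        rw [this, h6]
        linear_combination (-(z ^ (n + 1) / ((n : k) + 1))) * (-h5)
      rw [e]; exact hw
    · have e : (fun n : ℕ ↦ (-1) ^ n * z ^ (n + 1) / ((n : k) + 1)) =
          fun n : ℕ ↦ (-1) ^ n * ((v : k) - 1) ^ (n + 1) / ((n : k) + 1) := by
        funext n
        have : (v : k) - 1 = z := by show (1 + z) - 1 = z; ring
        rw [this]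
      rw [e]; exact hv
  have hg := (hasSum_nat_add_iff' (2 * (N + 1))).mpr hf
  rw [sum_odd, sub_neg_eq_add] at hg
  rw [← hg.tsum_eq]
  refine IsUltrametricDist.norm_tsum_le_of_forall_le_of_nonneg (by positivity) fun j ↦ ?_
  set n := j + 2 * (N + 1) with hn
  have hn1 : (0 : ℝ) < ((n + 1 : ℕ) : ℝ) := by positivity
  have hinv : ‖((n : k) + 1)⁻¹‖ ≤ ((n + 1 : ℕ) : ℝ) := by
    have := one_div_le_norm_natCast p (k := k) (n + 1) (by omega)
    rw [norm_inv]
    have h3 : ((n : k) + 1) = ((n + 1 : ℕ) : k) := by push_cast; ring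
    rw [h3]
    rw [inv_le_comm₀ (lt_of_lt_of_le (by positivity) this) hn1]
    rwa [one_div] at this
  have hterm : ‖z ^ (n + 1) / ((n : k) + 1)‖ ≤ ((n + 1 : ℕ) : ℝ) * ‖z‖ ^ (n + 1) := by
    rw [div_eq_mul_inv, norm_mul, norm_pow, mul_comm]
    exact mul_le_mul_of_nonneg_right hinv (by positivity)
  have hbound : ((n + 1 : ℕ) : ℝ) * ‖z‖ ^ (n + 1) ≤ (2 * N + 3) * ‖z‖ ^ (2 * N + 3) := by
    have e : n + 1 = j + (2 * N + 3) := by omega
    rw [e, pow_add, ← mul_assoc]
    apply mul_le_mul_of_nonneg_right _ (by positivity)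
    have h8 : ‖z‖ ^ j ≤ (1 / 2) ^ j := pow_le_pow_left₀ (norm_nonneg _) hz j
    have h9 : (j : ℝ) + 1 ≤ 2 ^ j := by
      have := one_add_mul_le_pow (a := (1 : ℝ)) (by norm_num) j
      norm_num at this
      linarith
    have h10 : (1 / 2 : ℝ) ^ j * 2 ^ j = 1 := by rw [← mul_pow]; norm_num
    have h11 : (0 : ℝ) ≤ (1 / 2) ^ j := by positivity
    push_cast
    calc ((j : ℝ) + (2 * N + 3)) * ‖z‖ ^ j ≤ ((j : ℝ) + (2 * N + 3)) * (1 / 2) ^ j :=
          mul_le_mul_of_nonneg_left h8 (by positivity)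
      _ ≤ ((2 * N + 3) * 2 ^ j) * (1 / 2) ^ j := by
          apply mul_le_mul_of_nonneg_right _ h11
          nlinarith [(Nat.cast_nonneg j : (0 : ℝ) ≤ j), (Nat.cast_nonneg N : (0 : ℝ) ≤ N)]
      _ = 2 * N + 3 := by rw [mul_assoc, mul_comm (2 ^ j), h10, mul_one]
  refine (norm_sub_le_max'' _ _).trans (max_le ?_ ?_)
  · rw [norm_neg]
    exact hterm.trans hbound
  · rw [mul_div_assoc, norm_mul, norm_pow, norm_neg, norm_one, one_pow, one_mul]
    exact hterm.trans hbound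

end Pool.Agent.Helper42.SL
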