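import Pool.Agent.Helper42.SL.FieldF
import Pool.Agent.Helper42.SL.Ultra
import Pool.Agent.Helper51.SigLeo.Modulus

/-!
# The field `F` is not Galois
-/

namespace Pool.Agent.Helper42.SL

open Polynomial Finset NumberField Module IntermediateField Pool.Agent.Helper51.SigLeo

variable {d : ℕ} {A : Fin d → ℤ} {Ω : Type*} [Field Ω] [CharZero Ω] {y : Ω}

/-- A root of `gpoly` is the inverse of a root of `hfun`. -/
theorem hfun_inv {k : Type*} [NormedField k] {Y : k} (hY : aeval Y (gpoly A) = 0) (hY0 : Y ≠ 0) :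
    hfun (fun m ↦ (A m : k)) Y⁻¹ = 0 := by
  rw [aeval_gpoly, sub_eq_zero] at hY
  rw [hfun]
  have h1 : ∏ m, (1 - (A m : k) * Y⁻¹) = (∏ m, (Y - (A m : k))) * Y⁻¹ ^ d := by
    have : Y⁻¹ ^ d = ∏ _m : Fin d, Y⁻¹ := by simp
    rw [this, ← prod_mul_distrib]
    refine prod_congr rfl fun m _ ↦ ?_
    field_simp
  rw [h1, hY, one_mul, sub_self]

/-- Local root: if `q` divides all the `A_m` and does not divide `d`, there is a root in `ℤ_q`. -/
theorem exists_padic_root {q : ℕ} [hq : Fact q.Prime] (hqd : ¬ q ∣ d)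
    (hqA : ∀ m, (q : ℤ) ∣ A m) : ∃ r : ℤ_[q], aeval r (gpoly A) = 0 := by
  have hA : ∀ m, ‖((A m : ℤ) : ℤ_[q])‖ < 1 := fun m ↦ by
    rw [PadicInt.norm_int_lt_one_iff_dvd]; exact hqA m
  -- the value at `1`
  have hmk : ∀ m, PadicInt.toZMod ((A m : ℤ) : ℤ_[q]) = 0 := fun m ↦ by
    rw [map_intCast, ZMod.intCast_zmod_eq_zero_iff_dvd]
    exact hqA m
  have hd0 : d ≠ 0 := fun h ↦ hqd (h ▸ dvd_zero q)
  have hgmod : (gpoly A).map (Int.castRingHom (ZMod q)) = X ^ d - 1 := by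
    rw [gpoly, Polynomial.map_sub, Polynomial.map_prod, Polynomial.map_one]
    congr 1
    have h1 : ∀ m : Fin d, (X - C (A m)).map (Int.castRingHom (ZMod q)) = (X : (ZMod q)[X]) := by
      intro m
      rw [Polynomial.map_sub, map_X, map_C]
      have : Int.castRingHom (ZMod q) (A m) = 0 := by
        rw [eq_intCast, ZMod.intCast_zmod_eq_zero_iff_dvd]; exact hqA m
      rw [this, C_0, sub_zero]
    rw [prod_congr rfl fun m _ ↦ h1 m, prod_const, card_univ, Fintype.card_fin]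
  have hcomp : (PadicInt.toZMod (p := q)).comp (Int.castRingHom ℤ_[q]) =
      Int.castRingHom (ZMod q) := RingHom.ext_int _ _
  have hval : PadicInt.toZMod (aeval (1 : ℤ_[q]) (gpoly A)) = 0 := by
    rw [aeval_def, Polynomial.hom_eval₂, map_one]
    have : (PadicInt.toZMod (p := q)).comp (algebraMap ℤ ℤ_[q]) = Int.castRingHom (ZMod q) :=
      RingHom.ext_int _ _
    rw [this, ← eval_map, hgmod]
    simp
  have hder : PadicInt.toZMod (aeval (1 : ℤ_[q]) (derivative (gpoly A))) = (d : ZMod q) := by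
    rw [aeval_def, Polynomial.hom_eval₂, map_one]
    have : (PadicInt.toZMod (p := q)).comp (algebraMap ℤ ℤ_[q]) = Int.castRingHom (ZMod q) :=
      RingHom.ext_int _ _
    rw [this, ← eval_map, ← derivative_map, hgmod, derivative_sub, derivative_one, sub_zero,
      derivative_X_pow]
    simp
  have hn1 : ‖aeval (1 : ℤ_[q]) (gpoly A)‖ < 1 := by
    rw [← PadicInt.mem_nonunits, ← IsLocalRing.mem_maximalIdeal, ← PadicInt.ker_toZMod,
      RingHom.mem_ker]
    exact hval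
  have hn2 : ‖aeval (1 : ℤ_[q]) (derivative (gpoly A))‖ = 1 := by
    rw [← PadicInt.isUnit_iff]
    by_contra h
    have h1 : aeval (1 : ℤ_[q]) (derivative (gpoly A)) ∈ IsLocalRing.maximalIdeal ℤ_[q] :=
      (IsLocalRing.mem_maximalIdeal _).mpr h
    rw [← PadicInt.ker_toZMod, RingHom.mem_ker, hder] at h1
    exact hqd ((ZMod.natCast_eq_zero_iff d q).mp h1)
  obtain ⟨z, hz, -⟩ := hensels_lemma (p := q) (F := gpoly A) (a := (1 : ℤ_[q]))
    (by rw [hn2]; simpa using hn1)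
  exact ⟨z, hz⟩

/-- **`F` is not Galois** if some prime `q < d` with `q ∤ d` divides all the `A_m`. -/
theorem not_galois (hd : 0 < d) (hA : Function.Injective A) (hy : aeval y (gpoly A) = 0) {q : ℕ}
    (hq : q.Prime) (hqd : ¬ q ∣ d) (hqlt : q < d) (hqA : ∀ m, (q : ℤ) ∣ A m) :
    ¬ IsGalois ℚ ℚ⟮y⟯ := by
  intro hgal
  have : Fact q.Prime := ⟨hq⟩
  obtain ⟨r, hr⟩ := exists_padic_root hqd hqA
  have hr' : aeval (r : ℚ_[q]) (gpoly A) = 0 := by
    have := congrArg (algebraMap ℤ_[q] ℚ_[q]) hr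
    rw [map_zero, ← aeval_algebraMap_apply] at this
    exact this
  obtain ⟨j, -⟩ := exists_hom hd hA hy hr'
  have hfd : FiniteDimensional ℚ ℚ⟮y⟯ := adjoin.finiteDimensional (y_integral hd hy)
  have hmin : minpoly ℚ (AdjoinSimple.gen ℚ y) = (gpoly A).map (algebraMap ℤ ℚ) := by
    symm
    apply minpoly.eq_of_irreducible_of_monic (gpoly_irreducible_rat hd hA)
    · rw [aeval_map_algebraMap]
      exact aeval_gen hy
    · exact (gpoly_monic hd).map _
  -- the roots in `F`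
  have hsplit : ((minpoly ℚ (AdjoinSimple.gen ℚ y)).map (algebraMap ℚ ℚ⟮y⟯)).Splits :=
    Normal.splits (hgal.to_normal) _
  have hcard : Fintype.card ((minpoly ℚ (AdjoinSimple.gen ℚ y)).rootSet ℚ⟮y⟯) = d := by
    rw [card_rootSet_eq_natDegree (hgal.to_isSeparable.isSeparable ℚ _) hsplit, hmin,
      (gpoly_monic hd).natDegree_map, gpoly_natDegree hd]
  set R := (minpoly ℚ (AdjoinSimple.gen ℚ y)).rootSet ℚ⟮y⟯ with hR
  have hRroot : ∀ s : R, aeval (j s) (gpoly A) = 0 := by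
    intro s
    have h1 := (mem_rootSet.mp s.2).2
    rw [hmin, aeval_map_algebraMap] at h1
    have h2 := congrArg j h1
    rw [map_zero, aeval_gpoly, map_sub, map_prod, map_one] at h2
    rw [aeval_gpoly, ← h2]
    congr 1
    refine prod_congr rfl fun m _ ↦ ?_
    rw [map_sub, map_intCast]
  have hRn : ∀ s : R, ‖j s‖ ≤ 1 := fun s ↦ norm_le_one_of_isIntegral q
    ⟨gpoly A, gpoly_monic hd, by
      have := hRroot s
      rw [aeval_def] at this
      exact this⟩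
  have hlt : Fintype.card (ZMod q) < Fintype.card R := by
    rw [ZMod.card, hcard]; exact hqlt
  obtain ⟨s, s', hss', heq⟩ := Fintype.exists_ne_map_eq_of_card_lt
    (fun s : R ↦ PadicInt.toZMod (⟨j s, hRn s⟩ : ℤ_[q])) hlt
  apply hss'
  have hclose : ‖j s - j s'‖ < 1 := by
    have h1 : (⟨j s, hRn s⟩ - ⟨j s', hRn s'⟩ : ℤ_[q]) ∈ IsLocalRing.maximalIdeal ℤ_[q] := by
      rw [← PadicInt.ker_toZMod, RingHom.mem_ker, map_sub, sub_eq_zero]
      exact heq
    rw [IsLocalRing.mem_maximalIdeal, PadicInt.mem_nonunits] at h1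
    exact h1
  -- back to `hfun`
  have hn : ∀ n : ℕ, ‖(n : ℚ_[q])‖ ≤ 1 := fun n ↦ by
    have := Padic.norm_int_le_one (p := q) (n : ℤ)
    simpa using this
  have hd1 : ‖(d : ℚ_[q])‖ = 1 := by
    have h1 : ‖((d : ℤ) : ℚ_[q])‖ = 1 := by
      rw [Padic.norm_intCast_eq_one_iff]
      rw [Nat.isCoprime_iff_coprime, Nat.coprime_comm]
      exact (Nat.Prime.coprime_iff_not_dvd hq).mpr hqd
    simpa using h1
  have hAq : ∀ m, ‖((A m : ℤ) : ℚ_[q])‖ ≤ (q : ℝ)⁻¹ := by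
    intro m
    obtain ⟨c, hc⟩ := hqA m
    rw [hc, Int.cast_mul, norm_mul, Int.cast_natCast, Padic.norm_p]
    exact mul_le_of_le_one_right (by positivity) (Padic.norm_int_le_one c)
  have hqinv : (q : ℝ)⁻¹ < 1 := inv_lt_one_of_one_lt₀ (by exact_mod_cast hq.one_lt)
  have hne : ∀ s : R, j s ≠ 0 := by
    intro s h0
    have h1 := hRroot s
    rw [h0, aeval_gpoly, sub_eq_zero] at h1
    have h2 : ‖∏ m : Fin d, ((0 : ℚ_[q]) - (A m : ℚ_[q]))‖ ≤ ((q : ℝ)⁻¹) ^ d := by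
      have := norm_prod_le_pow univ (fun m : Fin d ↦ ((0 : ℚ_[q]) - (A m : ℚ_[q])))
        (C := (q : ℝ)⁻¹) (fun m _ ↦ by rw [zero_sub, norm_neg]; exact hAq m)
      simpa using this
    rw [h1, norm_one] at h2
    have h3 : ((q : ℝ)⁻¹) ^ d < 1 := pow_lt_one₀ (by positivity) hqinv hd.ne'
    linarith
  have hroot : ∀ s : R, hfun (fun m ↦ (A m : ℚ_[q])) (j s)⁻¹ = 0 := fun s ↦
    hfun_inv (hRroot s) (hne s)
  have hnorm : ∀ s : R, ‖(j s)⁻¹‖ = 1 := fun s ↦
    norm_eq_one_of_root hd _ hAq hqinv (hroot s)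
  have hdist : ‖(j s)⁻¹ - (j s')⁻¹‖ < ‖(d : ℚ_[q])‖ := by
    have h1 : (j s)⁻¹ - (j s')⁻¹ = (j s')⁻¹ * (j s)⁻¹ * (j s' - j s) := by
      have := hne s
      have := hne s'
      field_simp
    rw [h1, norm_mul, norm_mul, hnorm, hnorm, one_mul, one_mul, hd1, norm_sub_rev]
    exact hclose
  have hkey := norm_hfun_sub (fun m ↦ (A m : ℚ_[q])) hAq hn (by rw [hd1]; exact hqinv)
    (hnorm s') hdist
  rw [hroot, hroot, sub_zero, norm_zero, hd1, one_mul] at hkey
  have h2 : (j s)⁻¹ = (j s')⁻¹ := sub_eq_zero.mp (norm_eq_zero.mp hkey.symm)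
  exact Subtype.ext (j.injective (inv_injective h2))

end Pool.Agent.Helper42.SL
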