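import Pool.Agent.Helper42.SL.Member
import Pool.Agent.Helper42.SL.FieldK
import Pool.Agent.Helper42.SL.NonGalois
import Pool.Agent.Helper42.SL.InfiniteF

/-!
# The main theorem
-/

namespace Pool.Agent.Helper42.SL

open Polynomial Finset NumberField Module IntermediateField Filter Topology
  Pool.Agent.Helper51.SigLeo

theorem card_lt_eq {d r : ℕ} (hrd : r ≤ d) : Nat.card {m : Fin d // (m : ℕ) < r} = r := by
  rw [Nat.card_eq_fintype_card, Fintype.card_subtype, Fin.card_filter_val_lt]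
  omega

theorem card_ge_eq {d r : ℕ} (hrd : r ≤ d) : Nat.card {m : Fin d // ¬ (m : ℕ) < r} = d - r := by
  have h1 := card_lt_eq hrd
  rw [Nat.card_eq_fintype_card] at h1 ⊢
  rw [Fintype.card_subtype_compl, Fintype.card_fin, h1]

/-- A root of `gpoly` in an algebraically closed field. -/
theorem exists_y {Ω : Type*} [Field Ω] [CharZero Ω] [IsAlgClosed Ω] {d : ℕ} (hd : 0 < d)
    (A : Fin d → ℤ) : ∃ y : Ω, aeval y (gpoly A) = 0 := by
  obtain ⟨y, hy⟩ := IsAlgClosed.exists_root ((gpoly A).map (algebraMap ℤ Ω)) (by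
    rw [degree_eq_natDegree ((gpoly_monic hd).map _).ne_zero, (gpoly_monic hd).natDegree_map,
      gpoly_natDegree hd]
    exact_mod_cast hd.ne')
  refine ⟨y, ?_⟩
  rwa [IsRoot.def, eval_map_algebraMap] at hy

theorem norm_pow_tendsto {p : ℕ} [hp : Fact p.Prime] {k : Type*} [NormedField k]
    [NormedAlgebra ℚ_[p] k] {M : ℤ} (hM : (p : ℤ) ∣ M) {ρ : ℝ} (hρ : 0 < ρ) :
    ∃ n₁ : ℕ, ∀ n, n₁ ≤ n → ‖((M ^ (2 * n) : ℤ) : k)‖ < ρ := by
  have h1 : ‖((M : ℤ) : k)‖ ≤ (p : ℝ)⁻¹ := by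
    obtain ⟨c, rfl⟩ := hM
    rw [norm_intCast_eq p, Int.cast_mul, norm_mul, Int.cast_natCast, Padic.norm_p]
    exact mul_le_of_le_one_right (by positivity) (Padic.norm_int_le_one c)
  have h2 : (p : ℝ)⁻¹ < 1 := inv_lt_one_of_one_lt₀ (by exact_mod_cast hp.out.one_lt)
  have h3 : Tendsto (fun n : ℕ ↦ ((p : ℝ)⁻¹) ^ n) atTop (𝓝 0) :=
    tendsto_pow_atTop_nhds_zero_of_lt_one (by positivity) h2
  obtain ⟨n₁, hn₁⟩ := (h3.eventually_lt_const hρ).exists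
  refine ⟨n₁, fun n hn ↦ lt_of_le_of_lt ?_ hn₁⟩
  rw [Int.cast_pow, norm_pow]
  have h4 : (0 : ℝ) ≤ (p : ℝ)⁻¹ := by positivity
  calc ‖(M : k)‖ ^ (2 * n) ≤ ((p : ℝ)⁻¹) ^ (2 * n) := pow_le_pow_left₀ (norm_nonneg _) h1 _
    _ ≤ ((p : ℝ)⁻¹) ^ n₁ := pow_le_pow_of_le_one h4 h2.le (by omega)

/-- The statement proved for a field `F` of degree `d` inside `Ω`. -/
def Good (Ω : Type*) [Field Ω] [CharZero Ω] (d r δ : ℕ) (P : Finset ℕ)
    (F : IntermediateField ℚ Ω) : Prop :=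
  finrank ℚ F = d ∧ IsTotallyReal F ∧ ¬ IsGalois ℚ F ∧
    ∃ y : F, Nat.card {φ : F →+* ℝ // 0 < φ y} = r ∧ Nat.card {φ : F →+* ℝ // φ y < 0} = d - r ∧
      ∀ θ x : Ω, θ ^ 2 = -(δ : Ω) → x ^ 2 = (y : Ω) →
        finrank F F⟮θ⟯ = 2 ∧ finrank F⟮θ⟯ F⟮θ⟯⟮x⟯ = 2 ∧
          ∀ p ∈ P, ∀ _ : Fact p.Prime, SigmaLeopoldt F⟮θ⟯ F⟮θ⟯⟮x⟯ Ω p ℂ_[p]

theorem main {Ω : Type*} [Field Ω] [CharZero Ω] [IsAlgClosed Ω] (ιc : Ω →+* ℂ) (d r δ : ℕ)
    (hd : 3 ≤ d) (hr : 1 ≤ r) (hrd : r ≤ d) (hδ : 0 < δ) (P : Finset ℕ) :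
    {F : IntermediateField ℚ Ω | Good Ω d r δ P F}.Infinite := by
  classical
  have hd0 : 0 < d := by omega
  have : NeZero d := ⟨hd0.ne'⟩
  obtain ⟨w, hw⟩ := HasEnoughRootsOfUnity.exists_primitiveRoot Ω d
  -- the types of columns
  let κ : Fin d → ℤ := fun m ↦ if (m : ℕ) < r then 1 else -(δ : ℤ)
  have hκ0 : ∀ m, κ m ≠ 0 := fun m ↦ by
    simp only [κ]
    split_ifs
    · norm_num
    · have : (δ : ℤ) ≠ 0 := by exact_mod_cast hδ.ne'
      exact neg_ne_zero.mpr this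
  let S : Fin d → Set ℤ := fun m ↦ Set.range fun β : ℕ ↦ κ m * ((β : ℤ) + 1) ^ 2
  have hS : ∀ m, (S m).Infinite := fun m ↦ by
    refine Set.infinite_range_of_injective fun a b hab ↦ ?_
    have h1 := mul_left_cancel₀ (hκ0 m) hab
    have h2 : (a : ℤ) + 1 = b + 1 := by
      rcases sq_eq_sq_iff_eq_or_eq_neg.mp h1 with h | h
      · exact h
      · omega
    omega
  obtain ⟨α, N, u, hαS, hαinj, hu0, hu, hD⟩ := exists_good ιc hd0 hw S hS
  choose β hβ using hαS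
  have hα0 : ∀ m, α m ≠ 0 := fun m ↦ by
    rw [← hβ]
    exact mul_ne_zero (hκ0 m) (pow_ne_zero _ (by positivity))
  -- the modulus
  let q := Nat.minFac (d - 1)
  have hq : q.Prime := Nat.minFac_prime (by omega)
  have hqd1 : q ∣ d - 1 := Nat.minFac_dvd _
  have hqlt : q < d := lt_of_le_of_lt (Nat.le_of_dvd (by omega) hqd1) (by omega)
  have hqd : ¬ q ∣ d := by
    intro h
    have h1 : q ∣ d - (d - 1) := Nat.dvd_sub h hqd1
    have h2 : d - (d - 1) = 1 := by omega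
    rw [h2] at h1
    exact hq.one_lt.ne' (Nat.dvd_one.mp h1)
  let M : ℤ := ((∏ p ∈ P.filter Nat.Prime, p : ℕ) : ℤ) * q
  have hMp : ∀ p ∈ P, p.Prime → (p : ℤ) ∣ M := fun p hp hpp ↦ by
    refine Dvd.dvd.mul_right ?_ _
    exact_mod_cast dvd_prod_of_mem (fun p ↦ p) (mem_filter.mpr ⟨hp, hpp⟩)
  have hMq : (q : ℤ) ∣ M := dvd_mul_left _ _
  have hM2 : 2 ≤ M := by
    have h1 : 0 < ∏ p ∈ P.filter Nat.Prime, p :=
      prod_pos fun p hp ↦ (mem_filter.mp hp).2.pos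
    have h2 : 2 ≤ (∏ p ∈ P.filter Nat.Prime, p) * q := by
      calc 2 ≤ q := hq.two_le
        _ ≤ _ := Nat.le_mul_of_pos_left _ h1
    simp only [M]
    exact_mod_cast h2
  clear_value M
  -- the `p`-adic conditions
  have hpad : ∀ p : ℕ, ∃ n₁ : ℕ, p ∈ P → ∀ _ : Fact p.Prime, ∀ n, n₁ ≤ n →
      ‖((M ^ (2 * n) : ℤ) : ℂ_[p])‖ ≤ 1 / 4 ∧ (Nonempty (Ω →+* ℂ_[p]) →
        ∀ ζ : Fin d → ℂ_[p], Function.Injective ζ →
      (∀ σ, hfun (fun m ↦ (α m : ℂ_[p]) * ((M ^ (2 * n) : ℤ) : ℂ_[p])) (ζ σ) = 0) →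
      ∀ (ε : Fin d → Fin d → ℤˣ) (e : Fin d → Fin d → ℂ_[p]),
        (∀ σ m, ‖e σ m‖ ≤ (2 * (2 * N + 3)) * ‖((M ^ (2 * n) : ℤ) : ℂ_[p])‖ ^ (N + 1)) →
        (Matrix.of fun σ m ↦ (((ε σ m : ℤˣ) : ℤ) : ℂ_[p]) *
          ((phi ℂ_[p] N).eval ((α m : ℂ_[p]) * ((M ^ (2 * n) : ℤ) : ℂ_[p]) * ζ σ) +
            e σ m)).det ≠ 0) := by
    intro p
    by_cases hpP : p ∈ P ∧ p.Prime
    · obtain ⟨hpP, hpp⟩ := hpP
      have hF : Fact p.Prime := ⟨hpp⟩
      obtain ⟨n₁, hn₁⟩ := norm_pow_tendsto (p := p) (k := ℂ_[p]) (hMp p hpP hpp)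
        (ρ := 1 / 4) (by norm_num)
      by_cases hne : Nonempty (Ω →+* ℂ_[p])
      · obtain ⟨ι⟩ := hne
        obtain ⟨ρ, hρ, hmain⟩ := padic_main p ι hd0 hw α N u hu0 hu hD (2 * (2 * N + 3))
          (by positivity)
        obtain ⟨n₂, hn₂⟩ := norm_pow_tendsto (p := p) (k := ℂ_[p]) (hMp p hpP hpp) hρ
        refine ⟨max n₁ n₂, fun _ _ n hn ↦ ⟨(hn₁ n (le_trans (le_max_left _ _) hn)).le,
          fun _ ζ hζ1 hζ2 ε e he ↦ ?_⟩⟩
        refine hmain _ ?_ (hn₂ n (le_trans (le_max_right _ _) hn)) ζ hζ1 hζ2 ε e he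
        have : M ^ (2 * n) ≠ 0 := pow_ne_zero _ (by omega)
        exact_mod_cast this
      · exact ⟨n₁, fun _ _ n hn ↦ ⟨(hn₁ n hn).le, fun h ↦ absurd h hne⟩⟩
    · exact ⟨0, fun h1 h2 ↦ absurd ⟨h1, h2.out⟩ hpP⟩
  choose nP hnP using hpad
  let n₀ : ℕ := P.sup nP + 1
  -- the generators
  choose y hy using fun n : ℕ ↦ exists_y (Ω := Ω) hd0 (fun m ↦ α m * M ^ (2 * n))
  refine infinite_fields hd α hαinj M hM2 n₀ y (fun n _ ↦ hy n) _ fun n hn ↦ ?_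
  -- membership
  have hn1 : 1 ≤ n := by omega
  set T : ℤ := M ^ (2 * n) with hT
  have hT4 : 4 ≤ T := by
    calc (4 : ℤ) = 2 ^ 2 := by norm_num
      _ ≤ M ^ 2 := pow_le_pow_left₀ (by norm_num) hM2 2
      _ ≤ T := pow_le_pow_right₀ (by omega) (by omega)
  set A : Fin d → ℤ := fun m ↦ α m * T with hA
  have hyn : aeval (y n) (gpoly A) = 0 := hy n
  have hAinj : Function.Injective A := fun i j h ↦
    hαinj (mul_right_cancel₀ (by omega) h)
  have hA0 : ∀ m, A m ≠ 0 := fun m ↦ mul_ne_zero (hα0 m) (by omega)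
  have hAsep : ∀ i j, i ≠ j → 3 ≤ |A i - A j| := by
    intro i j hij
    have h1 : (1 : ℤ) ≤ |α i - α j| := Int.one_le_abs (sub_ne_zero.mpr fun h ↦ hij (hαinj h))
    simp only [hA]
    rw [← sub_mul, abs_mul, abs_of_pos (by omega : 0 < T)]
    nlinarith
  obtain ⟨ρ, hρinj, hroot, hclose⟩ := exists_roots (by omega) hAsep
  have hNF : NumberField ℚ⟮y n⟯ := numberField_F hd0 hyn
  have hTR : IsTotallyReal ℚ⟮y n⟯ := totallyReal (by omega) hyn hρinj hroot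
  obtain ⟨hpos, hneg⟩ := card_pos (by omega) hyn hρinj hroot hAinj hA0 hclose
  have hαpos : ∀ m : Fin d, (m : ℕ) < r → α m = ((β m : ℤ) + 1) ^ 2 := fun m hm ↦ by
    rw [← hβ]; simp only [κ]; rw [if_pos hm, one_mul]
  have hαneg : ∀ m : Fin d, ¬ (m : ℕ) < r → α m = -(δ : ℤ) * ((β m : ℤ) + 1) ^ 2 :=
    fun m hm ↦ by
    rw [← hβ]; simp only [κ]; rw [if_neg hm]
  have hApos : ∀ m : Fin d, 0 < A m ↔ (m : ℕ) < r := by
    intro m
    constructor
    · intro h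
      by_contra hm
      have h1 : A m = -((δ : ℤ) * ((β m : ℤ) + 1) ^ 2 * T) := by
        simp only [hA]; rw [hαneg m hm]; ring
      have h2 : 0 < (δ : ℤ) * ((β m : ℤ) + 1) ^ 2 * T := by positivity
      omega
    · intro hm
      simp only [hA]
      rw [hαpos m hm]
      positivity
  have hAneg : ∀ m : Fin d, A m < 0 ↔ ¬ (m : ℕ) < r := by
    intro m
    rw [← hApos m, not_lt]
    have := hA0 m
    omega
  refine ⟨finrank_F hd0 hAinj hyn, hTR, not_galois hd0 hAinj hyn hq hqd hqlt (fun m ↦ ?_),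
    AdjoinSimple.gen ℚ (y n), ?_, ?_, ?_⟩
  · simp only [hA, hT]
    exact (Dvd.dvd.mul_left (hMq.trans (dvd_pow_self M (by omega))) _)
  · rw [hpos, ← card_lt_eq hrd]
    exact Nat.card_congr (Equiv.subtypeEquivRight fun m ↦ hApos m)
  · rw [hneg, ← card_ge_eq hrd]
    exact Nat.card_congr (Equiv.subtypeEquivRight fun m ↦ hAneg m)
  · intro θ x hθ hx
    set F := ℚ⟮y n⟯ with hF
    set g : F := AdjoinSimple.gen ℚ (y n) with hg
    have hx' : x ^ 2 = algebraMap F Ω g := hx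
    obtain ⟨e, he⟩ : ∃ e : Fin d ≃ (F →+* ℝ), ∀ m, e m g = ρ m :=
      exists_equiv (by omega) hyn hρinj hroot hAinj
    -- a positive embedding
    let m₀ : Fin d := ⟨0, hd0⟩
    have hφ : 0 < e m₀ g := by
      rw [he]
      have h1 : (1 : ℝ) ≤ A m₀ := by exact_mod_cast (hApos m₀).mpr (by show 0 < r; omega)
      have h2 := (abs_lt.mp (hclose m₀)).1
      linarith
    have hsq : ∀ t : F, g ≠ t ^ 2 := by
      by_cases hrd' : r = d
      · refine not_sq_of_all_squares hd0 hAinj hyn (∏ m, (((β m : ℤ) + 1) * M ^ n)) ?_ ?_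
        · rw [abs_prod]
          have h1 : ∀ m : Fin d, (2 : ℤ) ≤ |((β m : ℤ) + 1) * M ^ n| := fun m ↦ by
            have h3 : (2 : ℤ) ≤ M ^ n := by
              calc (2 : ℤ) ≤ M := hM2
                _ = M ^ 1 := (pow_one M).symm
                _ ≤ M ^ n := pow_le_pow_right₀ (by omega) hn1
            rw [abs_of_pos (by positivity)]
            nlinarith [(Int.natCast_nonneg (β m) : (0 : ℤ) ≤ β m)]
          calc (2 : ℤ) = 2 ^ 1 := by norm_num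
            _ ≤ 2 ^ d := pow_le_pow_right₀ (by norm_num) hd0
            _ = ∏ _m : Fin d, (2 : ℤ) := by simp
            _ ≤ _ := prod_le_prod (fun _ _ ↦ by norm_num) fun m _ ↦ h1 m
        · rw [← prod_pow]
          refine prod_congr rfl fun m _ ↦ ?_
          simp only [hA, hT]
          rw [hαpos m (by rw [hrd']; exact m.2), mul_pow, ← pow_mul, mul_comm n 2]
      · intro t ht
        let m₁ : Fin d := ⟨r, by omega⟩
        have h1 : A m₁ < 0 := (hAneg m₁).mpr (by show ¬ r < r; omega)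
        have h2 : e m₁ g < 0 := by
          rw [he]
          have h3 : (A m₁ : ℝ) ≤ -1 := by exact_mod_cast Int.le_sub_one_of_lt h1
          have h4 := (abs_lt.mp (hclose m₁)).2
          linarith
        rw [ht, map_pow] at h2
        exact absurd h2 (not_lt.mpr (sq_nonneg _))
    have hNFK : NumberField F⟮θ⟯ := numberField_K hδ hθ (e m₀)
    have hTCK : IsTotallyComplex F⟮θ⟯ := totallyComplex_K hδ hθ
    have hKF := finrank_K hδ hθ (e m₀)
    have hHK := finrank_H hδ hθ hx' (e m₀) hφ hsq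
    have hxK := x_not_mem hδ hθ hx' (e m₀) hφ hsq
    refine ⟨hKF, hHK, fun p hp hpF ιinf ιp ↦ ?_⟩
    obtain ⟨hp4, hnv⟩ := hnP p hp hpF n (by
      have h1 : nP p ≤ P.sup nP := le_sup hp
      omega)
    have hnv := hnv ⟨ιp⟩
    -- the square roots of the `A m`
    let B : Fin d → F⟮θ⟯ := fun m ↦ if (m : ℕ) < r then (((β m : ℤ) + 1) * M ^ n : ℤ)
      else AdjoinSimple.gen F θ * (((β m : ℤ) + 1) * M ^ n : ℤ)
    have hB : ∀ m, B m ^ 2 = ((α m * T : ℤ) : F⟮θ⟯) := by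
      intro m
      simp only [B]
      split_ifs with hm
      · rw [hαpos m hm, hT]
        push_cast
        ring
      · rw [hαneg m hm, hT, mul_pow, gen_sq hθ]
        push_cast
        ring
    have hyF : ∏ m, (g - ((α m * T : ℤ) : F)) = 1 := by
      have := aeval_gen hyn
      rw [aeval_gpoly, sub_eq_zero] at this
      exact this
    let x' : F⟮θ⟯⟮x⟯ := ⟨x, mem_adjoin_simple_self F⟮θ⟯ x⟩
    have hx'2 : x' ^ 2 = algebraMap F⟮θ⟯ F⟮θ⟯⟮x⟯ (algebraMap F F⟮θ⟯ g) := by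
      apply Subtype.ext
      show x ^ 2 = _
      rw [hx']
      rfl
    have hx'K : x' ∉ (algebraMap F⟮θ⟯ F⟮θ⟯⟮x⟯).range := by
      rintro ⟨z, hz⟩
      apply hxK
      exact ⟨z, congrArg Subtype.val hz⟩
    exact member (Ω := Ω) hKF hHK (finrank_F hd0 hAinj hyn) p ℂ_[p] g
      (y_integral_int hd0 (aeval_gen hyn)) (fun ψ₁ ψ₂ h ↦ hom_ext h) α T hα0 (by omega) hyF B hB
      x' hx'2 hx'K hp4 N hnv ιinf ιp

end Pool.Agent.Helper42.SL
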