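import Pool.Agent.Helper42.SL.LogEst
import Pool.Agent.Helper42.SL.Formal

/-!
# The `p`-adic nonvanishing theorem
-/

namespace Pool.Agent.Helper42.SL

open Polynomial Finset Filter Topology Pool.Agent.Helper51.SigLeo

variable {p : ℕ} [hp : Fact p.Prime] {k : Type*} [NormedField k] [NormedAlgebra ℚ_[p] k]
  [IsUltrametricDist k]

omit [IsUltrametricDist k] in
variable (p) in
include p in
theorem norm_intCast_le_one' (n : ℤ) : ‖(n : k)‖ ≤ 1 := by
  rw [norm_intCast_eq p]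
  exact Padic.norm_int_le_one n

omit hp [NormedAlgebra ℚ_[p] k] [IsUltrametricDist k] in
theorem norm_sign (e : ℤˣ) : ‖(((e : ℤˣ) : ℤ) : k)‖ = 1 := by
  rcases Int.units_eq_one_or e with h | h <;> simp [h]

omit hp [NormedAlgebra ℚ_[p] k] [IsUltrametricDist k] in
/-- The value of the generic determinant. -/
theorem Dpoly_eval {Q : Type*} [Field Q] (ι : Q →+* k) {d : ℕ} (w : Q) (α : Fin d → ℤ)
    (ε : Fin d → Fin d → ℤˣ) (N : ℕ) (u : Q[X]) (T : k) :
    ((Dpoly (RingHom.id Q) w (fun m ↦ (α m : Q)) ε N u).map ι).eval T =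
      (Matrix.of fun j m : Fin d ↦ (((ε j m : ℤˣ) : ℤ) : k) * (phi k N).eval
        ((α m : k) * T * (ι w ^ (j : ℕ) * (u.map ι).eval (ι w ^ (j : ℕ) * T)))).det := by
  rw [Dpoly_map, Dpoly, ← coe_evalRingHom, RingHom.map_det]
  congr 1
  ext1 j m
  simp only [RingHom.mapMatrix_apply, Matrix.map_apply, Matrix.of_apply, coe_evalRingHom,
    RingHom.comp_id, map_intCast, map_pow]
  rw [eval_mul, ← coe_evalRingHom, Polynomial.hom_eval₂, ← phi_map ι N, eval_map]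
  congr 2
  · simp
  · ext x; simp
  · simp only [coe_evalRingHom, eval_mul, eval_C, eval_X, eval_comp, eval_intCast, eval_pow]
    ring

variable (p) in
include p in
/-- **The `p`-adic nonvanishing theorem.** -/
theorem padic_main {Q : Type*} [Field Q] [CharZero Q] (ι : Q →+* k) {d : ℕ}
    (hd : 0 < d) {w : Q} (hw : IsPrimitiveRoot w d) (α : Fin d → ℤ) (N : ℕ) (u : Q[X])
    (hu0 : u.coeff 0 = 1)
    (hu : X ^ (N + 1) ∣ u ^ d - ∏ m, (1 - C (α m : Q) * X * u))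
    (hD : ∀ ε : Fin d → Fin d → ℤˣ,
      ¬ X ^ (N + 1) ∣ Dpoly (RingHom.id Q) w (fun m ↦ (α m : Q)) ε N u) (C₀ : ℝ) (hC₀ : 0 ≤ C₀) :
    ∃ ρ : ℝ, 0 < ρ ∧ ∀ T : k, T ≠ 0 → ‖T‖ < ρ → ∀ ζ : Fin d → k, Function.Injective ζ →
      (∀ σ, hfun (fun m ↦ (α m : k) * T) (ζ σ) = 0) →
      ∀ (ε : Fin d → Fin d → ℤˣ) (e : Fin d → Fin d → k),
        (∀ σ m, ‖e σ m‖ ≤ C₀ * ‖T‖ ^ (N + 1)) →
        (Matrix.of fun σ m ↦ (((ε σ m : ℤˣ) : ℤ) : k) *
          ((phi k N).eval ((α m : k) * T * ζ σ) + e σ m)).det ≠ 0 := by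
  have hch := charZero_of_padic p (k := k)
  have hn : ∀ n : ℕ, ‖(n : k)‖ ≤ 1 := norm_natCast_le_one p
  have hz : ∀ n : ℤ, ‖(n : k)‖ ≤ 1 := norm_intCast_le_one' p
  set D : ℝ := ‖(d : k)‖ with hDdef
  have hDpos : 0 < D := norm_pos_iff.mpr (by exact_mod_cast hd.ne')
  have hD1 : D ≤ 1 := hn d
  set w' : k := ι w with hw'
  have hw'p : IsPrimitiveRoot w' d := hw.map_of_injective ι.injective
  have hw1 : ∀ j : ℕ, ‖w' ^ j‖ = 1 := by
    intro j
    have h1 : ‖w'‖ ^ d = 1 := by rw [← norm_pow, hw'p.pow_eq_one, norm_one]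
    have h2 : ‖w'‖ = 1 := (pow_eq_one_iff_of_nonneg (norm_nonneg _) hd.ne').mp h1
    rw [norm_pow, h2, one_pow]
  have hwd : ∀ j : ℕ, (w' ^ j) ^ d = 1 := by
    intro j
    rw [← pow_mul, mul_comm, pow_mul, hw'p.pow_eq_one, one_pow]
  set u' : k[X] := u.map ι with hu'
  have hu'0 : u'.eval 0 = 1 := by
    rw [← coeff_zero_eq_eval_zero, hu', coeff_map, hu0, map_one]
  obtain ⟨Cu, hCu1, hCub, hCu⟩ := exists_norm_eval_le u'
  -- the residual
  obtain ⟨V, hV⟩ := hu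
  have hV' : ∀ x : k, u'.eval x ^ d - ∏ m, (1 - (α m : k) * x * u'.eval x) =
      x ^ (N + 1) * (V.map ι).eval x := by
    intro x
    have h1 := congrArg (fun P : Q[X] ↦ (P.map ι).eval x) hV
    simpa [Polynomial.map_prod, eval_prod] using h1
  obtain ⟨CV, hCV1, hCVb, -⟩ := exists_norm_eval_le (V.map ι)
  obtain ⟨Cφ, hCφ1, hCφb, hCφ⟩ := exists_norm_eval_le (phi k N)
  -- lower bounds for the generic determinants
  have hq : ∀ ε : Fin d → Fin d → ℤˣ, ¬ X ^ (N + 1) ∣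
      (Dpoly (RingHom.id Q) w (fun m ↦ (α m : Q)) ε N u).map ι := by
    intro ε h
    apply hD ε
    rw [X_pow_dvd_iff] at h ⊢
    intro i hi
    have := h i hi
    rw [coeff_map, map_eq_zero] at this
    exact this
  choose c hc ρ hρ hlow using fun ε ↦ exists_le_norm_eval _ N (hq ε)
  let z : Fin d → k → k := fun j T ↦ w' ^ (j : ℕ) * u'.eval (w' ^ (j : ℕ) * T)
  set C1 : ℝ := Cφ + C₀ with hC1
  set C2 : ℝ := Cφ * (CV / D) + C₀ with hC2
  have hC1' : 1 ≤ C1 := by linarith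
  have hC2' : 0 ≤ C2 := by positivity
  -- all the smallness conditions
  have hev : ∀ᶠ T in 𝓝 (0 : k), ‖T‖ < D ^ d ∧ Cu * ‖T‖ < D ∧
      ∀ ε, ‖T‖ < ρ ε ∧ (C1 ^ d * C2) * ‖T‖ < c ε := by
    have hlim : ∀ K : ℝ, Tendsto (fun T : k ↦ K * ‖T‖) (𝓝 0) (𝓝 0) := by
      intro K
      have : Tendsto (fun T : k ↦ K * ‖T‖) (𝓝 0) (𝓝 (K * ‖(0 : k)‖)) :=
        (continuous_const.mul continuous_norm).tendsto 0
      rwa [norm_zero, mul_zero] at this
    have hlim' : Tendsto (fun T : k ↦ ‖T‖) (𝓝 0) (𝓝 0) := by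
      have := hlim 1
      simpa using this
    refine (hlim'.eventually_lt_const (by positivity)).and
      (((hlim Cu).eventually_lt_const hDpos).and (eventually_all.mpr fun ε ↦ ?_))
    exact (hlim'.eventually_lt_const (hρ ε)).and ((hlim _).eventually_lt_const (hc ε))
  obtain ⟨r, hr, hball⟩ := Metric.eventually_nhds_iff.mp hev
  refine ⟨r, hr, fun T hT0 hTr ζ hζinj hζ ε e he ↦ ?_⟩
  obtain ⟨hT1, hT2, hT3⟩ := hball (y := T) (by rwa [dist_zero_right])
  have hDd : D ^ d ≤ D := by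
    calc D ^ d ≤ D ^ 1 := pow_le_pow_of_le_one hDpos.le hD1 hd
      _ = D := pow_one D
  have hTD : ‖T‖ < D := hT1.trans_le hDd
  have hTlt1 : ‖T‖ < 1 := hTD.trans_le hD1
  have hTpos : 0 < ‖T‖ := norm_pos_iff.mpr hT0
  have hTN : ‖T‖ ^ (N + 1) ≤ 1 := pow_le_one₀ (norm_nonneg _) hTlt1.le
  set A : Fin d → k := fun m ↦ (α m : k) * T with hAdef
  have hA : ∀ m, ‖A m‖ ≤ ‖T‖ := by
    intro m
    rw [hAdef, norm_mul]
    exact mul_le_of_le_one_left (norm_nonneg _) (hz _)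
  have hζ1 : ∀ σ, ‖ζ σ‖ = 1 := fun σ ↦ norm_eq_one_of_root hd A hA hTlt1 (hζ σ)
  -- matching
  have hclose : ∀ σ, ∃ j : Fin d, ‖ζ σ - w' ^ (j : ℕ)‖ < D := by
    intro σ
    by_contra hcon
    push Not at hcon
    have h1 : ζ σ ^ d - 1 = ∏ j : Fin d, (ζ σ - w' ^ (j : ℕ)) := by
      have h2 := hw'p.pow_sub_pow_eq_prod_sub_mul (ζ σ) 1 hd
      rw [one_pow, prod_nthRoots hd hw'p] at h2
      simpa using h2
    have h3 : D ^ d ≤ ‖ζ σ ^ d - 1‖ := by
      rw [h1, norm_prod]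
      calc D ^ d = ∏ _j : Fin d, D := by simp
        _ ≤ _ := prod_le_prod (fun _ _ ↦ hDpos.le) fun j _ ↦ hcon j
    have h4 : ‖ζ σ ^ d - 1‖ ≤ ‖T‖ := by
      have h5 : ζ σ ^ d = ∏ m, (1 - A m * ζ σ) := sub_eq_zero.mp (hζ σ)
      have h6 := norm_prod_sub_prod_le univ (fun m ↦ 1 - A m * ζ σ) (fun _ ↦ (1 : k)) (C := 1)
        (c := ‖T‖) le_rfl (norm_nonneg _) (fun m _ ↦ by
          refine (norm_sub_le_max'' _ _).trans (max_le (by rw [norm_one]) ?_)
          rw [norm_mul, hζ1, mul_one]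
          exact (hA m).trans hTlt1.le) (fun _ _ ↦ by rw [norm_one]) (fun m _ ↦ by
          have : 1 - A m * ζ σ - 1 = -(A m * ζ σ) := by ring
          rw [this, norm_neg, norm_mul, hζ1, mul_one]
          exact hA m)
      rw [prod_const_one, one_pow, one_mul] at h6
      rw [h5]
      exact h6
    linarith
  choose j hj using hclose
  -- the approximate roots
  have hz1 : ∀ i : Fin d, ‖z i T‖ ≤ 1 ∧ ‖z i T - w' ^ (i : ℕ)‖ < D := by
    intro i
    have h1 : ‖z i T - w' ^ (i : ℕ)‖ < D := by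
      have h2 : z i T - w' ^ (i : ℕ) =
          w' ^ (i : ℕ) * (u'.eval (w' ^ (i : ℕ) * T) - u'.eval 0) := by
        rw [hu'0]; simp only [z]; ring
      rw [h2, norm_mul, hw1, one_mul]
      refine lt_of_le_of_lt (hCu _ _ ?_ (by simp)) ?_
      · rw [norm_mul, hw1, one_mul]; exact hTlt1.le
      · rw [sub_zero, norm_mul, hw1, one_mul]; exact hT2
    refine ⟨?_, h1⟩
    have h3 : z i T = w' ^ (i : ℕ) + (z i T - w' ^ (i : ℕ)) := by ring
    rw [h3]
    exact (IsUltrametricDist.norm_add_le_max _ _).trans (max_le (hw1 _).le (h1.le.trans hD1))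
  have hhz : ∀ i : Fin d, ‖hfun A (z i T)‖ ≤ CV * ‖T‖ ^ (N + 1) := by
    intro i
    have h1 : hfun A (z i T) = (w' ^ (i : ℕ) * T) ^ (N + 1) *
        (V.map ι).eval (w' ^ (i : ℕ) * T) := by
      rw [← hV', hfun]
      congr 1
      · simp only [z]
        rw [mul_pow, hwd, one_mul]
      · refine prod_congr rfl fun m _ ↦ ?_
        simp only [z, hAdef]
        ring
    rw [h1, norm_mul, norm_pow, norm_mul, hw1, one_mul, mul_comm]
    refine mul_le_mul_of_nonneg_right (hCVb _ ?_) (by positivity)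
    rw [norm_mul, hw1, one_mul]; exact hTlt1.le
  have hzζ : ∀ σ, ‖z (j σ) T - ζ σ‖ ≤ CV / D * ‖T‖ ^ (N + 1) := by
    intro σ
    have h1 : ‖z (j σ) T - ζ σ‖ < D := by
      have h2 : z (j σ) T - ζ σ = (z (j σ) T - w' ^ ((j σ : Fin d) : ℕ)) -
          (ζ σ - w' ^ ((j σ : Fin d) : ℕ)) := by ring
      rw [h2]
      exact lt_of_le_of_lt (norm_sub_le_max'' _ _) (max_lt (hz1 _).2 (hj σ))
    have h3 := norm_hfun_sub A hA hn hTD (hζ1 σ) h1
    rw [hζ σ, sub_zero] at h3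
    have h4 := hhz (j σ)
    rw [h3] at h4
    rw [div_mul_eq_mul_div, le_div_iff₀ hDpos, mul_comm]
    exact h4
  have hjinj : Function.Injective j := by
    intro σ τ hστ
    have h1 : ‖ζ σ - ζ τ‖ < D := by
      have h2 : ζ σ - ζ τ = (ζ σ - w' ^ ((j σ : Fin d) : ℕ)) -
          (ζ τ - w' ^ ((j τ : Fin d) : ℕ)) := by rw [hστ]; ring
      rw [h2]
      exact lt_of_le_of_lt (norm_sub_le_max'' _ _) (max_lt (hj σ) (hj τ))
    have h3 := norm_hfun_sub A hA hn hTD (hζ1 τ) h1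
    rw [hζ σ, hζ τ, sub_zero, norm_zero] at h3
    have h4 : ‖ζ σ - ζ τ‖ = 0 := by
      rcases mul_eq_zero.mp h3.symm with h | h
      · exact absurd h hDpos.ne'
      · exact h
    exact hζinj (sub_eq_zero.mp (norm_eq_zero.mp h4))
  let E : Equiv.Perm (Fin d) := Equiv.ofBijective j (Finite.injective_iff_bijective.mp hjinj)
  have hE : ∀ σ, E σ = j σ := fun σ ↦ rfl
  -- the two matrices
  set M : Matrix (Fin d) (Fin d) k := Matrix.of fun σ m ↦ (((ε σ m : ℤˣ) : ℤ) : k) *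
          ((phi k N).eval ((α m : k) * T * ζ σ) + e σ m) with hM
  set M' : Matrix (Fin d) (Fin d) k := Matrix.of fun σ m ↦ (((ε σ m : ℤˣ) : ℤ) : k) *
          (phi k N).eval ((α m : k) * T * z (j σ) T) with hM'
  have harg : ∀ (m : Fin d) (x : k), ‖x‖ ≤ 1 → ‖(α m : k) * T * x‖ ≤ 1 := by
    intro m x hx
    rw [norm_mul]
    exact mul_le_one₀ ((hA m).trans hTlt1.le) (norm_nonneg _) hx
  have hMb : ∀ i m, ‖M i m‖ ≤ C1 := by
    intro i m
    rw [hM, Matrix.of_apply, norm_mul, norm_sign, one_mul]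
    refine (IsUltrametricDist.norm_add_le_max _ _).trans (max_le ?_ ?_)
    · exact (hCφb _ (harg m _ (hζ1 i).le)).trans (by linarith)
    · refine (he i m).trans ?_
      calc C₀ * ‖T‖ ^ (N + 1) ≤ C₀ * 1 := mul_le_mul_of_nonneg_left hTN hC₀
        _ ≤ C1 := by linarith
  have hM'b : ∀ i m, ‖M' i m‖ ≤ C1 := by
    intro i m
    rw [hM', Matrix.of_apply, norm_mul, norm_sign, one_mul]
    exact (hCφb _ (harg m _ (hz1 _).1)).trans (by linarith)
  have hMM' : ∀ i m, ‖M i m - M' i m‖ ≤ C2 * ‖T‖ ^ (N + 1) := by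
    intro i m
    have h1 : M i m - M' i m = (((ε i m : ℤˣ) : ℤ) : k) *
        (((phi k N).eval ((α m : k) * T * ζ i) - (phi k N).eval ((α m : k) * T * z (j i) T)) +
          e i m) := by
      simp only [hM, hM', Matrix.of_apply]; ring
    rw [h1, norm_mul, norm_sign, one_mul]
    refine (IsUltrametricDist.norm_add_le_max _ _).trans (max_le ?_ ?_)
    · refine (hCφ _ _ (harg m _ (hζ1 i).le) (harg m _ (hz1 _).1)).trans ?_
      have h2 : ‖(α m : k) * T * ζ i - (α m : k) * T * z (j i) T‖ ≤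
          CV / D * ‖T‖ ^ (N + 1) := by
        rw [← mul_sub, norm_mul, norm_sub_rev]
        have h3 : ‖(α m : k) * T‖ ≤ 1 := (hA m).trans hTlt1.le
        calc _ ≤ 1 * (CV / D * ‖T‖ ^ (N + 1)) :=
              mul_le_mul h3 (hzζ i) (norm_nonneg _) zero_le_one
          _ = _ := one_mul _
      calc Cφ * ‖(α m : k) * T * ζ i - (α m : k) * T * z (j i) T‖
          ≤ Cφ * (CV / D * ‖T‖ ^ (N + 1)) := mul_le_mul_of_nonneg_left h2 (by linarith)
        _ = Cφ * (CV / D) * ‖T‖ ^ (N + 1) := by ring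
        _ ≤ C2 * ‖T‖ ^ (N + 1) := mul_le_mul_of_nonneg_right (by linarith) (by positivity)
    · refine (he i m).trans (mul_le_mul_of_nonneg_right ?_ (by positivity))
      have : 0 ≤ Cφ * (CV / D) := by positivity
      linarith
  have hdet := norm_det_sub_det_le M M' hC1' (by positivity) hMb hM'b hMM'
  -- the determinant of `M'`
  have hM'det : c (fun i m ↦ ε (E.symm i) m) * ‖T‖ ^ N ≤ ‖M'.det‖ := by
    have h1 : M' = (Matrix.of fun i m ↦ (((ε (E.symm i) m : ℤˣ) : ℤ) : k) *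
          (phi k N).eval ((α m : k) * T * z i T)).submatrix E id := by
      ext σ m
      have hEs : E.symm (j σ) = σ := E.symm_apply_apply σ
      simp only [hM', Matrix.of_apply, Matrix.submatrix_apply, hE, id, hEs]
    have h2 := hlow (fun i m ↦ ε (E.symm i) m) T (hT3 _).1
    rw [Dpoly_eval] at h2
    rw [h1, Matrix.det_permute, norm_mul, norm_sign, one_mul]
    exact h2
  intro h0
  rw [h0, zero_sub, norm_neg] at hdet
  have h1 : (C1 ^ d * C2) * ‖T‖ * ‖T‖ ^ N < c (fun i m ↦ ε (E.symm i) m) * ‖T‖ ^ N :=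
    mul_lt_mul_of_pos_right (hT3 _).2 (by positivity)
  have h2 : C1 ^ d * (C2 * ‖T‖ ^ (N + 1)) = (C1 ^ d * C2) * ‖T‖ * ‖T‖ ^ N := by ring
  linarith

end Pool.Agent.Helper42.SL
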