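import Pool.Agent.Helper51.SigLeo.Member
import Pool.Agent.Helper42.SL.Padic
import Pool.Agent.Helper42.SL.Crit

/-!
# The units and their regulators
-/

namespace Pool.Agent.Helper42.SL

open NumberField Module TensorProduct Pool.Agent.Helper51.SigLeo Finset

theorem member {F K H Ω : Type*} [Field F] [NumberField F] [IsTotallyReal F] [Field K]
    [NumberField K] [IsTotallyComplex K] [Algebra F K] [Field H] [Algebra K H] [Field Ω]
    [CharZero Ω] [IsAlgClosed Ω] (hKF : finrank F K = 2) (hH : finrank K H = 2) {d : ℕ}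
    (hd : finrank ℚ F = d) (p : ℕ) [Fact p.Prime] (k : Type*) [NormedField k]
    [NormedAlgebra ℚ_[p] k] [IsUltrametricDist k] [CharZero k]
    (y : F) (hyint : IsIntegral ℤ y) (hgen : ∀ ψ₁ ψ₂ : F →+* k, ψ₁ y = ψ₂ y → ψ₁ = ψ₂)
    (α : Fin d → ℤ) (T : ℤ) (hα : ∀ m, α m ≠ 0) (hT : T ≠ 0)
    (hy : ∏ m, (y - (α m * T : ℤ)) = 1) (B : Fin d → K) (hB : ∀ m, B m ^ 2 = (α m * T : ℤ))
    (x : H) (hx : x ^ 2 = algebraMap K H (algebraMap F K y))
    (hxK : x ∉ (algebraMap K H).range) (hT4 : ‖(T : k)‖ ≤ 1 / 4) (N : ℕ)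
    (hnv : ∀ ζ : Fin d → k, Function.Injective ζ →
      (∀ σ, hfun (fun m ↦ (α m : k) * T) (ζ σ) = 0) →
      ∀ (ε : Fin d → Fin d → ℤˣ) (e : Fin d → Fin d → k),
        (∀ σ m, ‖e σ m‖ ≤ (2 * (2 * N + 3)) * ‖(T : k)‖ ^ (N + 1)) →
        (Matrix.of fun σ m ↦ (((ε σ m : ℤˣ) : ℤ) : k) *
          ((phi k N).eval ((α m : k) * T * ζ σ) + e σ m)).det ≠ 0) :
    SigmaLeopoldt K H Ω p k := by
  have hdpos : 0 < d := by rw [← hd]; exact finrank_pos
  let g : K →+* H := algebraMap K H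
  let f : F →+* H := g.comp (algebraMap F K)
  let PF : Fin d → F := fun m ↦ ∏ j ∈ univ.erase m, (y - (α j * T : ℤ))
  have hPF : ∀ m, (y - (α m * T : ℤ)) * PF m = 1 := fun m ↦ by
    rw [← hy]; exact mul_prod_erase univ (fun j ↦ y - ((α j * T : ℤ) : F)) (mem_univ m)
  have hfP : ∀ m, (f y - (α m * T : ℤ)) * f (PF m) = 1 := fun m ↦ by
    rw [← map_intCast f (α m * T), ← map_sub, ← map_mul, hPF, map_one]
  have hint : ∀ n : ℤ, IsIntegral ℤ (n : F) := fun n ↦
    isIntegral_algebraMap (R := ℤ) (A := F) (x := n)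
  have hPFint : ∀ m, IsIntegral ℤ (PF m) := fun m ↦
    IsIntegral.prod _ fun j _ ↦ hyint.sub (hint _)
  have hPint : ∀ m, IsIntegral ℤ (f (PF m)) := fun m ↦ map_isIntegral_int _ (hPFint m)
  have hx' : x ^ 2 = f y := hx
  have hxint : IsIntegral ℤ x := by
    refine IsIntegral.of_pow (n := 2) (by norm_num) ?_
    rw [hx']
    exact map_isIntegral_int _ hyint
  have hBint : ∀ m, IsIntegral ℤ (B m) := fun m ↦ by
    refine IsIntegral.of_pow (n := 2) (by norm_num) ?_
    rw [hB]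
    exact isIntegral_algebraMap (R := ℤ) (A := K) (x := α m * T)
  have hgB : ∀ m, IsIntegral ℤ (g (B m)) := fun m ↦ map_isIntegral_int _ (hBint m)
  have hgB2 : ∀ m, g (B m) ^ 2 = (α m * T : ℤ) := fun m ↦ by
    rw [← map_pow, hB, map_intCast]
  let u : Fin d → (𝓞 H)ˣ := fun m ↦ mkUnit ((x - g (B m)) ^ 2 * f (PF m))
    ((x + g (B m)) ^ 2 * f (PF m)) (((hxint.sub (hgB m)).pow 2).mul (hPint m))
    (((hxint.add (hgB m)).pow 2).mul (hPint m))
    (by
      have h1 := hfP m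
      have h2 : (x - g (B m)) ^ 2 * f (PF m) * ((x + g (B m)) ^ 2 * f (PF m)) =
        ((x ^ 2 - g (B m) ^ 2) * f (PF m)) ^ 2 := by ring
      rw [h2, hx', hgB2, h1, one_pow])
  have hu : ∀ m, (u m : H) = (x - g (B m)) ^ 2 * f (PF m) := fun m ↦ rfl
  have hτf : ∀ (τ : H ≃ₐ[K] H) (z : F), τ (f z) = f z := fun τ z ↦ AlgEquiv.commutes τ _
  have hτg : ∀ (τ : H ≃ₐ[K] H) (z : K), τ (g z) = g z := fun τ z ↦ AlgEquiv.commutes τ _
  have hτx : ∀ τ : H ≃ₐ[K] H, τ ≠ 1 → τ x = -x := fun τ hτ ↦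
    gal_apply_sqrt hH (d := algebraMap F K y) hx hxK τ hτ
  refine sigmaLeopoldt_of_det_gen hd hKF p k hH u ?_ ?_
  · intro m τ hτ
    rw [hu, map_mul, map_pow, map_sub, hτx τ hτ, hτg, hτf]
    have h1 := hfP m
    have h2 : (x - g (B m)) ^ 2 * f (PF m) * ((-x - g (B m)) ^ 2 * f (PF m)) =
        ((x ^ 2 - g (B m) ^ 2) * f (PF m)) ^ 2 := by ring
    rw [h2, hx', hgB2, h1, one_pow]
  · intro L ψ hψ
    -- local data
    let X : Fin d → k := fun i ↦ ψ i x
    let Y : Fin d → k := fun i ↦ ψ i (f y)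
    have hXY : ∀ i, X i ^ 2 = Y i := fun i ↦ by
      simp only [X, Y]; rw [← map_pow, hx']
    have hYprod : ∀ i, ∏ m, (Y i - (α m : k) * T) = 1 := fun i ↦ by
      have := congrArg (fun z ↦ ψ i (f z)) hy
      simpa using this
    have hY0 : ∀ i, Y i ≠ 0 := by
      intro i h0
      have h1 := hYprod i
      rw [h0] at h1
      have h2 : ‖∏ m : Fin d, ((0 : k) - (α m : k) * T)‖ ≤ (1 / 4) ^ d := by
        have := norm_prod_le_pow univ (fun m : Fin d ↦ ((0 : k) - (α m : k) * T)) (C := 1 / 4)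
          (fun m _ ↦ by
            rw [zero_sub, norm_neg, norm_mul]
            have h3 := norm_intCast_le_one' p (k := k) (α m)
            calc _ ≤ 1 * (1 / 4) := mul_le_mul h3 hT4 (norm_nonneg _) zero_le_one
              _ = _ := one_mul _)
        simpa using this
      rw [h1, norm_one] at h2
      have h3 : ((1 : ℝ) / 4) ^ d < 1 := pow_lt_one₀ (by norm_num) (by norm_num) hdpos.ne'
      linarith
    have hX0 : ∀ i, X i ≠ 0 := fun i h ↦ hY0 i (by rw [← hXY, h]; ring)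
    let ζ : Fin d → k := fun i ↦ (Y i)⁻¹
    have hζroot : ∀ i, hfun (fun m ↦ (α m : k) * T) (ζ i) = 0 := by
      intro i
      rw [hfun]
      have h1 : ∏ m, (1 - (α m : k) * T * ζ i) = (∏ m, (Y i - (α m : k) * T)) * ζ i ^ d := by
        have : ζ i ^ d = ∏ _m : Fin d, ζ i := by simp
        rw [this, ← prod_mul_distrib]
        refine prod_congr rfl fun m _ ↦ ?_
        simp only [ζ]
        have := hY0 i
        field_simp
      rw [h1, hYprod, one_mul, sub_self]
    have hζinj : Function.Injective ζ := by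
      intro i j hij
      have h1 : Y i = Y j := inv_injective hij
      exact hψ (hgen _ _ h1)
    have hA : ∀ m, ‖(α m : k) * T‖ ≤ ‖(T : k)‖ := fun m ↦ by
      rw [norm_mul]
      exact mul_le_of_le_one_left (norm_nonneg _) (norm_intCast_le_one' p _)
    have hζ1 : ∀ i, ‖ζ i‖ = 1 := fun i ↦
      norm_eq_one_of_root hdpos _ hA (lt_of_le_of_lt hT4 (by norm_num)) (hζroot i)
    -- the small quantities
    let z : Fin d → Fin d → k := fun i m ↦ ψ i (g (B m)) / X i
    have hz2 : ∀ i m, z i m ^ 2 = (α m : k) * T * ζ i := by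
      intro i m
      simp only [z, ζ]
      rw [div_pow, ← map_pow, hgB2, hXY, map_intCast, Int.cast_mul, div_eq_mul_inv]
    have hz2n : ∀ i m, ‖z i m‖ ^ 2 ≤ ‖(T : k)‖ := by
      intro i m
      rw [← norm_pow, hz2, norm_mul, hζ1, mul_one]
      exact hA m
    have hz1 : ∀ i m, ‖z i m‖ ≤ 1 / 2 := by
      intro i m
      have h1 := hz2n i m
      have h2 := norm_nonneg (z i m)
      nlinarith
    have hBne : ∀ i m, ψ i (g (B m)) ≠ 0 := by
      intro i m h0
      have h1 : ψ i (g (B m)) ^ 2 = ((α m * T : ℤ) : k) := by rw [← map_pow, hgB2, map_intCast]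
      rw [h0] at h1
      have h2 : ((α m * T : ℤ) : k) ≠ 0 := by exact_mod_cast mul_ne_zero (hα m) hT
      apply h2
      rw [← h1]; ring
    have hzne : ∀ i m, z i m ≠ 0 := fun i m ↦ div_ne_zero (hBne i m) (hX0 i)
    -- the logarithms
    have hlog : ∀ i m, ‖logUnits L (ψ i) (Additive.ofMul (u m)) +
        2 * z i m * (phi k N).eval ((α m : k) * T * ζ i)‖ ≤
        (2 * N + 3) * ‖z i m‖ ^ (2 * N + 3) := by
      intro i m
      have h1 := log_est L (hz1 i m)
        (Units.map ((ψ i).comp (algebraMap (𝓞 H) H) : 𝓞 H →* k) (u m)) (by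
          rw [unitsMap_coe, hu, map_mul, map_pow, map_sub]
          have h2 := congrArg (ψ i) (hfP m)
          rw [map_mul, map_sub, map_one, map_intCast] at h2
          have h3 : ψ i (f y) = X i ^ 2 := (hXY i).symm
          have h4 : ((α m * T : ℤ) : k) = ψ i (g (B m)) ^ 2 := by
            rw [← map_pow, hgB2, map_intCast]
          rw [h3, h4] at h2
          show (X i - ψ i (g (B m))) ^ 2 * ψ i (f (PF m)) * (1 + ψ i (g (B m)) / X i) =
            1 - ψ i (g (B m)) / X i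
          have h5 := hX0 i
          field_simp
          linear_combination (X i - ψ i (g (B m))) * h2) N
      rw [logUnits_apply]
      have h6 : (phi k N).eval ((α m : k) * T * ζ i) =
          ∑ i_1 ∈ range (N + 1), z i m ^ (2 * i_1) / (2 * (i_1 : k) + 1) := by
        rw [phi_eval, ← hz2]
        refine sum_congr rfl fun j _ ↦ ?_
        rw [← pow_mul, div_eq_inv_mul]
      rw [h6]
      exact h1
    let e : Fin d → Fin d → k := fun i m ↦
      (-(logUnits L (ψ i) (Additive.ofMul (u m)) +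
        2 * z i m * (phi k N).eval ((α m : k) * T * ζ i))) / (2 * z i m)
    have h2ne : (2 : k) ≠ 0 := two_ne_zero
    have h2n : 1 / 2 ≤ ‖(2 : k)‖ := by
      have := one_div_le_norm_natCast p (k := k) 2 (by omega)
      simpa using this
    have he : ∀ i m, ‖e i m‖ ≤ (2 * (2 * N + 3)) * ‖(T : k)‖ ^ (N + 1) := by
      intro i m
      have hzpos : 0 < ‖z i m‖ := norm_pos_iff.mpr (hzne i m)
      have h2pos : 0 < ‖(2 : k)‖ := by linarith
      simp only [e]
      rw [norm_div, norm_neg, norm_mul, div_le_iff₀ (by positivity)]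
      refine (hlog i m).trans ?_
      have h3 : ‖z i m‖ ^ (2 * N + 3) = (‖z i m‖ ^ 2) ^ (N + 1) * ‖z i m‖ := by
        rw [← pow_mul, ← pow_succ]; congr 1
      rw [h3]
      have h4 : (‖z i m‖ ^ 2) ^ (N + 1) ≤ ‖(T : k)‖ ^ (N + 1) :=
        pow_le_pow_left₀ (by positivity) (hz2n i m) _
      have h5 : (0 : ℝ) ≤ 2 * N + 3 := by positivity
      calc (2 * (N : ℝ) + 3) * ((‖z i m‖ ^ 2) ^ (N + 1) * ‖z i m‖)
          ≤ (2 * N + 3) * (‖(T : k)‖ ^ (N + 1) * ‖z i m‖) := by gcongr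
        _ = (2 * (2 * N + 3)) * ‖(T : k)‖ ^ (N + 1) * (1 / 2 * ‖z i m‖) := by ring
        _ ≤ (2 * (2 * N + 3)) * ‖(T : k)‖ ^ (N + 1) * (‖(2 : k)‖ * ‖z i m‖) := by gcongr
    -- signs
    let κ : Fin d → k := fun m ↦ ψ ⟨0, hdpos⟩ (g (B m))
    have hκ : ∀ i m, ∃ s : ℤˣ, ψ i (g (B m)) = (((s : ℤˣ) : ℤ) : k) * κ m := by
      intro i m
      have h0 : ∀ j, ψ j (g (B m)) ^ 2 = ((α m * T : ℤ) : k) := fun j ↦ by
        rw [← map_pow, hgB2, map_intCast]
      have h1 : ψ i (g (B m)) ^ 2 = κ m ^ 2 := (h0 i).trans (h0 _).symm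
      rcases sq_eq_sq_iff_eq_or_eq_neg.mp h1 with h | h
      · exact ⟨1, by rw [h]; simp⟩
      · exact ⟨-1, by rw [h]; simp⟩
    choose ε hε using hκ
    have hres := hnv ζ hζinj hζroot ε e he
    -- factor the determinant
    have hmat : (Matrix.of fun i m ↦ logUnits L (ψ i) (Additive.ofMul (u m))) =
        Matrix.of fun i m ↦ (-2 / X i) * (Matrix.of fun i m ↦ κ m *
          ((Matrix.of fun σ m ↦ (((ε σ m : ℤˣ) : ℤ) : k) *
          ((phi k N).eval ((α m : k) * T * ζ σ) + e σ m)) i m)) i m := by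
      ext i m
      simp only [Matrix.of_apply]
      have h1 : logUnits L (ψ i) (Additive.ofMul (u m)) =
          -2 * z i m * ((phi k N).eval ((α m : k) * T * ζ i) + e i m) := by
        simp only [e]
        have := hzne i m
        field_simp
        ring
      rw [h1]
      simp only [z]
      rw [hε i m]
      ring
    rw [hmat, Matrix.det_mul_column, Matrix.det_mul_row]
    refine mul_ne_zero (prod_ne_zero_iff.mpr fun i _ ↦ ?_)
      (mul_ne_zero (prod_ne_zero_iff.mpr fun m _ ↦ hBne _ m) hres)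
    exact div_ne_zero (neg_ne_zero.mpr h2ne) (hX0 i)

end Pool.Agent.Helper42.SL
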