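import Mathlib

/-!
# The truncated series `∑ X^i / (2 i + 1)`
-/

namespace Pool.Agent.Helper42.SL

open Polynomial Finset

/-- The truncated series `∑_{i ≤ N} X^i / (2 i + 1)`. -/
noncomputable def phi (Q : Type*) [Field Q] (N : ℕ) : Q[X] :=
  ∑ i ∈ range (N + 1), C ((2 * (i : Q) + 1)⁻¹) * X ^ i

theorem phi_eval₂ {Q R : Type*} [Field Q] [CommRing R] (ψ : Q →+* R) (N : ℕ) (x : R) :
    (phi Q N).eval₂ ψ x = ∑ i ∈ range (N + 1), ψ ((2 * (i : Q) + 1)⁻¹) * x ^ i := by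
  simp [phi, eval₂_finsetSum]

theorem phi_eval {Q : Type*} [Field Q] (N : ℕ) (x : Q) :
    (phi Q N).eval x = ∑ i ∈ range (N + 1), (2 * (i : Q) + 1)⁻¹ * x ^ i := by
  simp [phi, eval_finsetSum]

theorem phi_map {Q Q' : Type*} [Field Q] [Field Q'] (f : Q →+* Q') (N : ℕ) :
    (phi Q N).map f = phi Q' N := by
  rw [phi, Polynomial.map_sum, phi]
  refine sum_congr rfl fun i _ ↦ ?_
  rw [Polynomial.map_mul, Polynomial.map_pow, map_X, map_C, map_inv₀, map_add, map_mul, map_ofNat,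
    map_natCast, map_one]

/-- The signed determinant of truncated series at the special point. -/
noncomputable def Epoly {Q : Type*} [Field Q] {d : ℕ} (w : Q) (ε : Fin d → Fin d → ℤˣ) (N : ℕ) :
    Q[X] :=
  (Matrix.of fun j m : Fin d ↦
    C (((ε j m : ℤˣ) : ℤ) : Q) * (phi Q N).comp (C (w ^ ((j : ℕ) + m)) * X)).det

theorem Epoly_eval {Q : Type*} [Field Q] {d : ℕ} (w : Q) (ε : Fin d → Fin d → ℤˣ) (N : ℕ) (x : Q) :
    (Epoly w ε N).eval x = (Matrix.of fun j m : Fin d ↦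
      (((ε j m : ℤˣ) : ℤ) : Q) * (phi Q N).eval (w ^ ((j : ℕ) + m) * x)).det := by
  rw [Epoly, ← coe_evalRingHom, RingHom.map_det]
  congr 1
  ext j m
  simp [eval_comp]

theorem Epoly_map {Q Q' : Type*} [Field Q] [Field Q'] (f : Q →+* Q') {d : ℕ} (w : Q)
    (ε : Fin d → Fin d → ℤˣ) (N : ℕ) :
    (Epoly w ε N).map f = Epoly (f w) ε N := by
  rw [Epoly, ← coe_mapRingHom, RingHom.map_det, Epoly]
  congr 1
  ext1 j m
  simp [Polynomial.map_comp, phi_map]

end Pool.Agent.Helper42.SL
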